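import Pool.Agent.Lib.HypLow.Ext

/-! # Splitting lemma (L3) -/

namespace Pool.Agent.HypLow

universe v

variable {n : ℕ} {K : Type*} {V : Type v} [Field K] [AddCommGroup V] [Module K V]

/-- restriction of a system to a stable subspace -/
theorem Sys.restrict {B : Set (Fin n → ℤ)} {t : (Fin n → ℤ) → Module.End K V} (hS : Sys B t)
    (W : Submodule K V) (hW : ∀ x ∈ B, ∀ w ∈ W, t x w ∈ W) :
    ∃ t' : (Fin n → ℤ) → Module.End K W, Sys B t' ∧ ∀ x ∈ B, ∀ w : W, (t' x w : V) = t x w := by
  classical
  refine ⟨fun x => if h : x ∈ B then (t x).restrict (hW x h) else 0, ?_, ?_⟩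
  · have key : ∀ x ∈ B, ∀ w : W, (((if h : x ∈ B then (t x).restrict (hW x h) else 0 :
        Module.End K W) w : W) : V) = t x w := by
      intro x hx w
      rw [dif_pos hx]
      rfl
    refine ⟨?_, ?_, ?_⟩
    · intro x hx y hy h
      ext w
      have e := LinearMap.congr_fun (hS.comm x hx y hy h) (w : V)
      simp only [Module.End.mul_apply] at e ⊢
      rw [key x hx, key y hy, key y hy, key x hx]
      exact e
    · intro x hx y hy h
      ext w
      have e := LinearMap.congr_fun (hS.braid x hx y hy h) (w : V)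
      simp only [Module.End.mul_apply] at e ⊢
      rw [key x hx, key y hy, key x hx, key y hy, key x hx, key y hy]
      exact e
    · intro x hx y hy z hz h1 h2 h3
      ext w
      have e := LinearMap.congr_fun (hS.tri x hx y hy z hz h1 h2 h3) (w : V)
      simp only [Module.End.mul_apply] at e ⊢
      rw [key x hx, key y hy, key z hz, key x hx, key y hy, key z hz, key x hx, key y hy]
      exact e
  · intro x hx w
    show (((if h : x ∈ B then (t x).restrict (hW x h) else 0 : Module.End K W) w : W) : V) = t x w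
    rw [dif_pos hx]
    rfl

/-- flatness on a stable subspace of small dimension -/
theorem Nab.flat_on [FiniteDimensional K V] {l u : Fin n → ℤ} {k : ℕ} (hN : Nab.{v} K l u k)
    {t : (Fin n → ℤ) → Module.End K V} (hinj : ∀ x ∈ Box l u, Function.Injective (t x))
    (hS : Sys (Box l u) t) (W : Submodule K V) (hW : ∀ x ∈ Box l u, ∀ w ∈ W, t x w ∈ W)
    (hk : Module.finrank K W < k) :
    ∀ x ∈ Box l u, ∀ y ∈ Box l u, ∀ w ∈ W, t x w = t y w := by
  obtain ⟨t', hS', ht'⟩ := hS.restrict W hW
  intro x hx y hy w hw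
  have h := hN W t' (fun z hz => by
    intro w1 w2 h
    have h' : t z (w1 : V) = t z (w2 : V) := by rw [← ht' z hz, ← ht' z hz, h]
    exact Subtype.ext (hinj z hz h')) hS' hk x hx y hy
  have h2 := congrArg (fun g : Module.End K W => ((g ⟨w, hw⟩ : W) : V)) h
  simpa only [ht' x hx, ht' y hy] using h2

/-- products of factors `T - μ` commute with what commutes with `T` -/
theorem prod_comm {T s : Module.End K V} (h : T * s = s * T) (L : List K) :
    (L.map fun μ => T - μ • (1 : Module.End K V)).prod * s =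
      s * (L.map fun μ => T - μ • (1 : Module.End K V)).prod := by
  induction L with
  | nil => simp
  | cons μ L ih =>
    rw [List.map_cons, List.prod_cons, mul_assoc, ih, ← mul_assoc, ← mul_assoc, sub_mul, mul_sub, h]
    simp

/-- a product of factors `T - μ` is zero -/
theorem exists_prod_zero [IsAlgClosed K] [FiniteDimensional K V] (T : Module.End K V) :
    ∃ L : List K, (L.map fun μ => T - μ • (1 : Module.End K V)).prod = 0 := by
  classical
  refine ⟨(minpoly K T).roots.toList, ?_⟩
  have hm : (minpoly K T).Monic := minpoly.monic (Algebra.IsIntegral.isIntegral T)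
  have h1 : minpoly K T = ((minpoly K T).roots.map fun a => Polynomial.X - Polynomial.C a).prod :=
    (IsAlgClosed.splits (minpoly K T)).eq_prod_roots_of_monic hm
  have h2 : minpoly K T =
      ((minpoly K T).roots.toList.map fun a => Polynomial.X - Polynomial.C a).prod := by
    conv_lhs => rw [h1, ← Multiset.coe_toList (minpoly K T).roots, Multiset.map_coe,
      Multiset.prod_coe]
  have h3 : Polynomial.aeval T (minpoly K T) = 0 := minpoly.aeval K T
  rw [h2, map_list_prod, List.map_map] at h3
  rw [← h3]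
  congr 1
  apply List.map_congr_left
  intro a _
  simp [Function.comp, Algebra.algebraMap_eq_smul_one]

/-- (L3) existence -/
theorem split [IsAlgClosed K] [FiniteDimensional K V] {l u : Fin n → ℤ} {k : ℕ} (a : Fin n)
    (ha : l a + 4 ≤ u a) (hN : Nab.{v} K l u k)
    {t : (Fin n → ℤ) → Module.End K V} (hinj : ∀ x ∈ Box l u, Function.Injective (t x))
    (hS : Sys (Box l u) t) (hr : Module.finrank K V < 2 * k) (T : Module.End K V)
    (hT : ∀ x ∈ Box l u, T * t x = t x * T)
    (hnf : ∃ x ∈ Box l u, ∃ y ∈ Box l u, t x ≠ t y) :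
    ∃ μ : K, ∀ x ∈ Box l u, ∀ y ∈ Box l u, ∀ w, t x (T w - μ • w) = t y (T w - μ • w) := by
  classical
  set P : List K → Module.End K V := fun L => (L.map fun μ => T - μ • (1 : Module.End K V)).prod
    with hP
  have hPc : ∀ L, ∀ x ∈ Box l u, ∀ w, P L (t x w) = t x (P L w) := by
    intro L x hx w
    exact LinearMap.congr_fun (prod_comm (hT x hx) L) w
  have hPT : ∀ L, ∀ w, P L (T w) = T (P L w) := by
    intro L w
    exact LinearMap.congr_fun (prod_comm (s := T) rfl L) w
  have hcons : ∀ μ L w, P (μ :: L) w = T (P L w) - μ • P L w := by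
    intro μ L w
    simp [hP]
  -- the step
  have hstep : ∃ μ L, (∀ x ∈ Box l u, ∀ y ∈ Box l u, ∀ w, P L w = 0 → t x w = t y w) ∧
      ¬ (∀ x ∈ Box l u, ∀ y ∈ Box l u, ∀ w, P (μ :: L) w = 0 → t x w = t y w) := by
    by_contra hcon
    push Not at hcon
    have hall : ∀ L : List K, ∀ x ∈ Box l u, ∀ y ∈ Box l u, ∀ w, P L w = 0 → t x w = t y w := by
      intro L
      induction L with
      | nil =>
        intro x _ y _ w hw
        have : w = 0 := by simpa [hP] using hw
        rw [this, map_zero, map_zero]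
      | cons μ L ih => exact hcon μ L ih
    obtain ⟨L, hL⟩ := exists_prod_zero (K := K) T
    obtain ⟨x, hx, y, hy, hxy⟩ := hnf
    apply hxy
    ext w
    apply hall L x hx y hy w
    show (L.map fun μ => T - μ • (1 : Module.End K V)).prod w = 0
    rw [hL]
    rfl
  obtain ⟨μ, L, h1, h2⟩ := hstep
  -- the kernel of `P (μ :: L)` is large
  have hker : ¬ Module.finrank K (LinearMap.ker (P (μ :: L))) < k := by
    intro hk
    apply h2
    intro x hx y hy w hw
    exact hN.flat_on hinj hS (LinearMap.ker (P (μ :: L))) (fun z hz w' hw' => by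
      rw [LinearMap.mem_ker] at hw' ⊢
      rw [hPc _ z hz, hw', map_zero]) hk x hx y hy w (LinearMap.mem_ker.2 hw)
  have hran : Module.finrank K (LinearMap.range (P (μ :: L))) < k := by
    have := LinearMap.finrank_range_add_finrank_ker (P (μ :: L))
    omega
  have h3 : ∀ x ∈ Box l u, ∀ y ∈ Box l u, ∀ w ∈ LinearMap.range (P (μ :: L)), t x w = t y w :=
    hN.flat_on hinj hS _ (fun z hz w' hw' => by
      obtain ⟨v, rfl⟩ := hw'
      exact ⟨t z v, hPc _ z hz v⟩) hran
  -- extension on the image of `T - μ`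
  set I : Submodule K V := LinearMap.range (T - μ • (1 : Module.End K V)) with hI
  have hIst : ∀ x ∈ Box l u, ∀ w ∈ I, t x w ∈ I := by
    rintro x hx w ⟨v, rfl⟩
    refine ⟨t x v, ?_⟩
    have e := LinearMap.congr_fun (hT x hx) v
    simp only [Module.End.mul_apply] at e
    simp [e]
  obtain ⟨t', hS', ht'⟩ := hS.restrict I hIst
  have hinj' : ∀ x ∈ Box l u, Function.Injective (t' x) := by
    intro z hz w1 w2 h
    have h' : t z (w1 : V) = t z (w2 : V) := by rw [← ht' z hz, ← ht' z hz, h]
    exact Subtype.ext (hinj z hz h')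
  have hflat := ext_flat a ha (t := t') (fun x hx => LinearMap.injective_iff_surjective.1
    (hinj' x hx)) hS' (LinearMap.ker ((P L).comp I.subtype)) (by
      intro x hx y hy w hw
      apply Subtype.ext
      rw [ht' x hx, ht' y hy]
      exact h1 x hx y hy w (by simpa using hw)) (by
      intro x hx y hy w
      rw [LinearMap.mem_ker]
      have e : ((t' x w - t' y w : I) : V) = t x w - t y w := by
        rw [Submodule.coe_sub, ht' x hx, ht' y hy]
      rw [LinearMap.comp_apply, Submodule.subtype_apply, e, map_sub, hPc _ x hx, hPc _ y hy]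
      have hmem : P L (w : V) ∈ LinearMap.range (P (μ :: L)) := by
        obtain ⟨v, hv⟩ := w.2
        refine ⟨v, ?_⟩
        rw [hcons, ← hv]
        simp [hPT]
      rw [h3 x hx y hy _ hmem, sub_self])
  refine ⟨μ, fun x hx y hy w => ?_⟩
  have hw : T w - μ • w ∈ I := ⟨w, by simp⟩
  have h := congrArg (fun g : Module.End K I => ((g ⟨_, hw⟩ : I) : V)) (hflat x hx y hy)
  simpa only [ht' x hx, ht' y hy] using h

/-- (L3) uniqueness: if two different `μ` have the property on a set `B`, then the `t x`, `x ∈ B`,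
are equal -/
theorem split_unique {B : Set (Fin n → ℤ)} {t : (Fin n → ℤ) → Module.End K V}
    (T : Module.End K V) {μ ν : K} (hne : μ ≠ ν)
    (h1 : ∀ x ∈ B, ∀ y ∈ B, ∀ w, t x (T w - μ • w) = t y (T w - μ • w))
    (h2 : ∀ x ∈ B, ∀ y ∈ B, ∀ w, t x (T w - ν • w) = t y (T w - ν • w)) :
    ∀ x ∈ B, ∀ y ∈ B, t x = t y := by
  intro x hx y hy
  ext w
  have e : w = (ν - μ)⁻¹ • ((T w - μ • w) - (T w - ν • w)) := by
    have h : (T w - μ • w) - (T w - ν • w) = (ν - μ) • w := by
      rw [sub_smul]; abel
    rw [h, smul_smul, inv_mul_cancel₀ (sub_ne_zero.2 hne.symm), one_smul]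
  rw [e, LinearMap.map_smul, LinearMap.map_smul, LinearMap.map_sub (t x) (T w - μ • w),
    LinearMap.map_sub (t y) (T w - μ • w), h1 x hx y hy, h2 x hx y hy]

end Pool.Agent.HypLow
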