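import Pool.Agent.Lib.HypLow.CombA

/-! # Combinatorics of boxes: far pairs, triples, claws -/

namespace Pool.Agent.HypLow

variable {n : ℕ}

/-- (5b) all far pairs of a box with sides `≥ 3` in dimension `≥ 2` are connected by moves -/
theorem far_induction {l u : Fin n → ℤ} (hs : ∀ c, l c + 2 ≤ u c) {a b : Fin n} (hab : a ≠ b)
    (R : (Fin n → ℤ) → (Fin n → ℤ) → Prop)
    (h1 : ∀ v ∈ Box l u, ∀ w ∈ Box l u, Far v w → R v w → R w v)
    (h2 : ∀ v ∈ Box l u, ∀ v' ∈ Box l u, ∀ w ∈ Box l u, Adj v v' → Far v w → Far v' w →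
      R v w → R v' w)
    (h3 : ∃ v ∈ Box l u, ∃ w ∈ Box l u, Far v w ∧ R v w) :
    ∀ v ∈ Box l u, ∀ w ∈ Box l u, Far v w → R v w := by
  have sw : ∀ v ∈ Box l u, ∀ w ∈ Box l u, Far v w → (R v w ↔ R w v) := fun v hv w hw h =>
    ⟨h1 v hv w hw h, h1 w hw v hv h.symm⟩
  have m1 : ∀ v ∈ Box l u, ∀ v' ∈ Box l u, ∀ w ∈ Box l u, Adj v v' → Far v w → Far v' w →
      (R v w ↔ R v' w) := fun v hv v' hv' w hw ha hf hf' =>
    ⟨h2 v hv v' hv' w hw ha hf hf', h2 v' hv' v hv w hw ha.symm hf' hf⟩
  have m2 : ∀ v ∈ Box l u, ∀ w ∈ Box l u, ∀ w' ∈ Box l u, Adj w w' → Far v w → Far v w' →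
      (R v w ↔ R v w') := fun v hv w hw w' hw' ha hf hf' =>
    ((sw v hv w hw hf).trans (m1 w hw w' hw' v hv ha hf.symm hf'.symm)).trans
      (sw w' hw' v hv hf'.symm)
  have hl : l ∈ Box l u := mem_low l u hs
  have upd : ∀ (x : Fin n → ℤ) (c : Fin n) (t : ℤ), x ∈ Box l u → l c ≤ t → t ≤ u c →
      Function.update x c t ∈ Box l u := by
    intro x c t hx h1 h2 k
    by_cases hk : k = c
    · subst hk
      rw [Function.update_self]
      exact ⟨h1, h2⟩
    · rw [Function.update_of_ne hk]
      exact hx k
  -- the coordinates different from `c` can be moved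
  have red1 : ∀ (c : Fin n) (v w : Fin n → ℤ), v ∈ Box l u → w ∈ Box l u →
      (v c + 2 ≤ w c ∨ w c + 2 ≤ v c) → (R v w ↔ R (Function.update l c (v c)) w) := by
    intro c v w hv hw hc
    obtain ⟨y, hy, e1, e2, e3⟩ := box_down (l := l) (u := u) (fun x => x c = v c → R x w)
      (fun k => k = c) (fun x hx k hk hxk => by
        have e : mv x k 1 c = x c := mv_ne x (Ne.symm hk) 1
        rw [e]
        constructor
        · intro h hc'
          refine (m1 x hx _ hxk w hw (adj_mv x k) (far_of_two c (by omega))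
            (far_of_two c (by rw [e]; omega))).1 (h hc')
        · intro h hc'
          refine (m1 x hx _ hxk w hw (adj_mv x k) (far_of_two c (by omega))
            (far_of_two c (by rw [e]; omega))).2 (h hc')) _ v hv rfl
    have hyc : y c = v c := e1 c rfl
    have : y = Function.update l c (v c) := by
      funext k
      by_cases hk : k = c
      · subst hk
        rw [Function.update_self, hyc]
      · rw [Function.update_of_ne hk, e2 k hk]
    rw [this] at e3 hyc
    constructor
    · intro h
      exact e3.1 (fun _ => h) hyc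
    · intro h
      exact e3.2 (fun _ => h) rfl
  have red : ∀ (c : Fin n) (v w : Fin n → ℤ), v ∈ Box l u → w ∈ Box l u →
      (v c + 2 ≤ w c ∨ w c + 2 ≤ v c) →
      (R v w ↔ R (Function.update l c (v c)) (Function.update l c (w c))) := by
    intro c v w hv hw hc
    have hvc := hv c
    have hwc := hw c
    have hv' := upd l c (v c) hl hvc.1 hvc.2
    have hw' := upd l c (w c) hl hwc.1 hwc.2
    rw [red1 c v w hv hw hc, sw _ hv' w hw (far_of_two c (by rw [Function.update_self]; omega)),
      red1 c w _ hw hv' (by rw [Function.update_self]; omega), sw _ hw' _ hv'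
      (far_of_two c (by rw [Function.update_self, Function.update_self]; omega))]
  have red2 : ∀ (c : Fin n) (v w v' w' : Fin n → ℤ), v ∈ Box l u → w ∈ Box l u → v' ∈ Box l u →
      w' ∈ Box l u → v' c = v c → w' c = w c → (v c + 2 ≤ w c ∨ w c + 2 ≤ v c) →
      (R v w ↔ R v' w') := by
    intro c v w v' w' hv hw hv' hw' e1 e2 hc
    rw [red c v w hv hw hc, red c v' w' hv' hw' (by rw [e1, e2]; exact hc), e1, e2]
  -- the target pair
  have hsa := hs a
  have hsb := hs b
  have tgt1 : ∀ (c : Fin n), c ≠ a → ∀ (v w : Fin n → ℤ), v ∈ Box l u → w ∈ Box l u →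
      (v c + 2 ≤ w c ∨ w c + 2 ≤ v c) → (R v w ↔ R l (Function.update l a (u a))) := by
    intro c hca v w hv hw hc
    have hvc := hv c
    have hwc := hw c
    have hv' := upd l c (v c) hl hvc.1 hvc.2
    have hw' := upd _ a (u a) (upd l c (w c) hl hwc.1 hwc.2) (by omega) le_rfl
    have eva : Function.update l c (v c) a = l a := Function.update_of_ne (Ne.symm hca) _ _
    have ewa : Function.update (Function.update l c (w c)) a (u a) a = u a :=
      Function.update_self _ _ _
    rw [red2 c v w (Function.update l c (v c)) (Function.update (Function.update l c (w c)) a (u a))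
      hv hw hv' hw' (Function.update_self _ _ _)
      (by rw [Function.update_of_ne hca, Function.update_self]) hc]
    have := red a _ _ hv' hw' (by rw [eva, ewa]; omega)
    rw [this, eva, ewa, Function.update_eq_self]
  have tgt : ∀ (c : Fin n) (v w : Fin n → ℤ), v ∈ Box l u → w ∈ Box l u →
      (v c + 2 ≤ w c ∨ w c + 2 ≤ v c) → (R v w ↔ R l (Function.update l a (u a))) := by
    intro c v w hv hw hc
    by_cases hca : c = a
    · subst hca
      have hvc := hv c
      have hwc := hw c
      have hv' := upd _ b (l b) (upd l c (v c) hl hvc.1 hvc.2) le_rfl (by omega)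
      have hw' := upd _ b (u b) (upd l c (w c) hl hwc.1 hwc.2) (by omega) le_rfl
      rw [red2 c v w _ _ hv hw hv' hw' (by rw [Function.update_of_ne hab, Function.update_self])
        (by rw [Function.update_of_ne hab, Function.update_self]) hc]
      exact tgt1 b hab.symm _ _ hv' hw' (by rw [Function.update_self, Function.update_self]; omega)
    · exact tgt1 c hca v w hv hw hc
  have all : ∀ v ∈ Box l u, ∀ w ∈ Box l u, Far v w →
      (R v w ↔ R l (Function.update l a (u a))) := by
    intro v hv w hw hf
    by_cases hex : ∃ c, v c + 2 ≤ w c ∨ w c + 2 ≤ v c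
    · obtain ⟨c, hc⟩ := hex
      exact tgt c v w hv hw hc
    · have hnear : ∀ c, v c ≤ w c + 1 ∧ w c ≤ v c + 1 := by
        intro c
        by_contra hcon
        exact hex ⟨c, by omega⟩
      obtain ⟨c, hc⟩ : ∃ c, w c < v c := by
        by_contra hcon
        simp only [not_exists, not_lt] at hcon
        exact hf.2 (Or.inl ⟨hf.1, fun c => ⟨hcon c, (hnear c).2⟩⟩)
      have hnc := hnear c
      have hvc := hv c
      have hwc := hw c
      have hsc := hs c
      by_cases hcu : v c < u c
      · have hv' : mv v c 1 ∈ Box l u := mem_mv hv (by omega) (by omega)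
        have hf' : Far (mv v c 1) w := far_of_two c (by rw [mv_same]; omega)
        rw [m1 v hv _ hv' w hw (adj_mv v c) hf hf']
        exact tgt c _ w hv' hw (by rw [mv_same]; omega)
      · have hw' : mv w c (-1) ∈ Box l u := mem_mv hw (by omega) (by omega)
        have hf' : Far v (mv w c (-1)) := far_of_two c (by rw [mv_same]; omega)
        rw [m2 v hv w hw _ hw' (adj_mv' w c) hf hf']
        exact tgt c v _ hv hw' (by rw [mv_same]; omega)
  obtain ⟨v, hv, w, hw, hf, hR⟩ := h3
  intro v' hv' w' hw' hf'
  exact (all v' hv' w' hw' hf').2 ((all v hv w hw hf).1 hR)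

/-- (5c) -/
theorem tri_cases {l u : Fin n → ℤ} (hs : ∀ c, l c + 2 ≤ u c) {x y z : Fin n → ℤ}
    (hx : x ∈ Box l u) (hy : y ∈ Box l u) (hz : z ∈ Box l u) (hxy : Lt x y) (hyz : Lt y z)
    (hxz : Lt x z) :
    (∃ w ∈ Box l u, Adj w y ∧ Far w x ∧ Far w z) ∨ ∃ w ∈ Box l u, Adj w z ∧ Far w x ∧ Far w y := by
  obtain ⟨a, ha⟩ : ∃ a, x a ≠ y a := Function.ne_iff.1 hxy.1
  obtain ⟨b, hb⟩ : ∃ b, y b ≠ z b := Function.ne_iff.1 hyz.1
  have a1 := hxy.2 a
  have a2 := hyz.2 a
  have a3 := hxz.2 a
  have b1 := hxy.2 b
  have b2 := hyz.2 b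
  have b3 := hxz.2 b
  have hab : a ≠ b := by
    rintro rfl
    omega
  have hxb := hx b
  have hyb := hy b
  have hzb := hz b
  have hsb := hs b
  by_cases hl : l b < x b
  · left
    refine ⟨mv y b (-1), mem_mv hy (by omega) (by omega), (adj_mv' y b).symm,
      far_of_mixed b a ?_ ?_, far_of_two b ?_⟩
    · rw [mv_same]
      omega
    · rw [mv_ne y hab]
      omega
    · rw [mv_same]
      omega
  · right
    refine ⟨mv z b 1, mem_mv hz (by omega) (by omega), (adj_mv z b).symm,
      far_of_two b ?_, far_of_two b ?_⟩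
    · rw [mv_same]
      omega
    · rw [mv_same]
      omega

/-- (5d) a claw `v; w1, w2, w3` and a neighbour `p` of `w1` which is far from `v` -/
theorem claw {l u : Fin n → ℤ} (hs : ∀ c, l c + 2 ≤ u c) {a b : Fin n} (hab : a ≠ b) :
    ∃ v ∈ Box l u, ∃ w1 ∈ Box l u, ∃ w2 ∈ Box l u, ∃ w3 ∈ Box l u, ∃ p ∈ Box l u,
      Adj v w1 ∧ Adj v w2 ∧ Adj v w3 ∧ Far w1 w2 ∧ Far w1 w3 ∧ Far w2 w3 ∧
      Adj p w1 ∧ Far p v ∧
      ∀ z, z ≠ v → z = w1 ∨ z = w2 ∨ z = w3 ∨ Far z v ∨ Far z w1 ∨ Far z w2 ∨ Far z w3 := by
  have hba := hab.symm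
  let v : Fin n → ℤ := fun c => l c + 1
  have hv : v ∈ Box l u := fun c => by
    have := hs c
    show l c ≤ l c + 1 ∧ l c + 1 ≤ u c
    omega
  have hva : v a = l a + 1 := rfl
  have hvb : v b = l b + 1 := rfl
  have hsa := hs a
  have hsb := hs b
  have hw1 : mv v a 1 ∈ Box l u := mem_mv hv (by omega) (by omega)
  have hw2 : mv v b 1 ∈ Box l u := mem_mv hv (by omega) (by omega)
  have hw3' : mv v a (-1) ∈ Box l u := mem_mv hv (by omega) (by omega)
  have hw3 : mv (mv v a (-1)) b (-1) ∈ Box l u := mem_mv hw3' (by rw [mv_ne v hba]; omega)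
    (by rw [mv_ne v hba]; omega)
  have hp : mv (mv v a 1) b (-1) ∈ Box l u := mem_mv hw1 (by rw [mv_ne v hba]; omega)
    (by rw [mv_ne v hba]; omega)
  have w3a : mv (mv v a (-1)) b (-1) a = v a - 1 := by
    rw [mv_ne _ hab, mv_same]
    ring
  have w3b : mv (mv v a (-1)) b (-1) b = v b - 1 := by
    rw [mv_same, mv_ne _ hba]
    ring
  have w3c : ∀ c, c ≠ a → c ≠ b → mv (mv v a (-1)) b (-1) c = v c := by
    intro c h1 h2
    rw [mv_ne _ h2, mv_ne _ h1]
  refine ⟨v, hv, mv v a 1, hw1, mv v b 1, hw2, mv (mv v a (-1)) b (-1), hw3,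
    mv (mv v a 1) b (-1), hp, adj_mv v a, adj_mv v b, Or.inr ⟨?_, ?_⟩, far_of_mixed b a ?_ ?_,
    far_of_two a ?_, far_of_two b ?_, (adj_mv' _ b).symm, far_of_mixed b a ?_ ?_, ?_⟩
  · intro h
    have := congrFun h a
    rw [w3a] at this
    omega
  · intro c
    by_cases h1 : c = a
    · subst h1
      rw [w3a]
      omega
    · by_cases h2 : c = b
      · subst h2
        rw [w3b]
        omega
      · rw [w3c c h1 h2]
        omega
  · rw [mv_same, mv_ne _ hba]
    omega
  · rw [mv_same, mv_ne _ hab]
    omega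
  · rw [w3a, mv_same]
    omega
  · rw [w3b, mv_same]
    omega
  · rw [mv_same, mv_ne _ hba]
    omega
  · rw [mv_ne _ hab, mv_same]
    omega
  · intro z hz
    by_contra hcon
    simp only [not_or] at hcon
    obtain ⟨n1, n2, n3, f0, f1, f2, f3⟩ := hcon
    have adj : ∀ y, z ≠ y → ¬ Far z y → Adj z y := by
      intro y h1 h2
      by_contra h3
      exact h2 ⟨h1, h3⟩
    have g0 := adj v hz f0
    have g1 := adj _ n1 f1
    have g2 := adj _ n2 f2
    have g3 := adj _ n3 f3
    rcases g0 with g0 | g0
    · -- `z < v`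
      have ea : z a = v a := by
        have h0 := g0.2 a
        rcases g1 with g1 | g1
        · have := g1.2 a
          rw [mv_same] at this
          omega
        · have := g1.2 a
          rw [mv_same] at this
          omega
      have eb : z b = v b := by
        have h0 := g0.2 b
        rcases g2 with g2 | g2
        · have := g2.2 b
          rw [mv_same] at this
          omega
        · have := g2.2 b
          rw [mv_same] at this
          omega
      apply hz
      funext c
      by_cases h1 : c = a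
      · rw [h1, ea]
      · by_cases h2 : c = b
        · rw [h2, eb]
        · have h0 := g0.2 c
          rcases g3 with g3 | g3
          · have := g3.2 a
            rw [w3a] at this
            omega
          · have := g3.2 c
            rw [w3c c h1 h2] at this
            omega
    · -- `v < z`
      have ea : z a = v a := by
        have h0 := g0.2 a
        rcases g3 with g3 | g3
        · have := g3.2 a
          rw [w3a] at this
          omega
        · have := g3.2 a
          rw [w3a] at this
          omega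
      apply hz
      funext c
      by_cases h1 : c = a
      · rw [h1, ea]
      · have h0 := g0.2 c
        rcases g1 with g1 | g1
        · have := g1.2 c
          rw [mv_ne _ h1] at this
          omega
        · have := g1.2 a
          rw [mv_same] at this
          omega

end Pool.Agent.HypLow
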