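import Pool.Agent.Lib.HypLow.CombA
import Pool.Agent.Lib.HypLow.CombB

/-! # Images of adjacent points (2.4, 2.5) -/

namespace Pool.Agent.HypLow

variable {n : ℕ} {K V : Type*} [Field K] [AddCommGroup V] [Module K V]

private theorem ClawZero_braid_apply {B : Set (Fin n → ℤ)} {s : (Fin n → ℤ) → Module.End K V}
    (hS : Sys B s) {v w : Fin n → ℤ} (hv : v ∈ B) (hw : w ∈ B) (hvw : Adj v w) (y : V) :
    s v (s w (s v y)) = s w (s v (s w y)) := by
  have h := congrArg (fun f : Module.End K V => f y) (hS.braid v hv w hw hvw)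
  simpa [Module.End.mul_apply] using h

private theorem ClawZero_far_apply {B : Set (Fin n → ℤ)} {s : (Fin n → ℤ) → Module.End K V}
    (hG : Good B s) {p v : Fin n → ℤ} (hp : p ∈ B) (hv : v ∈ B) (hpv : Far p v) {z : V}
    (h1 : z ∈ LinearMap.range (s v - 1)) : s p z = z := by
  obtain ⟨y, rfl⟩ := h1
  have h := congrArg (fun f : Module.End K V => f y) (hG.far p hp v hv hpv)
  simp only [Module.End.mul_apply, LinearMap.zero_apply] at h
  have h' : s p ((s v - 1) y) - (s v - 1) y = 0 := by
    simpa [LinearMap.sub_apply, Module.End.one_apply] using h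
  exact sub_eq_zero.mp h'

private theorem ClawZero_mem_self {s : Module.End K V} {z : V}
    (h1 : z ∈ LinearMap.range (s - 1)) : s z ∈ LinearMap.range (s - 1) := by
  obtain ⟨y, rfl⟩ := h1
  refine ⟨s y, ?_⟩
  simp [LinearMap.sub_apply, Module.End.one_apply, map_sub]

/-- (2.4) if `p ~ w`, `p` far from `v` and `z` lies in the images of `s v - 1` and `s w - 1` then
`s w (s v z) = s v z`. Proof: `q = s v z`; `s p q = q`; `s w q` is in the image of `s v - 1`
(as `s w * s v * s w = s v * s w * s v`), so `s p (s w q) = s w q`; braid relation for `p`, `w`. -/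
theorem fix_of_mem {B : Set (Fin n → ℤ)} {s : (Fin n → ℤ) → Module.End K V} (hG : Good B s)
    {v w p : Fin n → ℤ} (hv : v ∈ B) (hw : w ∈ B) (hp : p ∈ B) (hvw : Adj v w) (hpw : Adj p w)
    (hpv : Far p v) {z : V} (h1 : z ∈ LinearMap.range (s v - 1))
    (h2 : z ∈ LinearMap.range (s w - 1)) : s w (s v z) = s v z := by
  have hq : s p (s v z) = s v z :=
    ClawZero_far_apply hG hp hv hpv (ClawZero_mem_self h1)
  have hwq : s w (s v z) ∈ LinearMap.range (s v - 1) := by
    obtain ⟨y, rfl⟩ := h2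
    refine ⟨s w (s v y), ?_⟩
    have hb := ClawZero_braid_apply hG.sys hv hw hvw y
    simp only [LinearMap.sub_apply, Module.End.one_apply, map_sub]
    rw [hb]
  have hp2 : s p (s w (s v z)) = s w (s v z) := ClawZero_far_apply hG hp hv hpv hwq
  have hb := ClawZero_braid_apply hG.sys hp hw hpw (s v z)
  rw [hq, hp2] at hb
  exact hG.inj w hw hb.symm

/-- (2.4) if `z` is in the image of `s v - 1` and fixed by `s w` then `s v z` is in the image of
`s w - 1` (and of `s v - 1`): `s v z = s v (s w z)` and `s v * s w * s v = s w * s v * s w`. -/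
theorem mem_of_fix {B : Set (Fin n → ℤ)} {s : (Fin n → ℤ) → Module.End K V} (hG : Good B s)
    {v w : Fin n → ℤ} (hv : v ∈ B) (hw : w ∈ B) (hvw : Adj v w) {z : V}
    (h1 : z ∈ LinearMap.range (s v - 1)) (h2 : s w z = z) :
    s v z ∈ LinearMap.range (s w - 1) := by
  obtain ⟨y, rfl⟩ := h1
  refine ⟨s v (s w y), ?_⟩
  have hb := ClawZero_braid_apply hG.sys hv hw hvw y
  have h3 : s v ((s v - 1) y) = s v (s w ((s v - 1) y)) := by rw [h2]
  rw [h3]
  simp only [LinearMap.sub_apply, Module.End.one_apply, map_sub]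
  rw [hb]

/-- `I_v ∩ I_w` -/
private def ClawZeroX (s : (Fin n → ℤ) → Module.End K V) (v w : Fin n → ℤ) : Submodule K V :=
  LinearMap.range (s v - 1) ⊓ LinearMap.range (s w - 1)

/-- `I_v ∩ Ker (s_w - 1)` -/
private def ClawZeroZ (s : (Fin n → ℤ) → Module.End K V) (v w : Fin n → ℤ) : Submodule K V :=
  LinearMap.range (s v - 1) ⊓ LinearMap.ker (s w - 1)

private theorem ClawZero_mem_ker {f : Module.End K V} {z : V} :
    z ∈ LinearMap.ker (f - 1) ↔ f z = z := by
  rw [LinearMap.mem_ker, LinearMap.sub_apply, Module.End.one_apply, sub_eq_zero]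

private theorem ClawZero_finrank_le [FiniteDimensional K V] {P Q : Submodule K V}
    {f : Module.End K V} (hf : Function.Injective f) (h : ∀ z ∈ P, f z ∈ Q) :
    Module.finrank K P ≤ Module.finrank K Q := by
  have h1 : P.map f ≤ Q := by
    rintro _ ⟨z, hz, rfl⟩
    exact h z hz
  have h2 : Module.finrank K (P.map f) = Module.finrank K P :=
    (Submodule.equivMapOfInjective f hf P).finrank_eq.symm
  rw [← h2]
  exact Submodule.finrank_mono h1

/-- the images of a claw: everything is equal -/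
private theorem ClawZero_first [FiniteDimensional K V] {l u : Fin n → ℤ} (hs : ∀ c, l c + 2 ≤ u c)
    {a b : Fin n} (hab : a ≠ b) {s : (Fin n → ℤ) → Module.End K V} (hG : Good (Box l u) s) :
    ∃ v ∈ Box l u, ∃ w ∈ Box l u, Adj v w ∧ ClawZeroX s v w = ⊥ := by
  obtain ⟨v, hv, w1, hw1, w2, hw2, w3, hw3, p, hp, a1, a2, a3, f12, f13, f23, hpw, hpv, hall⟩ :=
    claw hs hab
  refine ⟨v, hv, w1, hw1, a1, ?_⟩
  -- inclusions `X_{v w} ≤ Z_{v w'}` for far `w`, `w'`
  have hXZ : ∀ w ∈ Box l u, ∀ w' ∈ Box l u, Far w' w → ClawZeroX s v w ≤ ClawZeroZ s v w' := by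
    intro w hw w' hw' hf z hz
    refine ⟨hz.1, ?_⟩
    exact ClawZero_mem_ker.mpr (ClawZero_far_apply hG hw' hw hf hz.2)
  -- dimensions
  have hd1 : Module.finrank K (ClawZeroX s v w1) ≤ Module.finrank K (ClawZeroZ s v w1) :=
    ClawZero_finrank_le (hG.inj v hv) fun z hz =>
      ⟨ClawZero_mem_self hz.1, ClawZero_mem_ker.mpr
        (fix_of_mem hG hv hw1 hp a1 hpw hpv hz.1 hz.2)⟩
  have hZX : ∀ w ∈ Box l u, Adj v w →
      Module.finrank K (ClawZeroZ s v w) ≤ Module.finrank K (ClawZeroX s v w) := by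
    intro w hw hvw
    exact ClawZero_finrank_le (hG.inj v hv) fun z hz =>
      ⟨ClawZero_mem_self hz.1, mem_of_fix hG hv hw hvw hz.1 (ClawZero_mem_ker.mp hz.2)⟩
  have e12 := hXZ w1 hw1 w2 hw2 f12.symm
  have e13 := hXZ w1 hw1 w3 hw3 f13.symm
  have e21 := hXZ w2 hw2 w1 hw1 f12
  have e31 := hXZ w3 hw3 w1 hw1 f13
  have e23 := hXZ w2 hw2 w3 hw3 f23.symm
  have e32 := hXZ w3 hw3 w2 hw2 f23
  have r12 := Submodule.finrank_mono e12
  have r13 := Submodule.finrank_mono e13
  have r21 := Submodule.finrank_mono e21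
  have r31 := Submodule.finrank_mono e31
  have z1 := hZX w1 hw1 a1
  have z2 := hZX w2 hw2 a2
  have z3 := hZX w3 hw3 a3
  have E12 : ClawZeroX s v w1 = ClawZeroZ s v w2 :=
    Submodule.eq_of_le_of_finrank_le e12 (by omega)
  have E13 : ClawZeroX s v w1 = ClawZeroZ s v w3 :=
    Submodule.eq_of_le_of_finrank_le e13 (by omega)
  have E21 : ClawZeroX s v w2 = ClawZeroZ s v w1 :=
    Submodule.eq_of_le_of_finrank_le e21 (by omega)
  have E31 : ClawZeroX s v w3 = ClawZeroZ s v w1 :=
    Submodule.eq_of_le_of_finrank_le e31 (by omega)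
  have E23 : ClawZeroX s v w2 = ClawZeroZ s v w3 := by
    refine Submodule.eq_of_le_of_finrank_le e23 ?_
    rw [← E13]; omega
  have E32 : ClawZeroX s v w3 = ClawZeroZ s v w2 := by
    refine Submodule.eq_of_le_of_finrank_le e32 ?_
    rw [← E12]; omega
  have X12 : ClawZeroX s v w1 = ClawZeroX s v w2 := by rw [E13, E23]
  have X13 : ClawZeroX s v w1 = ClawZeroX s v w3 := by rw [E12, E32]
  have XZ1 : ClawZeroX s v w1 = ClawZeroZ s v w1 := by rw [X12, E21]
  -- `Z` is stable
  have hfix : ∀ z ∈ Box l u, z ≠ v → ∀ y ∈ ClawZeroX s v w1, s z y = y := by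
    intro z hz hzv y hy
    rcases hall z hzv with h | h | h | h | h | h | h
    · subst h
      rw [XZ1] at hy
      exact ClawZero_mem_ker.mp hy.2
    · subst h
      rw [E12] at hy
      exact ClawZero_mem_ker.mp hy.2
    · subst h
      rw [E13] at hy
      exact ClawZero_mem_ker.mp hy.2
    · exact ClawZero_far_apply hG hz hv h hy.1
    · exact ClawZero_far_apply hG hz hw1 h hy.2
    · rw [X12] at hy
      exact ClawZero_far_apply hG hz hw2 h hy.2
    · rw [X13] at hy
      exact ClawZero_far_apply hG hz hw3 h hy.2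
  have hstab : ∀ x ∈ Box l u, ∀ y ∈ ClawZeroX s v w1, s x y ∈ ClawZeroX s v w1 := by
    intro x hx y hy
    by_cases hxv : x = v
    · subst hxv
      rw [XZ1]
      exact ⟨ClawZero_mem_self hy.1, ClawZero_mem_ker.mpr
        (fix_of_mem hG hx hw1 hp a1 hpw hpv hy.1 hy.2)⟩
    · rw [hfix x hx hxv y hy]
      exact hy
  rcases hG.irr _ hstab with h | h
  · exact h
  · exfalso
    have hone : ∀ z ∈ Box l u, z ≠ v → s z = 1 := by
      intro z hz hzv
      refine LinearMap.ext fun y => ?_
      have hy : y ∈ ClawZeroX s v w1 := by rw [h]; trivial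
      rw [hfix z hz hzv y hy]
      rfl
    have hv1 : s v = 1 := by
      have hw1v : w1 ≠ v := (Adj.ne a1).symm
      refine LinearMap.ext fun y => ?_
      have hb := ClawZero_braid_apply hG.sys hv hw1 a1 y
      rw [hone w1 hw1 hw1v] at hb
      simp only [Module.End.one_apply] at hb
      rw [hG.inj v hv hb]
      rfl
    obtain ⟨x, hx, y, hy, hxy⟩ := hG.nf
    apply hxy
    have hA : ∀ z ∈ Box l u, s z = 1 := by
      intro z hz
      by_cases hzv : z = v
      · rw [hzv]; exact hv1
      · exact hone z hz hzv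
    rw [hA x hx, hA y hy]

/-- (2.5) the images of `s v - 1` and `s w - 1` have intersection zero for adjacent `v`, `w` -/
theorem claw_zero [FiniteDimensional K V] {l u : Fin n → ℤ} (hs : ∀ c, l c + 2 ≤ u c)
    {a b : Fin n} (hab : a ≠ b) {s : (Fin n → ℤ) → Module.End K V} (hG : Good (Box l u) s) :
    ∀ v ∈ Box l u, ∀ w ∈ Box l u, Adj v w →
      LinearMap.range (s v - 1) ⊓ LinearMap.range (s w - 1) = ⊥ := by
  refine edge_induction hs
    (fun v w => LinearMap.range (s v - 1) ⊓ LinearMap.range (s w - 1) = ⊥) ?_ ?_ ?_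
  · intro v _ w _ _ h
    rw [inf_comm]
    exact h
  · intro v hv w hw z hz hvw hwz hvz h
    rw [Submodule.eq_bot_iff]
    rintro y ⟨⟨c, hc⟩, ⟨d, hd⟩⟩
    -- conjugation by `g = s v * s w * s z`
    have hinj : Function.Injective (s v * s w * s z : Module.End K V) := by
      intro x x' hx
      simp only [Module.End.mul_apply] at hx
      exact hG.inj z hz (hG.inj w hw (hG.inj v hv hx))
    have hsurj : Function.Surjective (s v * s w * s z : Module.End K V) :=
      LinearMap.injective_iff_surjective.mp hinj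
    have g1 : ∀ x, s v (s w (s z (s v x))) = s w (s v (s w (s z x))) := by
      intro x
      have hc' : s z (s v x) = s v (s z x) := by
        have := congrArg (fun f : Module.End K V => f x) (hG.sys.comm z hz v hv hvz.symm)
        simpa [Module.End.mul_apply] using this
      rw [hc', ClawZero_braid_apply hG.sys hv hw hvw]
    have g2 : ∀ x, s v (s w (s z (s w x))) = s z (s v (s w (s z x))) := by
      intro x
      have hc' : ∀ x', s v (s z x') = s z (s v x') := by
        intro x'
        have := congrArg (fun f : Module.End K V => f x') (hG.sys.comm v hv z hz hvz)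
        simpa [Module.End.mul_apply] using this
      rw [ClawZero_braid_apply hG.sys hw hz hwz, hc']
    obtain ⟨y', hy'⟩ := hsurj y
    obtain ⟨c', hc'⟩ := hsurj c
    obtain ⟨d', hd'⟩ := hsurj d
    have m1 : y' ∈ LinearMap.range (s v - 1) := by
      refine ⟨c', hinj ?_⟩
      rw [hy', ← hc, ← hc']
      simp only [Module.End.mul_apply, LinearMap.sub_apply, Module.End.one_apply, map_sub]
      rw [g1]
    have m2 : y' ∈ LinearMap.range (s w - 1) := by
      refine ⟨d', hinj ?_⟩
      rw [hy', ← hd, ← hd']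
      simp only [Module.End.mul_apply, LinearMap.sub_apply, Module.End.one_apply, map_sub]
      rw [g2]
    have h0 : y' ∈ (⊥ : Submodule K V) := by
      rw [← h]
      exact ⟨m1, m2⟩
    rw [Submodule.mem_bot] at h0
    rw [← hy', h0, map_zero]
  · obtain ⟨v, hv, w, hw, hvw, h⟩ := ClawZero_first hs hab hG
    exact ⟨v, hv, w, hw, hvw, h⟩

end Pool.Agent.HypLow
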