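import Pool.Agent.Lib.HypLow.Defs

/-! # Combinatorics of boxes -/

namespace Pool.Agent.HypLow

variable {n : ℕ}

theorem far_of_two {x y : Fin n → ℤ} (c : Fin n) (h : x c + 2 ≤ y c ∨ y c + 2 ≤ x c) :
    Far x y := by
  refine ⟨?_, ?_⟩
  · rintro rfl
    omega
  · rintro (h' | h')
    · have := h'.2 c
      omega
    · have := h'.2 c
      omega

theorem far_of_mixed {x y : Fin n → ℤ} (a b : Fin n) (ha : x a < y a) (hb : y b < x b) :
    Far x y := by
  refine ⟨?_, ?_⟩
  · rintro rfl
    omega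
  · rintro (h' | h')
    · have := h'.2 b
      omega
    · have := h'.2 a
      omega

/-- The point `x` moved by `t` in direction `c`. -/
def mv (x : Fin n → ℤ) (c : Fin n) (t : ℤ) : Fin n → ℤ := fun k => x k + if k = c then t else 0

theorem mv_same (x : Fin n → ℤ) (c : Fin n) (t : ℤ) : mv x c t c = x c + t := by simp [mv]

theorem mv_ne (x : Fin n → ℤ) {c k : Fin n} (h : k ≠ c) (t : ℤ) : mv x c t k = x k := by
  simp [mv, h]

theorem mv_mv (x : Fin n → ℤ) (c : Fin n) (s t : ℤ) : mv (mv x c s) c t = mv x c (s + t) := by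
  funext k
  by_cases h : k = c
  · subst h
    simp [mv]
    ring
  · simp [mv, h]

theorem mv_comm (x : Fin n → ℤ) (c d : Fin n) (s t : ℤ) :
    mv (mv x c s) d t = mv (mv x d t) c s := by
  funext k
  simp only [mv]
  ring

theorem mv_zero (x : Fin n → ℤ) (c : Fin n) : mv x c 0 = x := by
  funext k
  simp [mv]

theorem lower_mv (x : Fin n → ℤ) (c : Fin n) : Lt x (mv x c 1) := by
  refine ⟨fun h => ?_, fun k => ?_⟩
  · have := congrFun h c
    rw [mv_same] at this
    omega
  · by_cases h : k = c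
    · subst h
      rw [mv_same]
      omega
    · rw [mv_ne x h]
      omega

theorem adj_mv (x : Fin n → ℤ) (c : Fin n) : Adj x (mv x c 1) := Or.inl (lower_mv x c)

theorem adj_mv' (x : Fin n → ℤ) (c : Fin n) : Adj x (mv x c (-1)) := by
  right
  have h := lower_mv (mv x c (-1)) c
  rwa [mv_mv, neg_add_cancel, mv_zero] at h

theorem mem_mv {l u x : Fin n → ℤ} (hx : x ∈ Box l u) {c : Fin n} {t : ℤ}
    (h1 : l c ≤ x c + t) (h2 : x c + t ≤ u c) : mv x c t ∈ Box l u := by
  intro k
  by_cases h : k = c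
  · subst h
    rw [mv_same]
    exact ⟨h1, h2⟩
  · rw [mv_ne x h]
    exact hx k

theorem mv_mem {l u x : Fin n → ℤ} {c : Fin n} {t : ℤ} (h : mv x c t ∈ Box l u) :
    l c ≤ x c + t ∧ x c + t ≤ u c := by
  have := h c
  rwa [mv_same] at this

/-! ### Ordered edges -/

/-- Properties of ordered edges of a box stable under the two moves. -/
structure EdgeStable (l u : Fin n → ℤ) (P : (Fin n → ℤ) → (Fin n → ℤ) → Prop) : Prop where
  swap : ∀ v ∈ Box l u, ∀ w ∈ Box l u, Adj v w → P v w → P w v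
  move : ∀ v ∈ Box l u, ∀ w ∈ Box l u, ∀ z ∈ Box l u, Adj v w → Adj w z → Far v z →
    P v w → P w z

section Edge

variable {l u : Fin n → ℤ} {P : (Fin n → ℤ) → (Fin n → ℤ) → Prop}

theorem EdgeStable.swap_iff (h : EdgeStable l u P) {v w : Fin n → ℤ} (hv : v ∈ Box l u)
    (hw : w ∈ Box l u) (ha : Adj v w) : P v w ↔ P w v :=
  ⟨h.swap v hv w hw ha, h.swap w hw v hv ha.symm⟩

theorem EdgeStable.move_iff (h : EdgeStable l u P) {v w z : Fin n → ℤ} (hv : v ∈ Box l u)
    (hw : w ∈ Box l u) (hz : z ∈ Box l u) (h1 : Adj v w) (h2 : Adj w z) (h3 : Far v z) :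
    P v w ↔ P w z := by
  refine ⟨h.move v hv w hw z hz h1 h2 h3, fun hp => ?_⟩
  exact h.swap w hw v hv h1.symm (h.move z hz w hw v hv h2.symm h1.symm h3.symm
    (h.swap w hw z hz h2 hp))

/-- Edges on a line. -/
theorem EdgeStable.line (h : EdgeStable l u P) {x : Fin n → ℤ} {c : Fin n} (hx : x ∈ Box l u)
    (hx2 : mv x c 2 ∈ Box l u) : P x (mv x c 1) ↔ P (mv x c 1) (mv x c 2) := by
  have h0 := hx c
  have h2 := mv_mem hx2
  have hx1 : mv x c 1 ∈ Box l u := mem_mv hx (by omega) (by omega)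
  refine h.move_iff hx hx1 hx2 (adj_mv x c) ?_ (far_of_two c ?_)
  · have := adj_mv (mv x c 1) c
    rwa [mv_mv] at this
  · rw [mv_same]
    omega

/-- Two edges upwards from a vertex. -/
theorem EdgeStable.up (h : EdgeStable l u P) {x : Fin n → ℤ} {c d : Fin n} (hcd : c ≠ d)
    (hx : x ∈ Box l u) (hc : mv x c 1 ∈ Box l u) (hd : mv x d 1 ∈ Box l u) :
    P x (mv x c 1) ↔ P x (mv x d 1) := by
  rw [h.swap_iff hx hc (adj_mv x c)]
  refine h.move_iff hc hx hd (adj_mv x c).symm (adj_mv x d) (far_of_mixed d c ?_ ?_)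
  · rw [mv_same, mv_ne x hcd.symm]
    omega
  · rw [mv_same, mv_ne x hcd]
    omega

/-- Two edges downwards from a vertex. -/
theorem EdgeStable.down (h : EdgeStable l u P) {x : Fin n → ℤ} {c d : Fin n} (hcd : c ≠ d)
    (hx : x ∈ Box l u) (hc : mv x c (-1) ∈ Box l u) (hd : mv x d (-1) ∈ Box l u) :
    P (mv x c (-1)) x ↔ P (mv x d (-1)) x := by
  rw [← h.swap_iff hx hd (adj_mv' x d)]
  refine h.move_iff hc hx hd (adj_mv' x c).symm (adj_mv' x d) (far_of_mixed c d ?_ ?_)
  · rw [mv_same, mv_ne x hcd]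
    omega
  · rw [mv_same, mv_ne x hcd.symm]
    omega

/-- Translation of an edge of direction `c` in direction `d`. -/
theorem EdgeStable.trans (h : EdgeStable l u P) {x : Fin n → ℤ} {c d : Fin n} (hcd : c ≠ d)
    (hs : l d + 2 ≤ u d) (hx : x ∈ Box l u) (hc : mv x c 1 ∈ Box l u) (hd : mv x d 1 ∈ Box l u) :
    P x (mv x c 1) ↔ P (mv x d 1) (mv (mv x d 1) c 1) := by
  have c1 := mv_mem hc
  have d1 := mv_mem hd
  have d0 := hx d
  have hdc : mv (mv x d 1) c 1 ∈ Box l u := mem_mv hd (by rw [mv_ne x hcd]; omega)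
    (by rw [mv_ne x hcd]; omega)
  by_cases h2 : x d + 2 ≤ u d
  · have hd2 : mv x d 2 ∈ Box l u := mem_mv hx (by omega) h2
    rw [h.up hcd hx hc hd, h.line hx hd2]
    have hd2' : mv (mv x d 1) d 1 ∈ Box l u := by rwa [mv_mv]
    have := h.up hcd hd hdc hd2'
    rw [this, mv_mv]
    norm_num
  · have hlow : l d ≤ x d - 1 := by omega
    -- the vertex `x + e_c`
    have e1 : mv (mv x c 1) c (-1) = x := by rw [mv_mv]; norm_num [mv_zero]
    have hz1 : mv (mv x c 1) c (-1) ∈ Box l u := by rwa [e1]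
    have hz2 : mv (mv x c 1) d (-1) ∈ Box l u := mem_mv hc (by rw [mv_ne x hcd.symm]; omega)
      (by rw [mv_ne x hcd.symm]; omega)
    have s1 := h.down hcd hc hz1 hz2
    rw [e1] at s1
    rw [s1]
    -- the line through `x + e_c` in direction `d`
    have hz3 : mv (mv (mv x c 1) d (-1)) d 2 ∈ Box l u := by
      rw [mv_mv, show (-1 : ℤ) + 2 = 1 by norm_num, mv_comm]
      exact hdc
    have s2 := h.line hz2 hz3
    rw [mv_mv, mv_mv, show (-1 : ℤ) + 1 = 0 by norm_num, show (-1 : ℤ) + 2 = 1 by norm_num,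
      mv_zero, mv_comm x c d 1 1] at s2
    rw [s2]
    -- the vertex `x + e_c + e_d`
    have e3 : mv (mv (mv x d 1) c 1) c (-1) = mv x d 1 := by rw [mv_mv]; norm_num [mv_zero]
    have e4 : mv (mv (mv x d 1) c 1) d (-1) = mv x c 1 := by
      rw [mv_comm x d c 1 1, mv_mv]; norm_num [mv_zero]
    have s3 := h.down hcd hdc (by rwa [e3]) (by rwa [e4])
    rw [e3, e4] at s3
    exact s3.symm

theorem mem_low (l u : Fin n → ℤ) (hs : ∀ c, l c + 2 ≤ u c) : l ∈ Box l u := by
  intro c
  have := hs c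
  omega

/-- Every edge of direction `c` is connected to the one at the lowest corner. -/
theorem EdgeStable.to_low (h : EdgeStable l u P) (hs : ∀ c, l c + 2 ≤ u c) (c : Fin n) :
    ∀ (m : ℕ) (x : Fin n → ℤ), x ∈ Box l u → mv x c 1 ∈ Box l u →
      (∑ k, (x k - l k)).toNat = m → (P x (mv x c 1) ↔ P l (mv l c 1)) := by
  intro m
  induction m with
  | zero =>
    intro x hx hc hm
    have : x = l := by
      have h0 : ∑ k, (x k - l k) ≤ 0 := Int.toNat_eq_zero.1 hm
      have h1 : ∀ k ∈ Finset.univ, 0 ≤ x k - l k := fun k _ => by have := hx k; omega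
      have h2 := (Finset.sum_eq_zero_iff_of_nonneg h1).1
        (le_antisymm h0 (Finset.sum_nonneg h1))
      funext k
      have := h2 k (Finset.mem_univ k)
      omega
    rw [this]
  | succ m ih =>
    intro x hx hc hm
    have hpos : 0 < ∑ k, (x k - l k) := by omega
    obtain ⟨k, hk⟩ : ∃ k, l k < x k := by
      by_contra hcon
      simp only [not_exists, not_lt] at hcon
      have : ∑ k, (x k - l k) ≤ 0 := Finset.sum_nonpos (fun k _ => by have := hcon k; omega)
      omega
    have hk' := hx k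
    have hy : mv x k (-1) ∈ Box l u := mem_mv hx (by omega) (by omega)
    have hsum : ∑ j, (mv x k (-1) j - l j) = ∑ j, (x j - l j) - 1 := by
      have : ∀ j, mv x k (-1) j - l j = (x j - l j) + if j = k then (-1 : ℤ) else 0 := by
        intro j
        simp only [mv]
        ring
      rw [Finset.sum_congr rfl (fun j _ => this j), Finset.sum_add_distrib]
      simp
      ring
    have hm' : (∑ j, (mv x k (-1) j - l j)).toNat = m := by
      rw [hsum]
      omega
    have e1 : mv (mv x k (-1)) k 1 = x := by rw [mv_mv]; norm_num [mv_zero]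
    have hyc : mv (mv x k (-1)) c 1 ∈ Box l u := by
      rw [mv_comm]
      refine mem_mv hc ?_ ?_
      · by_cases hkc : k = c
        · subst hkc
          rw [mv_same]
          omega
        · rw [mv_ne x hkc]
          omega
      · by_cases hkc : k = c
        · subst hkc
          rw [mv_same]
          omega
        · rw [mv_ne x hkc]
          omega
    have key := ih _ hy hyc hm'
    rw [← key]
    by_cases hkc : k = c
    · subst hkc
      have hx2 : mv (mv x k (-1)) k 2 ∈ Box l u := by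
        rw [mv_mv]
        exact hc
      have := h.line hy hx2
      rw [mv_mv, mv_mv, show (-1 : ℤ) + 1 = 0 by norm_num, show (-1 : ℤ) + 2 = 1 by norm_num,
        mv_zero] at this
      rw [mv_mv, show (-1 : ℤ) + 1 = 0 by norm_num, mv_zero]
      exact this.symm
    · have := h.trans (Ne.symm hkc) (hs k) hy hyc (by rwa [e1])
      rw [e1] at this
      exact this.symm

/-- **(a)** Any two ordered edges are connected by moves. -/
theorem EdgeStable.all (h : EdgeStable l u P) (hs : ∀ c, l c + 2 ≤ u c) {v w v' w' : Fin n → ℤ}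
    (hv : v ∈ Box l u) (hw : w ∈ Box l u) (ha : Adj v w) (hv' : v' ∈ Box l u)
    (hw' : w' ∈ Box l u) (ha' : Adj v' w') (hP : P v w) : P v' w' := by
  have up1 : ∀ c, mv l c 1 ∈ Box l u := fun c =>
    mem_mv (mem_low l u hs) (by omega) (by have := hs c; omega)
  have low : ∀ c d, P l (mv l c 1) ↔ P l (mv l d 1) := by
    intro c d
    by_cases hcd : c = d
    · rw [hcd]
    · exact h.up hcd (mem_low l u hs) (up1 c) (up1 d)
  -- an edge `v < w` is connected to an edge of direction `c`
  have red : ∀ v w : Fin n → ℤ, v ∈ Box l u → w ∈ Box l u → Lt v w →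
      ∃ c, (P v w ↔ P l (mv l c 1)) := by
    intro v w hv hw hlt
    obtain ⟨c, hc⟩ : ∃ c, v c ≠ w c := Function.ne_iff.1 hlt.1
    have h1 := hlt.2 c
    have hvc := hv c
    have hwc := hw c
    have hsc := hs c
    refine ⟨c, ?_⟩
    by_cases hcu : w c < u c
    · have hz : mv w c 1 ∈ Box l u := mem_mv hw (by omega) (by omega)
      rw [h.move_iff hv hw hz (Or.inl hlt) (adj_mv w c) (far_of_two c (by rw [mv_same]; omega))]
      exact h.to_low hs c _ w hw hz rfl
    · have hz : mv v c (-1) ∈ Box l u := mem_mv hv (by omega) (by omega)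
      rw [h.swap_iff hv hw (Or.inl hlt), h.move_iff hw hv hz (Or.inr hlt) (adj_mv' v c)
        (far_of_two c (by rw [mv_same]; omega)), h.swap_iff hv hz (adj_mv' v c)]
      have e1 : mv (mv v c (-1)) c 1 = v := by rw [mv_mv]; norm_num [mv_zero]
      have := h.to_low hs c _ (mv v c (-1)) hz (by rwa [e1]) rfl
      rwa [e1] at this
  have red' : ∀ v w : Fin n → ℤ, v ∈ Box l u → w ∈ Box l u → Adj v w →
      ∃ c, (P v w ↔ P l (mv l c 1)) := by
    intro v w hv hw hvw
    rcases hvw with h1 | h1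
    · exact red v w hv hw h1
    · obtain ⟨c, hc⟩ := red w v hw hv h1
      exact ⟨c, (h.swap_iff hv hw (Or.inr h1)).trans hc⟩
  obtain ⟨c, hc⟩ := red' v w hv hw ha
  obtain ⟨d, hd⟩ := red' v' w' hv' hw' ha'
  exact hd.2 ((low c d).1 (hc.1 hP))

end Edge

/-! ### The statements used later -/

/-- a step down towards the lowest corner, avoiding a set of directions -/
theorem box_down {l u : Fin n → ℤ} (Q : (Fin n → ℤ) → Prop) (S : Fin n → Prop)
    (h : ∀ x ∈ Box l u, ∀ k, ¬ S k → mv x k 1 ∈ Box l u → (Q x ↔ Q (mv x k 1))) :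
    ∀ (m : ℕ) (x : Fin n → ℤ), x ∈ Box l u → (∑ k, (x k - l k)).toNat = m →
      ∃ y ∈ Box l u, (∀ k, S k → y k = x k) ∧ (∀ k, ¬ S k → y k = l k) ∧ (Q x ↔ Q y) := by
  intro m
  induction m with
  | zero =>
    intro x hx hm
    refine ⟨x, hx, fun _ _ => rfl, fun k _ => ?_, Iff.rfl⟩
    have h0 : ∑ k, (x k - l k) ≤ 0 := Int.toNat_eq_zero.1 hm
    have h1 : ∀ k ∈ Finset.univ, 0 ≤ x k - l k := fun k _ => by have := hx k; omega
    have h2 := (Finset.sum_eq_zero_iff_of_nonneg h1).1 (le_antisymm h0 (Finset.sum_nonneg h1))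
    have := h2 k (Finset.mem_univ k)
    omega
  | succ m ih =>
    intro x hx hm
    by_cases hex : ∃ k, ¬ S k ∧ l k < x k
    · obtain ⟨k, hkS, hk⟩ := hex
      have hk' := hx k
      have hy : mv x k (-1) ∈ Box l u := mem_mv hx (by omega) (by omega)
      have hsum : ∑ j, (mv x k (-1) j - l j) = ∑ j, (x j - l j) - 1 := by
        have : ∀ j, mv x k (-1) j - l j = (x j - l j) + if j = k then (-1 : ℤ) else 0 := by
          intro j
          simp only [mv]
          ring
        rw [Finset.sum_congr rfl (fun j _ => this j), Finset.sum_add_distrib]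
        simp
        ring
      have hm' : (∑ j, (mv x k (-1) j - l j)).toNat = m := by
        rw [hsum]
        omega
      have e1 : mv (mv x k (-1)) k 1 = x := by rw [mv_mv]; norm_num [mv_zero]
      obtain ⟨y, hyB, h1, h2, h3⟩ := ih _ hy hm'
      refine ⟨y, hyB, fun j hj => ?_, h2, ?_⟩
      · have hjk : j ≠ k := by
          rintro rfl
          exact hkS hj
        rw [h1 j hj, mv_ne x hjk]
      · have := h _ hy k hkS (by rwa [e1])
        rw [e1] at this
        exact this.symm.trans h3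
    · refine ⟨x, hx, fun _ _ => rfl, fun k hk => ?_, Iff.rfl⟩
      have := hx k
      by_contra hne
      exact hex ⟨k, hk, by omega⟩

/-- a function which is constant along edges is constant on a box -/
theorem box_connected {α : Type*} {l u : Fin n → ℤ} (f : (Fin n → ℤ) → α)
    (h : ∀ x ∈ Box l u, ∀ y ∈ Box l u, Adj x y → f x = f y) :
    ∀ x ∈ Box l u, ∀ y ∈ Box l u, f x = f y := by
  have key : ∀ x ∈ Box l u, ∀ z, f x = z → f l = z := by
    intro x hx z hz
    obtain ⟨y, _, _, h2, h3⟩ := box_down (l := l) (u := u) (fun x => f x = z) (fun _ => False)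
      (fun x hx k _ hk => by rw [h x hx _ hk (adj_mv x k)]) _ x hx rfl
    have : y = l := funext fun k => h2 k not_false
    rw [this] at h3
    exact h3.1 hz
  intro x hx y hy
  rw [← key x hx _ rfl, ← key y hy _ rfl]

/-- (5d') two adjacent points of a box with a side `≥ 5` have a common far point -/
theorem far_vertex {l u : Fin n → ℤ} (a : Fin n) (ha : l a + 4 ≤ u a) {x y : Fin n → ℤ}
    (hx : x ∈ Box l u) (hy : y ∈ Box l u) (h : Adj x y) :
    ∃ z ∈ Box l u, Far x z ∧ Far y z := by
  have hd : x a ≤ y a + 1 ∧ y a ≤ x a + 1 := by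
    rcases h with h | h
    · have := h.2 a
      omega
    · have := h.2 a
      omega
  have hxa := hx a
  have hya := hy a
  by_cases hM : max (x a) (y a) + 2 ≤ u a
  · refine ⟨mv x a (max (x a) (y a) + 2 - x a), mem_mv hx (by omega) (by omega),
      far_of_two a ?_, far_of_two a ?_⟩
    · rw [mv_same]
      omega
    · rw [mv_same]
      omega
  · refine ⟨mv x a (min (x a) (y a) - 2 - x a), mem_mv hx (by omega) (by omega),
      far_of_two a ?_, far_of_two a ?_⟩
    · rw [mv_same]
      omega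
    · rw [mv_same]
      omega

/-- (5a) all edges of a box with sides `≥ 3` are connected by moves -/
theorem edge_induction {l u : Fin n → ℤ} (hs : ∀ c, l c + 2 ≤ u c)
    (R : (Fin n → ℤ) → (Fin n → ℤ) → Prop)
    (h1 : ∀ v ∈ Box l u, ∀ w ∈ Box l u, Adj v w → R v w → R w v)
    (h2 : ∀ v ∈ Box l u, ∀ w ∈ Box l u, ∀ z ∈ Box l u, Adj v w → Adj w z → Far v z →
      R v w → R w z)
    (h3 : ∃ v ∈ Box l u, ∃ w ∈ Box l u, Adj v w ∧ R v w) :
    ∀ v ∈ Box l u, ∀ w ∈ Box l u, Adj v w → R v w := by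
  obtain ⟨v, hv, w, hw, ha, hR⟩ := h3
  intro v' hv' w' hw' ha'
  exact EdgeStable.all ⟨h1, h2⟩ hs hv hw ha hv' hw' ha' hR


end Pool.Agent.HypLow
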