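import Pool.Agent.Lib.HypLow.RecB

/-! # The cube -/

namespace Pool.Agent.HypLow

universe v

variable {n : ℕ} {K : Type*} {V : Type v} [Field K] [IsAlgClosed K] [AddCommGroup V] [Module K V]
  [FiniteDimensional K V]

theorem two_pow_aux (m : ℕ) (hm : 9 ≤ m) : (2 * m + 1) * (2 * m + 3) ≤ 2 ^ m := by
  induction m, hm using Nat.le_induction with
  | base => norm_num
  | succ m hm ih =>
    have h : (2 * (m + 1) + 1) * (2 * (m + 1) + 3) ≤ 2 * ((2 * m + 1) * (2 * m + 3)) := by
      nlinarith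
    calc (2 * (m + 1) + 1) * (2 * (m + 1) + 3) ≤ 2 * ((2 * m + 1) * (2 * m + 3)) := h
      _ ≤ 2 * 2 ^ m := Nat.mul_le_mul_left 2 ih
      _ = 2 ^ (m + 1) := by rw [pow_succ]; ring

theorem pow_aux {N : ℕ} (hN : 20 ≤ N) {k : ℕ} :
    (N - 2) * N ^ (k + 1) ≤ 2 ^ ((k + 1) * (N / 2 - 1)) := by
  have h1 : (N - 2) * N ≤ 2 ^ (N / 2 - 1) := by
    refine le_trans ?_ (two_pow_aux (N / 2 - 1) (by omega))
    refine Nat.mul_le_mul ?_ ?_ <;> omega
  have h2 : (N - 2) * N ^ (k + 1) ≤ ((N - 2) * N) ^ (k + 1) := by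
    rw [mul_pow]
    refine Nat.mul_le_mul_right _ ?_
    calc N - 2 = (N - 2) ^ 1 := (pow_one _).symm
      _ ≤ (N - 2) ^ (k + 1) := Nat.pow_le_pow_right (by omega) (by omega)
  refine h2.trans ?_
  rw [mul_comm (k + 1) (N / 2 - 1), pow_mul]
  exact Nat.pow_le_pow_left h1 _

theorem cube_sum {n N : ℕ} (hN : 20 ≤ N) (a c : Fin n) :
    (n - 1) * (N / 2 - 1) - 1 ≤ ∑ c' ∈ Finset.univ.erase c,
      (Function.update (fun _ : Fin n => N) a (N - 2) c' / 2 - 1) := by
  have hcard : (Finset.univ.erase c : Finset (Fin n)).card = n - 1 := by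
    rw [Finset.card_erase_of_mem (Finset.mem_univ c), Finset.card_univ, Fintype.card_fin]
  have hone : ∑ c' ∈ Finset.univ.erase c, (if c' = a then 1 else 0) ≤ 1 := by
    rw [Finset.sum_ite_eq']
    split_ifs <;> simp
  have hsum : ∑ c' ∈ Finset.univ.erase c,
      (Function.update (fun _ : Fin n => N) a (N - 2) c' / 2 - 1) +
      ∑ c' ∈ Finset.univ.erase c, (if c' = a then 1 else 0) = (n - 1) * (N / 2 - 1) := by
    rw [← Finset.sum_add_distrib]
    rw [Finset.sum_congr rfl (g := fun _ => N / 2 - 1)]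
    · rw [Finset.sum_const, hcard, smul_eq_mul]
    · intro c' _
      by_cases h : c' = a
      · subst h
        rw [Function.update_self, if_pos rfl]
        omega
      · rw [Function.update_of_ne h, if_neg h]
        omega
  omega

theorem cube_prod {n N : ℕ} (a : Fin n) :
    ∏ c, Function.update (fun _ : Fin n => N) a (N - 2) c = (N - 2) * N ^ (n - 1) := by
  rw [Finset.prod_update_of_mem (Finset.mem_univ a), Finset.prod_const]
  congr 2
  rw [Finset.card_sdiff_of_subset (Finset.subset_univ _), Finset.card_univ, Fintype.card_fin,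
    Finset.card_singleton]

theorem cube_nab (hn : 2 ≤ n) {N : ℕ} (hN : 20 ≤ N) (a : Fin n) :
    NabS.{v} K (Function.update (fun _ : Fin n => N) a (N - 2)) ((N - 2) * N ^ (n - 1)) := by
  have h := nabS_pow.{v} (n := n) (K := K) ((n - 1) * (N / 2 - 1) - 1)
    (Function.update (fun _ : Fin n => N) a (N - 2)) (fun c => by
      by_cases h : c = a
      · subst h; rw [Function.update_self]; omega
      · rw [Function.update_of_ne h]; omega) (fun c => cube_sum hN a c)
  have h1 : (n - 1) * (N / 2 - 1) - 1 + 1 = (n - 1) * (N / 2 - 1) := by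
    have h2 : 1 * 1 ≤ (n - 1) * (N / 2 - 1) := Nat.mul_le_mul (by omega) (by omega)
    omega
  rw [h1, cube_prod a] at h
  have h3 : (N - 2) * N ^ (n - 1) ≤ 2 ^ ((n - 1) * (N / 2 - 1)) := by
    obtain ⟨k, rfl⟩ : ∃ k, n = k + 2 := ⟨n - 2, by omega⟩
    exact pow_aux hN
  rwa [min_eq_right h3] at h

/-- the theorem for the cube `[0, N]^n`, `N = D - 1 = d - 2 ≥ 20` -/
theorem cube (hn : 2 ≤ n) {N : ℕ} (hN : 20 ≤ N)
    {t : (Fin n → ℤ) → Module.End K V}
    (hinj : ∀ x ∈ Box (n := n) (fun _ => 0) (fun _ => (N : ℤ)), Function.Injective (t x))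
    (hS : Sys (Box (fun _ => 0) (fun _ => (N : ℤ))) t)
    (hirr : ∀ W : Submodule K V, (∀ x ∈ Box (n := n) (fun _ => 0) (fun _ => (N : ℤ)),
      ∀ w ∈ W, t x w ∈ W) → W = ⊥ ∨ W = ⊤)
    (hr : Module.finrank K V < 2 * ((N - 2) * N ^ (n - 1))) :
    (∀ x ∈ Box (n := n) (fun _ => 0) (fun _ => (N : ℤ)),
      ∀ y ∈ Box (n := n) (fun _ => 0) (fun _ => (N : ℤ)), t x = t y) ∨
    ∃ μ : K, μ ≠ 0 ∧ ∃ (q : K) (e : (Fin n → ℤ) → V),
      Pham (Box (fun _ => 0) (fun _ => (N : ℤ))) (fun x => μ⁻¹ • t x - 1) q e := by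
  by_cases hnf : ∃ x ∈ Box (n := n) (fun _ => 0) (fun _ => (N : ℤ)),
      ∃ y ∈ Box (n := n) (fun _ => 0) (fun _ => (N : ℤ)), t x ≠ t y
  · right
    obtain ⟨a, b, hab⟩ : ∃ a b : Fin n, a ≠ b :=
      ⟨⟨0, by omega⟩, ⟨1, by omega⟩, fun h => absurd (congrArg Fin.val h) (by norm_num)⟩
    refine irreducible_pham (a := a) (b := b) (k := (N - 2) * N ^ (n - 1)) ?_ hab ?_ ?_ ?_ ?_ ?_
      hinj hS hirr hnf hr
    · intro c; show (0 : ℤ) + 2 ≤ N; omega
    · show (0 : ℤ) + 4 ≤ N; omega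
    · show (0 : ℤ) + 4 ≤ N; omega
    · refine cube_nab hn hN a _ _ fun c => ?_
      by_cases h : c = a
      · subst h; rw [Function.update_self, Function.update_self]; omega
      · rw [Function.update_of_ne h, Function.update_of_ne h]; omega
    · refine cube_nab hn hN a _ _ fun c => ?_
      by_cases h : c = a
      · subst h; rw [Function.update_self, Function.update_self]; omega
      · rw [Function.update_of_ne h, Function.update_of_ne h]; omega
    · refine cube_nab hn hN b _ _ fun c => ?_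
      by_cases h : c = b
      · subst h; rw [Function.update_self, Function.update_self]; omega
      · rw [Function.update_of_ne h, Function.update_of_ne h]; omega
  · left
    intro x hx y hy
    by_contra hne
    exact hnf ⟨x, hx, y, hy, hne⟩

end Pool.Agent.HypLow
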