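import Mathlib

/-!
# Loenne's relations on a box

Points of `ℤ^n`; `Lt x y`: `y - x` is a nonzero vector with coordinates `0` and `1`.
-/

namespace Pool.Agent.HypLow

universe v

variable {n : ℕ}

/-- `y - x` is a nonzero vector with coordinates in `{0, 1}`. -/
def Lt (x y : Fin n → ℤ) : Prop := x ≠ y ∧ ∀ c, x c ≤ y c ∧ y c ≤ x c + 1

/-- adjacent points -/
def Adj (x y : Fin n → ℤ) : Prop := Lt x y ∨ Lt y x

/-- different and not adjacent -/
def Far (x y : Fin n → ℤ) : Prop := x ≠ y ∧ ¬ Adj x y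

/-- the box with corners `l` and `u` (both included) -/
def Box (l u : Fin n → ℤ) : Set (Fin n → ℤ) := {x | ∀ c, l c ≤ x c ∧ x c ≤ u c}

/-- Loenne's relations between the `t x`, `x ∈ B`. -/
structure Sys {M : Type*} [Monoid M] (B : Set (Fin n → ℤ)) (t : (Fin n → ℤ) → M) : Prop where
  comm : ∀ x ∈ B, ∀ y ∈ B, Far x y → t x * t y = t y * t x
  braid : ∀ x ∈ B, ∀ y ∈ B, Adj x y → t x * t y * t x = t y * t x * t y
  tri : ∀ x ∈ B, ∀ y ∈ B, ∀ z ∈ B, Lt x y → Lt y z → Lt x z →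
    t x * t y * t z * t x = t y * t z * t x * t y

/-- every system of dimension `< k` on the box is flat -/
def Nab (K : Type*) [Field K] (l u : Fin n → ℤ) (k : ℕ) : Prop :=
  ∀ (V : Type v) [AddCommGroup V] [Module K V] [FiniteDimensional K V]
    (t : (Fin n → ℤ) → Module.End K V), (∀ x ∈ Box l u, Function.Injective (t x)) →
    Sys (Box l u) t → Module.finrank K V < k → ∀ x ∈ Box l u, ∀ y ∈ Box l u, t x = t y

/-- the state reached after scaling: `s x = 1 + A x`, with `A x * A y = 0` for far points,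
irreducible, not flat -/
structure Good {K V : Type*} [Field K] [AddCommGroup V] [Module K V] (B : Set (Fin n → ℤ))
    (s : (Fin n → ℤ) → Module.End K V) : Prop where
  sys : Sys B s
  inj : ∀ x ∈ B, Function.Injective (s x)
  irr : ∀ W : Submodule K V, (∀ x ∈ B, ∀ w ∈ W, s x w ∈ W) → W = ⊥ ∨ W = ⊤
  nf : ∃ x ∈ B, ∃ y ∈ B, s x ≠ s y
  far : ∀ x ∈ B, ∀ y ∈ B, Far x y → (s x - 1) * (s y - 1) = 0

/-- explicit form of a family of operators `A x` on a box: the `q`-Picard-Lefschetz formula -/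
structure Pham {K V : Type*} [Field K] [AddCommGroup V] [Module K V] (B : Set (Fin n → ℤ)) (A : (Fin n → ℤ) → Module.End K V) (q : K)
    (e : (Fin n → ℤ) → V) : Prop where
  q0 : q ≠ 0
  ne : ∀ x ∈ B, e x ≠ 0
  span : Submodule.span K (e '' B) = ⊤
  self : ∀ x ∈ B, A x (e x) = -((1 + q) • e x)
  up : ∀ x ∈ B, ∀ y ∈ B, Lt x y → A x (e y) = - e x
  down : ∀ x ∈ B, ∀ y ∈ B, Lt x y → A y (e x) = -(q • e y)
  far : ∀ x ∈ B, ∀ y ∈ B, Far x y → A x (e y) = 0

theorem Adj.symm {x y : Fin n → ℤ} (h : Adj x y) : Adj y x := Or.symm h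

theorem Far.symm {x y : Fin n → ℤ} (h : Far x y) : Far y x :=
  ⟨h.1.symm, fun h' => h.2 h'.symm⟩

theorem Adj.ne {x y : Fin n → ℤ} (h : Adj x y) : x ≠ y := by
  rcases h with h | h
  · exact h.1
  · exact h.1.symm

theorem far_of_le {x y : Fin n → ℤ} (c : Fin n) (h : x c + 2 ≤ y c) : Far x y := by
  refine ⟨fun e => by rw [e] at h; omega, fun h' => ?_⟩
  rcases h' with h' | h' <;> have := h'.2 c <;> omega

end Pool.Agent.HypLow
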