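import Pool.Agent.Lib.HypLow.CombA

/-! # Nonflat systems: all edges are nontrivial; scaling (2.1) -/

namespace Pool.Agent.HypLow

variable {n : ℕ} {K V : Type*} [Field K] [AddCommGroup V] [Module K V]

/-- (2.1) if `t x = t y` for one edge then the system is flat. Proof: `edge_induction` with
`R v w := t v = t w`; if `t v = t w`, `w ~ z`, `v` far from `z` then `t w` and `t z` commute and
braid, so `t w * t z * (t w - t z) = 0`. -/
theorem edge_ne {l u : Fin n → ℤ} (hs : ∀ c, l c + 2 ≤ u c) {t : (Fin n → ℤ) → Module.End K V}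
    (hinj : ∀ x ∈ Box l u, Function.Injective (t x)) (hS : Sys (Box l u) t)
    (hnf : ∃ x ∈ Box l u, ∃ y ∈ Box l u, t x ≠ t y) :
    ∀ x ∈ Box l u, ∀ y ∈ Box l u, Adj x y → t x ≠ t y := by
  intro x hx y hy hxy heq
  obtain ⟨a, ha, b, hb, hab⟩ := hnf
  refine hab (box_connected t ?_ a ha b hb)
  refine edge_induction hs (fun v w => t v = t w) (fun v _ w _ _ h => h.symm) ?_
    ⟨x, hx, y, hy, hxy, heq⟩
  intro v hv w hw z hz hvw hwz hvz h
  have h1 : t w * t z = t z * t w := by rw [← h]; exact hS.comm v hv z hz hvz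
  have h2 : t w * t z * t w = t z * t w * t z := hS.braid w hw z hz hwz
  rw [← h1] at h2
  refine LinearMap.ext fun m => ?_
  have h3 : t w (t z (t w m)) = t w (t z (t z m)) := LinearMap.congr_fun h2 m
  exact hinj z hz (hinj w hw h3)

theorem Sys.smul {B : Set (Fin n → ℤ)} {t : (Fin n → ℤ) → Module.End K V} (hS : Sys B t) (μ : K) :
    Sys B (fun x => μ • t x) where
  comm := by
    intro x hx y hy h
    show (μ • t x) * (μ • t y) = (μ • t y) * (μ • t x)
    rw [smul_mul_smul_comm, smul_mul_smul_comm, hS.comm x hx y hy h]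
  braid := by
    intro x hx y hy h
    show (μ • t x) * (μ • t y) * (μ • t x) = (μ • t y) * (μ • t x) * (μ • t y)
    rw [smul_mul_smul_comm, smul_mul_smul_comm, smul_mul_smul_comm, smul_mul_smul_comm,
      hS.braid x hx y hy h]
  tri := by
    intro x hx y hy z hz h1 h2 h3
    show (μ • t x) * (μ • t y) * (μ • t z) * (μ • t x) =
      (μ • t y) * (μ • t z) * (μ • t x) * (μ • t y)
    rw [smul_mul_smul_comm, smul_mul_smul_comm, smul_mul_smul_comm, smul_mul_smul_comm,
      smul_mul_smul_comm, smul_mul_smul_comm, hS.tri x hx y hy z hz h1 h2 h3]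

theorem Sys.mono {M : Type*} [Monoid M] {B B' : Set (Fin n → ℤ)} {t : (Fin n → ℤ) → M}
    (hS : Sys B t) (h : B' ⊆ B) : Sys B' t :=
  ⟨fun x hx y hy => hS.comm x (h hx) y (h hy), fun x hx y hy => hS.braid x (h hx) y (h hy),
    fun x hx y hy z hz => hS.tri x (h hx) y (h hy) z (h hz)⟩

end Pool.Agent.HypLow
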