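import Pool.Agent.Lib.HypLow.Move
import Pool.Agent.Lib.HypLow.Split
import Pool.Agent.Lib.HypLow.Edge

/-! # The eigenvalue -/

namespace Pool.Agent.HypLow

universe v

variable {n : ℕ} {K : Type*} {V : Type v} [Field K] [AddCommGroup V] [Module K V]

theorem eig_mem0 {l u x : Fin n → ℤ} {a : Fin n} :
    x ∈ Box (Function.update l a (l a + 2)) u ↔ x ∈ Box l u ∧ l a + 2 ≤ x a := by
  constructor
  · intro h
    refine ⟨fun c => ?_, ?_⟩
    · have h1 := h c
      by_cases hc : c = a
      · subst hc
        rw [Function.update_self] at h1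
        omega
      · rwa [Function.update_of_ne hc] at h1
    · have h1 := h a
      rw [Function.update_self] at h1
      exact h1.1
  · rintro ⟨h, h2⟩ c
    by_cases hc : c = a
    · subst hc
      rw [Function.update_self]
      exact ⟨h2, (h c).2⟩
    · rw [Function.update_of_ne hc]
      exact h c

theorem eig_mem1 {l u x : Fin n → ℤ} {a : Fin n} :
    x ∈ Box l (Function.update u a (u a - 2)) ↔ x ∈ Box l u ∧ x a ≤ u a - 2 := by
  constructor
  · intro h
    refine ⟨fun c => ?_, ?_⟩
    · have h1 := h c
      by_cases hc : c = a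
      · subst hc
        rw [Function.update_self] at h1
        omega
      · rwa [Function.update_of_ne hc] at h1
    · have h1 := h a
      rw [Function.update_self] at h1
      exact h1.2
  · rintro ⟨h, h2⟩ c
    by_cases hc : c = a
    · subst hc
      rw [Function.update_self]
      exact ⟨(h c).1, h2⟩
    · rw [Function.update_of_ne hc]
      exact h c

theorem eig_coord {p q : Fin n → ℤ} (h : Adj p q) (a : Fin n) : p a ≤ q a + 1 ∧ q a ≤ p a + 1 := by
  rcases h with h | h
  · have := h.2 a
    omega
  · have := h.2 a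
    omega

/-- the product of the factors `T - μ` -/
noncomputable def eigProd (T : Module.End K V) (L : List K) : Module.End K V :=
  (L.map fun μ => T - μ • (1 : Module.End K V)).prod

theorem eigProd_cons (T : Module.End K V) (μ : K) (L : List K) :
    eigProd T (μ :: L) = (T - μ • (1 : Module.End K V)) * eigProd T L := by
  rw [eigProd, List.map_cons, List.prod_cons]
  rfl

theorem eigProd_append (T : Module.End K V) (L M : List K) :
    eigProd T (L ++ M) = eigProd T L * eigProd T M := by
  rw [eigProd, List.map_append, List.prod_append]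
  rfl

theorem eigProd_comm {T s : Module.End K V} (h : T * s = s * T) (L : List K) :
    eigProd T L * s = s * eigProd T L := prod_comm h L

theorem eigProd_congr {T T' d : Module.End K V} (h1 : T' * d = d * T') (h2 : T * d = T' * d)
    (L : List K) : eigProd T L * d = eigProd T' L * d := by
  induction L with
  | nil => rfl
  | cons μ L ih =>
    rw [eigProd_cons, eigProd_cons, mul_assoc, ih, mul_assoc, eigProd_comm h1, ← mul_assoc,
      ← mul_assoc]
    congr 1
    rw [sub_mul, sub_mul, h2]

theorem eig_kill {B : Set (Fin n → ℤ)} {t : (Fin n → ℤ) → Module.End K V} {D : Module.End K V}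
    (h : ∀ x ∈ B, ∀ y ∈ B, D * (t x - t y) = 0) : ∀ y ∈ DiffSpan B t, D y = 0 := by
  have h1 : DiffSpan B t ≤ LinearMap.ker D := diffSpan_le fun p hp q hq _ w => by
    rw [LinearMap.mem_ker]
    exact LinearMap.congr_fun (h p hp q hq) w
  exact fun y hy => LinearMap.mem_ker.1 (h1 hy)

theorem eig_smul (T : Module.End K V) (μ : K) (w : V) :
    (T - μ • (1 : Module.End K V)) w = T w - μ • w := rfl

/-- one half of the stability -/
theorem eig_half {t : (Fin n → ℤ) → Module.End K V} {X : Set (Fin n → ℤ)} {T T' : Module.End K V}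
    {N' : Submodule K V} {μ : K} {x : Fin n → ℤ}
    (hT : ∀ p ∈ X, T * t p = t p * T)
    (h : ∀ p ∈ X, ∀ q ∈ X, Adj p q →
      (T * (t p - t q) = T' * (t p - t q) ∧ T' * t x = t x * T' ∧ ∀ w, t x (t p w - t q w) ∈ N') ∨
      (t x - T) * (t p - t q) = 0) :
    ∀ y ∈ DiffSpan X t, t x ((T - μ • (1 : Module.End K V)) y) ∈
      (DiffSpan X t).map (T - μ • (1 : Module.End K V)) ⊔ N'.map (T' - μ • (1 : Module.End K V)) := by
  have h1 : DiffSpan X t ≤ ((DiffSpan X t).map (T - μ • (1 : Module.End K V)) ⊔
      N'.map (T' - μ • (1 : Module.End K V))).comap (t x * (T - μ • (1 : Module.End K V))) := by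
    refine diffSpan_le fun p hp q hq hpq w => ?_
    rw [Submodule.mem_comap]
    show t x (T (t p w - t q w) - μ • (t p w - t q w)) ∈ _
    rcases h p hp q hq hpq with ⟨e1, e2, e3⟩ | e1
    · have f1 : T (t p w - t q w) = T' (t p w - t q w) := LinearMap.congr_fun e1 w
      have f2 : t x (T' (t p w - t q w)) = T' (t x (t p w - t q w)) :=
        (LinearMap.congr_fun e2 (t p w - t q w)).symm
      refine Submodule.mem_sup_right (Submodule.mem_map.2 ⟨t x (t p w - t q w), e3 w, ?_⟩)
      generalize t p w - t q w = d at f1 f2 ⊢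
      rw [eig_smul, f1, map_sub, f2, map_smul]
    · have f1 : ∀ v, t x (t p v - t q v) = T (t p v - t q v) := by
        intro v
        have := LinearMap.congr_fun e1 v
        exact sub_eq_zero.1 this
      have f2 : ∀ v, T (t p v - t q v) = t p (T v) - t q (T v) := by
        intro v
        have c1 := LinearMap.congr_fun (hT p hp) v
        have c2 := LinearMap.congr_fun (hT q hq) v
        simp only [Module.End.mul_apply] at c1 c2
        rw [map_sub, c1, c2]
      refine Submodule.mem_sup_left (Submodule.mem_map.2 ⟨t p (T w) - t q (T w),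
        Submodule.subset_span ⟨p, hp, q, hq, hpq, T w, rfl⟩, ?_⟩)
      have g1 := f1 w
      have g2 : t x (T (t p w - t q w)) = T (T (t p w - t q w)) := by
        rw [f2 w]
        exact f1 (T w)
      rw [← f2 w]
      generalize t p w - t q w = d at g1 g2 ⊢
      rw [eig_smul, map_sub, g2, map_smul, g1]
  exact fun y hy => h1 hy

theorem exists_mu_sep [IsAlgClosed K] [FiniteDimensional K V] {l u : Fin n → ℤ}
    (hs : ∀ c, l c + 2 ≤ u c) {a b : Fin n} (hab : a ≠ b) (ha : l a + 6 ≤ u a)
    (hb : l b + 4 ≤ u b) {t : (Fin n → ℤ) → Module.End K V}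
    (hinj : ∀ x ∈ Box l u, Function.Injective (t x)) (hS : Sys (Box l u) t)
    (hirr : ∀ W : Submodule K V, (∀ x ∈ Box l u, ∀ w ∈ W, t x w ∈ W) → W = ⊥ ∨ W = ⊤)
    (hnf : ∃ x ∈ Box l u, ∃ y ∈ Box l u, t x ≠ t y)
    (hPa : ∀ g, l a ≤ g → g ≤ u a - 2 → Sep l u a g t)
    (hPb0 : Sep l u b (l b) t) (hPb1 : Sep l u b (u b - 2) t) :
    ∃ μ : K, μ ≠ 0 ∧
      (∀ x ∈ Box l u, ∀ y ∈ Box l u, l a + 2 ≤ x a → l a + 2 ≤ y a →
        ∀ w, t x (t l w - μ • w) = t y (t l w - μ • w)) ∧
      (∀ x ∈ Box l u, ∀ y ∈ Box l u, x a ≤ u a - 2 → y a ≤ u a - 2 →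
        ∀ w, t x (t (Function.update l a (u a)) w - μ • w) =
          t y (t (Function.update l a (u a)) w - μ • w)) := by
  classical
  have hba : b ≠ a := hab.symm
  have hlB : l ∈ Box l u := mem_low l u hs
  have hupd : ∀ (x : Fin n → ℤ) (c : Fin n) (m : ℤ), x ∈ Box l u → l c ≤ m → m ≤ u c →
      Function.update x c m ∈ Box l u := by
    intro x c m hx h1 h2 k
    by_cases hk : k = c
    · subst hk
      rw [Function.update_self]
      exact ⟨h1, h2⟩
    · rw [Function.update_of_ne hk]
      exact hx k
  have hw1B : Function.update l a (u a) ∈ Box l u := hupd l a (u a) hlB (by omega) le_rfl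
  have hw1a : Function.update l a (u a) a = u a := Function.update_self _ _ _
  have hw1b : Function.update l a (u a) b = l b := Function.update_of_ne hba _ _
  set w1 := Function.update l a (u a) with hw1
  set X0 := Box (Function.update l a (l a + 2)) u with hX0
  set X1 := Box l (Function.update u a (u a - 2)) with hX1
  have m0 : ∀ {x}, x ∈ X0 → x ∈ Box l u ∧ l a + 2 ≤ x a := fun h => eig_mem0.1 h
  have m1 : ∀ {x}, x ∈ X1 → x ∈ Box l u ∧ x a ≤ u a - 2 := fun h => eig_mem1.1 h
  have hS0 : Sys X0 t := hS.mono fun x hx => (m0 hx).1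
  have hS1 : Sys X1 t := hS.mono fun x hx => (m1 hx).1
  have c0 : ∀ x ∈ X0, t l * t x = t x * t l := fun x hx =>
    hS.comm l hlB x (m0 hx).1 (far_of_le a (m0 hx).2)
  have c1 : ∀ x ∈ X1, t w1 * t x = t x * t w1 := fun x hx =>
    (hS.comm x (m1 hx).1 w1 hw1B (far_of_le a (by have := (m1 hx).2; omega))).symm
  -- `T0 = T1` on the middle differences
  have hmid : ∀ p ∈ Box l u, ∀ q ∈ Box l u, Adj p q → l a + 2 ≤ p a → l a + 2 ≤ q a →
      p a ≤ u a - 2 → q a ≤ u a - 2 → t l * (t p - t q) = t w1 * (t p - t q) := by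
    intro p hp q hq hpq p1 q1 p2 q2
    have hpb := eig_coord hpq b
    by_cases hlow : l b + 2 ≤ p b ∧ l b + 2 ≤ q b
    · have e := hPb0 l hlB w1 hw1B p hp q hq le_rfl (le_of_eq hw1b) hlow.1 hlow.2
      rwa [sub_mul, sub_eq_zero] at e
    · have hp3 : p b ≤ u b - 2 := by
        by_contra hcon
        exact hlow ⟨by omega, by omega⟩
      have hq3 : q b ≤ u b - 2 := by
        by_contra hcon
        exact hlow ⟨by omega, by omega⟩
      have hl' : Function.update l b (u b) ∈ Box l u := hupd l b (u b) hlB (by omega) le_rfl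
      have hw' : Function.update w1 b (u b) ∈ Box l u := hupd w1 b (u b) hw1B (by omega) le_rfl
      have lb' : Function.update l b (u b) b = u b := Function.update_self _ _ _
      have wb' : Function.update w1 b (u b) b = u b := Function.update_self _ _ _
      have la' : Function.update l b (u b) a = l a := Function.update_of_ne hab _ _
      have wa' : Function.update w1 b (u b) a = u a := by
        rw [Function.update_of_ne hab, hw1a]
      have e1 := hPb1.flip hS hp hq hl' hw' hp3 hq3 (by rw [lb']; omega) (by rw [wb']; omega)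
      have e2 := hPa (l a) le_rfl (by omega) l hlB _ hl' p hp q hq le_rfl (le_of_eq la') p1 q1
      have e3 := (hPa (u a - 2) (by omega) le_rfl).flip hS hp hq hw1B hw' p2 q2
        (by rw [hw1a]; omega) (by rw [wa']; omega)
      rw [sub_mul, sub_eq_zero] at e1 e2 e3
      rw [e2, e1, e3]
  -- the stable subspaces
  have hR : ∀ μ : K, ∀ x ∈ Box l u, ∀ w ∈ (DiffSpan X0 t).map (t l - μ • (1 : Module.End K V)) ⊔
      (DiffSpan X1 t).map (t w1 - μ • (1 : Module.End K V)),
      t x w ∈ (DiffSpan X0 t).map (t l - μ • (1 : Module.End K V)) ⊔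
      (DiffSpan X1 t).map (t w1 - μ • (1 : Module.End K V)) := by
    intro μ x hx w hw
    have st0 : x ∈ X0 → ∀ y ∈ DiffSpan X0 t, t x y ∈ DiffSpan X0 t := fun h y hy =>
      diffSpan_stable b (by rw [Function.update_of_ne hba]; exact hb) hS0 h hy
    have st1 : x ∈ X1 → ∀ y ∈ DiffSpan X1 t, t x y ∈ DiffSpan X1 t := fun h y hy =>
      diffSpan_stable b (by rw [Function.update_of_ne hba]; exact hb) hS1 h hy
    have g0 : ∀ y ∈ DiffSpan X0 t, t x ((t l - μ • (1 : Module.End K V)) y) ∈
        (DiffSpan X0 t).map (t l - μ • (1 : Module.End K V)) ⊔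
        (DiffSpan X1 t).map (t w1 - μ • (1 : Module.End K V)) := by
      by_cases hx0 : l a + 2 ≤ x a
      · intro y hy
        have hx' : x ∈ X0 := eig_mem0.2 ⟨hx, hx0⟩
        refine Submodule.mem_sup_left (Submodule.mem_map.2 ⟨t x y, st0 hx' y hy, ?_⟩)
        have := LinearMap.congr_fun (c0 x hx') y
        simp only [Module.End.mul_apply] at this
        rw [eig_smul, eig_smul, map_sub, map_smul, this]
      · have hx' : x ∈ X1 := eig_mem1.2 ⟨hx, by omega⟩
        refine eig_half c0 fun p hp q hq hpq => ?_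
        have hpa := eig_coord hpq a
        have hp0 := m0 hp
        have hq0 := m0 hq
        by_cases h : p a ≤ u a - 2 ∧ q a ≤ u a - 2
        · left
          refine ⟨hmid p hp0.1 q hq0.1 hpq hp0.2 hq0.2 h.1 h.2, c1 x hx', fun w => ?_⟩
          exact st1 hx' _ (Submodule.subset_span
            ⟨p, eig_mem1.2 ⟨hp0.1, h.1⟩, q, eig_mem1.2 ⟨hq0.1, h.2⟩, hpq, w, rfl⟩)
        · right
          have hp3 : u a - 2 ≤ p a := by
            by_contra hcon
            exact h ⟨by omega, by omega⟩
          have hq3 : u a - 2 ≤ q a := by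
            by_contra hcon
            exact h ⟨by omega, by omega⟩
          exact hPa (u a - 4) (by omega) (by omega) x hx l hlB p hp0.1 q hq0.1 (by omega)
            (by omega) (by omega) (by omega)
    have g1 : ∀ y ∈ DiffSpan X1 t, t x ((t w1 - μ • (1 : Module.End K V)) y) ∈
        (DiffSpan X0 t).map (t l - μ • (1 : Module.End K V)) ⊔
        (DiffSpan X1 t).map (t w1 - μ • (1 : Module.End K V)) := by
      by_cases hx0 : x a ≤ u a - 2
      · intro y hy
        have hx' : x ∈ X1 := eig_mem1.2 ⟨hx, hx0⟩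
        refine Submodule.mem_sup_right (Submodule.mem_map.2 ⟨t x y, st1 hx' y hy, ?_⟩)
        have := LinearMap.congr_fun (c1 x hx') y
        simp only [Module.End.mul_apply] at this
        rw [eig_smul, eig_smul, map_sub, map_smul, this]
      · have hx' : x ∈ X0 := eig_mem0.2 ⟨hx, by omega⟩
        intro y hy
        rw [sup_comm]
        refine eig_half c1 (fun p hp q hq hpq => ?_) y hy
        have hpa := eig_coord hpq a
        have hp0 := m1 hp
        have hq0 := m1 hq
        by_cases h : l a + 2 ≤ p a ∧ l a + 2 ≤ q a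
        · left
          refine ⟨(hmid p hp0.1 q hq0.1 hpq h.1 h.2 hp0.2 hq0.2).symm, c0 x hx', fun w => ?_⟩
          exact st0 hx' _ (Submodule.subset_span
            ⟨p, eig_mem0.2 ⟨hp0.1, h.1⟩, q, eig_mem0.2 ⟨hq0.1, h.2⟩, hpq, w, rfl⟩)
        · right
          have hp3 : p a ≤ l a + 2 := by
            by_contra hcon
            exact h ⟨by omega, by omega⟩
          have hq3 : q a ≤ l a + 2 := by
            by_contra hcon
            exact h ⟨by omega, by omega⟩
          exact (hPa (l a + 2) (by omega) (by omega)).flip hS hp0.1 hq0.1 hx hw1B hp3 hq3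
            (by omega) (by rw [hw1a]; omega)
    obtain ⟨y0, h0, y1, h1, rfl⟩ := Submodule.mem_sup.1 hw
    obtain ⟨z0, hz0, rfl⟩ := Submodule.mem_map.1 h0
    obtain ⟨z1, hz1, rfl⟩ := Submodule.mem_map.1 h1
    rw [map_add]
    exact Submodule.add_mem _ (g0 z0 hz0) (g1 z1 hz1)
  -- the special edge
  have hsb := hs b
  set p := Function.update l a (l a + 2) with hp
  have hpB : p ∈ Box l u := hupd l a (l a + 2) hlB (by omega) (by omega)
  have hpa : p a = l a + 2 := Function.update_self _ _ _
  have hpb : p b = l b := Function.update_of_ne hba _ _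
  have hqB : mv p b 1 ∈ Box l u := mem_mv hpB (by omega) (by omega)
  have hqa : mv p b 1 a = l a + 2 := by rw [mv_ne p hab, hpa]
  have hpq : Adj p (mv p b 1) := adj_mv p b
  have hpX0 : p ∈ X0 := eig_mem0.2 ⟨hpB, by omega⟩
  have hqX0 : mv p b 1 ∈ X0 := eig_mem0.2 ⟨hqB, by omega⟩
  have hpX1 : p ∈ X1 := eig_mem1.2 ⟨hpB, by omega⟩
  have hqX1 : mv p b 1 ∈ X1 := eig_mem1.2 ⟨hqB, by omega⟩
  generalize mv p b 1 = q at hqB hqa hpq hqX0 hqX1
  have hd : t l * (t p - t q) = t w1 * (t p - t q) :=
    hmid p hpB q hqB hpq (by omega) (by omega) (by omega) (by omega)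
  have hd0 : t l * (t p - t q) = (t p - t q) * t l := by
    rw [mul_sub, sub_mul, c0 p hpX0, c0 q hqX0]
  have hd1 : t w1 * (t p - t q) = (t p - t q) * t w1 := by
    rw [mul_sub, sub_mul, c1 p hpX1, c1 q hqX1]
  have hne : t p ≠ t q := edge_ne hs hinj hS hnf p hpB q hqB hpq
  have hsurj : ∀ x ∈ Box l u, Function.Surjective (t x) := fun x hx =>
    LinearMap.injective_iff_surjective.1 (hinj x hx)
  have hs0 : ∀ c, p c + 2 ≤ u c := by
    intro c
    by_cases hc : c = a
    · subst hc
      omega
    · rw [hp, Function.update_of_ne hc]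
      exact hs c
  have hs1 : ∀ c, l c + 2 ≤ Function.update u a (u a - 2) c := by
    intro c
    by_cases hc : c = a
    · subst hc
      rw [Function.update_self]
      omega
    · rw [Function.update_of_ne hc]
      exact hs c
  -- the prime step
  have claim : ∀ L : List K, (∀ y ∈ DiffSpan X0 t, eigProd (t l) L y = 0) →
      (∀ y ∈ DiffSpan X1 t, eigProd (t w1) L y = 0) →
      ∃ μ : K, (∀ y ∈ DiffSpan X0 t, (t l - μ • (1 : Module.End K V)) y = 0) ∧
        ∀ y ∈ DiffSpan X1 t, (t w1 - μ • (1 : Module.End K V)) y = 0 := by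
    intro L
    induction L with
    | nil =>
      intro h _
      exfalso
      apply hne
      refine LinearMap.ext fun w => sub_eq_zero.1 ?_
      exact h _ (Submodule.subset_span ⟨p, hpX0, q, hqX0, hpq, w, rfl⟩)
    | cons μ L ih =>
      intro h0 h1
      rcases hirr _ (hR μ) with hb | ht
      · refine ⟨μ, fun y hy => ?_, fun y hy => ?_⟩
        · have : (t l - μ • (1 : Module.End K V)) y ∈ (⊥ : Submodule K V) := by
            rw [← hb]
            exact Submodule.mem_sup_left (Submodule.mem_map_of_mem hy)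
          exact (Submodule.mem_bot K).1 this
        · have : (t w1 - μ • (1 : Module.End K V)) y ∈ (⊥ : Submodule K V) := by
            rw [← hb]
            exact Submodule.mem_sup_right (Submodule.mem_map_of_mem hy)
          exact (Submodule.mem_bot K).1 this
      · have hc0 : (t l - μ • (1 : Module.End K V)) * (t p - t q) =
            (t p - t q) * (t l - μ • (1 : Module.End K V)) := by
          rw [sub_mul, hd0, mul_sub (t p - t q) (t l), smul_one_mul, mul_smul_comm, mul_one]
        have hc1 : (t w1 - μ • (1 : Module.End K V)) * (t p - t q) =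
            (t p - t q) * (t w1 - μ • (1 : Module.End K V)) := by
          rw [sub_mul, hd1, mul_sub (t p - t q) (t w1), smul_one_mul, mul_smul_comm, mul_one]
        have hc2 : (t w1 - μ • (1 : Module.End K V)) * (t p - t q) =
            (t l - μ • (1 : Module.End K V)) * (t p - t q) := by
          rw [sub_mul, sub_mul, hd]
        have hc3 : eigProd (t l) L * (t l - μ • (1 : Module.End K V)) =
            (t l - μ • (1 : Module.End K V)) * eigProd (t l) L :=
          eigProd_comm (by rw [mul_sub, sub_mul, smul_one_mul, mul_smul_comm, mul_one]) L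
        have e0 : eigProd (t l) L * (t p - t q) = 0 := by
          refine LinearMap.ext fun v => ?_
          have hv : v ∈ (DiffSpan X0 t).map (t l - μ • (1 : Module.End K V)) ⊔
              (DiffSpan X1 t).map (t w1 - μ • (1 : Module.End K V)) := by
            rw [ht]
            exact Submodule.mem_top
          obtain ⟨y0, h2, y1, h3, rfl⟩ := Submodule.mem_sup.1 hv
          obtain ⟨z0, hz0, rfl⟩ := Submodule.mem_map.1 h2
          obtain ⟨z1, hz1, rfl⟩ := Submodule.mem_map.1 h3
          have key : ∀ z, eigProd (t l) L ((t l - μ • (1 : Module.End K V)) ((t p - t q) z)) = 0 := by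
            intro z
            have := h0 ((t p - t q) z) (Submodule.subset_span ⟨p, hpX0, q, hqX0, hpq, z, rfl⟩)
            rw [eigProd_cons, ← hc3] at this
            exact this
          have k0 : (t p - t q) ((t l - μ • (1 : Module.End K V)) z0) =
              (t l - μ • (1 : Module.End K V)) ((t p - t q) z0) :=
            (LinearMap.congr_fun hc0 z0).symm
          have k1 : (t p - t q) ((t w1 - μ • (1 : Module.End K V)) z1) =
              (t l - μ • (1 : Module.End K V)) ((t p - t q) z1) :=
            (LinearMap.congr_fun (hc2.symm.trans hc1) z1).symm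
          show eigProd (t l) L ((t p - t q) ((t l - μ • (1 : Module.End K V)) z0 +
            (t w1 - μ • (1 : Module.End K V)) z1)) = 0
          rw [map_add, k0, k1, map_add, key, key, add_zero]
        have e1 : eigProd (t w1) L * (t p - t q) = 0 := by
          rw [← e0]
          exact (eigProd_congr hd1 hd L).symm
        refine ih ?_ ?_
        · refine eig_kill fun x hx y hy => ?_
          have hcm : ∀ x ∈ X0, t x * eigProd (t l) L = eigProd (t l) L * t x := fun x hx =>
            (eigProd_comm (c0 x hx) L).symm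
          have := move_edge hs0 (fun x hx => hsurj x (m0 hx).1) hS0 hcm
            ⟨p, hpX0, q, hqX0, hpq, by rw [sub_mul, hcm p hpX0, hcm q hqX0, ← mul_sub, e0]⟩ x hx y hy
          rw [sub_mul, hcm x hx, hcm y hy, ← mul_sub] at this
          exact this
        · refine eig_kill fun x hx y hy => ?_
          have hcm : ∀ x ∈ X1, t x * eigProd (t w1) L = eigProd (t w1) L * t x := fun x hx =>
            (eigProd_comm (c1 x hx) L).symm
          have := move_edge hs1 (fun x hx => hsurj x (m1 hx).1) hS1 hcm
            ⟨p, hpX1, q, hqX1, hpq, by rw [sub_mul, hcm p hpX1, hcm q hqX1, ← mul_sub, e1]⟩ x hx y hy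
          rw [sub_mul, hcm x hx, hcm y hy, ← mul_sub] at this
          exact this
  obtain ⟨L0, hL0⟩ := exists_prod_zero (t l)
  obtain ⟨L1, hL1⟩ := exists_prod_zero (t w1)
  have hL0' : eigProd (t l) L0 = 0 := hL0
  have hL1' : eigProd (t w1) L1 = 0 := hL1
  obtain ⟨μ, k0, k1⟩ := claim (L0 ++ L1)
    (fun y _ => by rw [eigProd_append, hL0', zero_mul]; rfl)
    (fun y _ => by rw [eigProd_append, hL1', mul_zero]; rfl)
  refine ⟨μ, ?_, ?_, ?_⟩
  · rintro rfl
    apply hne
    refine LinearMap.ext fun w => sub_eq_zero.1 (hinj l hlB ?_)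
    have := k0 _ (Submodule.subset_span ⟨p, hpX0, q, hqX0, hpq, w, rfl⟩)
    rw [eig_smul, zero_smul, sub_zero] at this
    rw [this, map_zero]
  · intro x hx y hy h1 h2 w
    have hx' : x ∈ X0 := eig_mem0.2 ⟨hx, h1⟩
    have hy' : y ∈ X0 := eig_mem0.2 ⟨hy, h2⟩
    have := k0 _ (diffSpan_mem hx' hy' w)
    have d1 := LinearMap.congr_fun (c0 x hx') w
    have d2 := LinearMap.congr_fun (c0 y hy') w
    simp only [Module.End.mul_apply] at d1 d2
    rw [eig_smul, map_sub, d1, d2, smul_sub, sub_sub_sub_comm, sub_eq_zero] at this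
    rw [map_sub, map_sub, map_smul, map_smul, this]
  · intro x hx y hy h1 h2 w
    have hx' : x ∈ X1 := eig_mem1.2 ⟨hx, h1⟩
    have hy' : y ∈ X1 := eig_mem1.2 ⟨hy, h2⟩
    have := k1 _ (diffSpan_mem hx' hy' w)
    have d1 := LinearMap.congr_fun (c1 x hx') w
    have d2 := LinearMap.congr_fun (c1 y hy') w
    simp only [Module.End.mul_apply] at d1 d2
    rw [eig_smul, map_sub, d1, d2, smul_sub, sub_sub_sub_comm, sub_eq_zero] at this
    rw [map_sub, map_sub, map_smul, map_smul, this]

end Pool.Agent.HypLow
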