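import Pool.Agent.Lib.HypLow.CombA

/-! # Extension lemma (L2) -/

namespace Pool.Agent.HypLow

variable {n : ℕ} {K V : Type*} [Field K] [AddCommGroup V] [Module K V]

/-- (L2) a system on a box with a side `≥ 5` which is flat on a subspace `W` and on `V / W` is
flat. Proof: `δ = t x - t y` maps `V` to `W` and kills `W`; hence `δ * t z` and `t z * δ` do not
depend on `z`. If `x`, `y` are far then `δ` commutes with `t y`, so with all `t z`. If they are
adjacent take `z` far from both (`far_vertex`). Now insert `t x = t y + δ` in the braid relation: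
`δ * t y ^ 2 = 0`. Then `box_connected`. -/
theorem ext_flat {l u : Fin n → ℤ} (a : Fin n) (ha : l a + 4 ≤ u a)
    {t : (Fin n → ℤ) → Module.End K V} (hinj : ∀ x ∈ Box l u, Function.Surjective (t x))
    (hS : Sys (Box l u) t) (W : Submodule K V)
    (h1 : ∀ x ∈ Box l u, ∀ y ∈ Box l u, ∀ w ∈ W, t x w = t y w)
    (h2 : ∀ x ∈ Box l u, ∀ y ∈ Box l u, ∀ w, t x w - t y w ∈ W) :
    ∀ x ∈ Box l u, ∀ y ∈ Box l u, t x = t y := by
  -- `δ * t z = δ * t w`
  have hl : ∀ x ∈ Box l u, ∀ y ∈ Box l u, ∀ z ∈ Box l u, ∀ w ∈ Box l u,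
      (t x - t y) * t z = (t x - t y) * t w := by
    intro x hx y hy z hz w hw
    ext v
    have h3 := h1 x hx y hy _ (h2 z hz w hw v)
    simp only [map_sub] at h3
    simp only [Module.End.mul_apply, LinearMap.sub_apply]
    have h4 : t x (t z v) - t y (t z v) - (t x (t w v) - t y (t w v)) =
      (t x (t z v) - t x (t w v)) - (t y (t z v) - t y (t w v)) := by abel
    rw [← sub_eq_zero, h4, h3, sub_self]
  have hr : ∀ x ∈ Box l u, ∀ y ∈ Box l u, ∀ z ∈ Box l u, ∀ w ∈ Box l u,
      t z * (t x - t y) = t w * (t x - t y) := by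
    intro x hx y hy z hz w hw
    ext v
    simp only [Module.End.mul_apply, LinearMap.sub_apply]
    exact h1 z hz w hw _ (h2 x hx y hy v)
  -- for far points `δ` commutes with everything
  have hfar : ∀ x ∈ Box l u, ∀ y ∈ Box l u, Far x y → ∀ z ∈ Box l u,
      (t x - t y) * t z = t z * (t x - t y) := by
    intro x hx y hy hxy z hz
    have h3 : (t x - t y) * t y = t y * (t x - t y) := by
      rw [sub_mul, mul_sub, hS.comm x hx y hy hxy]
    rw [hl x hx y hy z hz y hy, h3, hr x hx y hy y hy z hz]
  refine box_connected t fun x hx y hy hxy => ?_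
  obtain ⟨z, hz, hxz, hyz⟩ := far_vertex a ha hx hy hxy
  have hc : (t x - t y) * t y = t y * (t x - t y) := by
    have h3 := hfar x hx z hz hxz y hy
    have h4 := hfar y hy z hz hyz y hy
    have h5 : t x - t y = (t x - t z) - (t y - t z) := by abel
    rw [h5, sub_mul, mul_sub, h3, h4]
  -- `δ ^ 2 = 0`
  have hd : (t x - t y) * (t x - t y) = 0 := by
    ext v
    simp only [Module.End.mul_apply, LinearMap.sub_apply, LinearMap.zero_apply]
    have h3 := h1 x hx y hy _ (h2 x hx y hy v)
    rw [← h3, sub_self]
  -- the braid relation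
  have hb := hS.braid x hx y hy hxy
  have h3 : t x = t y + (t x - t y) := by abel
  generalize t x - t y = d at hc hd h3
  have h5 : d * (t y * t y) = 0 := by
    rw [h3] at hb
    have h6 : (t y + d) * t y * (t y + d) = t y * (t y + d) * t y + d * (t y * t y) := by
      have e1 : t y * t y * d = d * (t y * t y) := by
        rw [mul_assoc, ← hc, ← mul_assoc, ← hc, mul_assoc]
      have e2 : d * t y * d = 0 := by
        rw [mul_assoc, ← hc, ← mul_assoc, hd, zero_mul]
      have e3 : t y * d * t y = d * (t y * t y) := by rw [← hc, mul_assoc]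
      calc (t y + d) * t y * (t y + d) = t y * t y * t y + t y * t y * d + d * (t y * t y) + d * t y * d := by
            noncomm_ring
        _ = t y * t y * t y + t y * d * t y + d * (t y * t y) := by rw [e1, e2, e3, add_zero]
        _ = _ := by noncomm_ring
    rw [h6] at hb
    exact add_eq_left.1 hb
  have h6 : d = 0 := by
    ext v
    obtain ⟨v1, rfl⟩ := hinj y hy v
    obtain ⟨v2, rfl⟩ := hinj y hy v1
    have := congrArg (fun g : Module.End K V => g v2) h5
    simpa only [Module.End.mul_apply, LinearMap.zero_apply] using this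
  rw [h3, h6, add_zero]

end Pool.Agent.HypLow
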