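import Pool.Agent.Lib.HypLow.Mu
import Pool.Agent.Lib.HypLow.CombB

/-! # Far pairs (2.3) -/

namespace Pool.Agent.HypLow

universe v

variable {n : ℕ} {K V : Type*} [Field K] [AddCommGroup V] [Module K V]

/-- (2.3) first half: the corner `l` and the other end of the edge of direction `a` -/
theorem corner_pair {l u : Fin n → ℤ} (hs : ∀ c, l c + 2 ≤ u c) {a : Fin n}
    (ha : l a + 4 ≤ u a) {t : (Fin n → ℤ) → Module.End K V} (hS : Sys (Box l u) t)
    (hirr : ∀ W : Submodule K V, (∀ x ∈ Box l u, ∀ w ∈ W, t x w ∈ W) → W = ⊥ ∨ W = ⊤)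
    (hnf : ∃ x ∈ Box l u, ∃ y ∈ Box l u, t x ≠ t y) {μ : K}
    (h1 : ∀ x ∈ Box l u, ∀ y ∈ Box l u, l a + 2 ≤ x a → l a + 2 ≤ y a →
        ∀ w, t x (t l w - μ • w) = t y (t l w - μ • w))
    (h2 : ∀ x ∈ Box l u, ∀ y ∈ Box l u, x a ≤ u a - 2 → y a ≤ u a - 2 →
        ∀ w, t x (t (Function.update l a (u a)) w - μ • w) =
          t y (t (Function.update l a (u a)) w - μ • w)) :
    (t (Function.update l a (u a)) - algebraMap K (Module.End K V) μ) *
      (t l - algebraMap K (Module.End K V) μ) = 0 := by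
  have hlB : l ∈ Box l u := fun c => ⟨le_rfl, by have := hs c; omega⟩
  have hupd : ∀ m : ℤ, l a ≤ m → m ≤ u a → Function.update l a m ∈ Box l u := by
    intro m h1 h2 c
    by_cases hc : c = a
    · subst hc
      simp [h1, h2]
    · rw [Function.update_of_ne hc]
      exact ⟨le_rfl, by have := hs c; omega⟩
  have hw1B : Function.update l a (u a) ∈ Box l u := hupd (u a) (by omega) le_rfl
  have hmB : Function.update l a (l a + 2) ∈ Box l u := hupd (l a + 2) (by omega) (by omega)
  have hw1a : Function.update l a (u a) a = u a := by simp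
  have hma : Function.update l a (l a + 2) a = l a + 2 := by simp
  have hcomm : t l * t (Function.update l a (u a)) = t (Function.update l a (u a)) * t l :=
    hS.comm l hlB _ hw1B (far_of_le a (by rw [hw1a]; omega))
  have hcomm' : ∀ w, t l (t (Function.update l a (u a)) w) =
      t (Function.update l a (u a)) (t l w) := fun w => by
    have := congrArg (fun f : Module.End K V => f w) hcomm
    simpa using this
  set T1 := t (Function.update l a (u a)) with hT1
  let Z : Submodule K V := LinearMap.range (t l - algebraMap K (Module.End K V) μ) ⊓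
    LinearMap.range (T1 - algebraMap K (Module.End K V) μ)
  have happ : ∀ (T : Module.End K V) (w : V),
      (T - algebraMap K (Module.End K V) μ) w = T w - μ • w := fun T w => by
    simp [Module.algebraMap_end_apply]
  have hflat : ∀ x ∈ Box l u, ∀ z ∈ Z, t x z = t (Function.update l a (l a + 2)) z := by
    intro x hx z hz
    rcases le_or_gt (l a + 2) (x a) with h | h
    · obtain ⟨v, hv⟩ := (Submodule.mem_inf.1 hz).1
      rw [← hv, happ]
      exact h1 x hx _ hmB h (by rw [hma]) v
    · obtain ⟨v, hv⟩ := (Submodule.mem_inf.1 hz).2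
      rw [← hv, happ]
      exact h2 x hx _ hmB (by omega) (by rw [hma]; omega) v
  have hflat2 : ∀ x ∈ Box l u, ∀ y ∈ Box l u, ∀ z ∈ Z, t x z = t y z := fun x hx y hy z hz =>
    (hflat x hx z hz).trans (hflat y hy z hz).symm
  have hstab : ∀ x ∈ Box l u, ∀ z ∈ Z, t x z ∈ Z := by
    intro x hx z hz
    refine Submodule.mem_inf.2 ⟨?_, ?_⟩
    · obtain ⟨v, hv⟩ := (Submodule.mem_inf.1 hz).1
      refine ⟨T1 v, ?_⟩
      rw [hflat2 x hx _ hw1B z hz, ← hT1, ← hv, happ, happ, map_sub, map_smul, hcomm']
    · obtain ⟨v, hv⟩ := (Submodule.mem_inf.1 hz).2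
      refine ⟨t l v, ?_⟩
      rw [hflat2 x hx _ hlB z hz, ← hv, happ, happ, map_sub, map_smul, hcomm']
  have hZ : Z = ⊥ := by
    rcases hirr Z hstab with h | h
    · exact h
    · exfalso
      obtain ⟨x, hx, y, hy, hxy⟩ := hnf
      refine hxy (LinearMap.ext fun z => hflat2 x hx y hy z ?_)
      rw [h]
      exact Submodule.mem_top
  refine LinearMap.ext fun w => ?_
  have hmem : ((T1 - algebraMap K (Module.End K V) μ) *
      (t l - algebraMap K (Module.End K V) μ)) w ∈ Z := by
    refine Submodule.mem_inf.2 ⟨⟨T1 w - μ • w, ?_⟩, ⟨t l w - μ • w, ?_⟩⟩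
    · rw [Module.End.mul_apply, happ, happ, happ, map_sub, map_sub, map_smul, map_smul, hcomm',
        smul_sub, smul_sub]
      abel
    · rw [Module.End.mul_apply, happ, happ, happ]
  rw [hZ, Submodule.mem_bot] at hmem
  simpa using hmem

/-- (2.3) second half: from one far pair to all far pairs, by `far_induction` -/
theorem far_pairs {l u : Fin n → ℤ} (hs : ∀ c, l c + 2 ≤ u c) {a b : Fin n} (hab : a ≠ b)
    {s : (Fin n → ℤ) → Module.End K V} (hS : Sys (Box l u) s)
    (hsurj : ∀ x ∈ Box l u, Function.Surjective (s x))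
    (hinj : ∀ x ∈ Box l u, Function.Injective (s x))
    (h : ∃ v ∈ Box l u, ∃ w ∈ Box l u, Far v w ∧ (s v - 1) * (s w - 1) = 0) :
    ∀ v ∈ Box l u, ∀ w ∈ Box l u, Far v w → (s v - 1) * (s w - 1) = 0 := by
  refine far_induction hs hab (fun v w => (s v - 1) * (s w - 1) = 0) ?_ ?_ h
  · intro v hv w hw hvw h0
    have hc := hS.comm v hv w hw hvw
    have : (s w - 1) * (s v - 1) = (s v - 1) * (s w - 1) := by
      simp only [sub_mul, mul_sub, one_mul, mul_one, hc]
      abel
    show (s w - 1) * (s v - 1) = 0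
    rw [this]
    exact h0
  · intro v hv v' hv' w hw hadj hvw hv'w h0
    have hc := hS.comm v hv w hw hvw
    have hc' := hS.comm v' hv' w hw hv'w
    have hb := hS.braid v hv v' hv' hadj
    have hg : s v * s v' * (s v - 1) = (s v' - 1) * (s v * s v') := by
      rw [mul_sub, sub_mul, mul_one, one_mul, ← mul_assoc, hb]
    have hgw : s v * s v' * (s w - 1) = (s w - 1) * (s v * s v') := by
      rw [mul_sub, sub_mul, mul_one, one_mul, mul_assoc, hc', ← mul_assoc, hc, mul_assoc]
    have h0' : (s v - 1) * (s w - 1) = 0 := h0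
    have key : ((s v' - 1) * (s w - 1)) * (s v * s v') = 0 := by
      rw [mul_assoc, ← hgw, ← mul_assoc, ← hg, mul_assoc, h0', mul_zero]
    show (s v' - 1) * (s w - 1) = 0
    refine LinearMap.ext fun z => ?_
    obtain ⟨z1, hz1⟩ := hsurj v hv z
    obtain ⟨z2, hz2⟩ := hsurj v' hv' z1
    have := congrArg (fun f : Module.End K V => f z2) key
    simp only [Module.End.mul_apply, hz2, hz1, LinearMap.zero_apply] at this
    simpa [Module.End.mul_apply] using this

end Pool.Agent.HypLow
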