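import Pool.Agent.Lib.HypLow.ClawZero

/-! # The relations (A2), (A3), (A4) (2.6, 2.7) -/

namespace Pool.Agent.HypLow

variable {n : ℕ} {K V : Type*} [Field K] [AddCommGroup V] [Module K V] [FiniteDimensional K V]

/-- (A2) -/
theorem rel2 {l u : Fin n → ℤ} (hs : ∀ c, l c + 2 ≤ u c) {a b : Fin n} (hab : a ≠ b)
    {s : (Fin n → ℤ) → Module.End K V} (hG : Good (Box l u) s) :
    ∀ v ∈ Box l u, ∀ w ∈ Box l u, Adj v w →
      (s v - 1) * (s w - 1) * (s v - 1) = - (s v - 1) - (s v - 1) * (s v - 1) := by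
  intro v hv w hw hvw
  have h0 := claw_zero hs hab hG v hv w hw hvw
  have hb := hG.sys.braid v hv w hw hvw
  have h1 : (s v - 1) * (1 + (s v - 1) + (s w - 1) * (s v - 1)) =
      (s w - 1) * (1 + (s w - 1) + (s v - 1) * (s w - 1)) := by
    have e : (s v - 1) * (1 + (s v - 1) + (s w - 1) * (s v - 1)) -
        (s w - 1) * (1 + (s w - 1) + (s v - 1) * (s w - 1)) =
        s v * s w * s v - s w * s v * s w := by noncomm_ring
    rw [← sub_eq_zero, e, hb, sub_self]
  have h2 : (s v - 1) * (1 + (s v - 1) + (s w - 1) * (s v - 1)) = 0 := by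
    ext z
    have h3 : ((s v - 1) * (1 + (s v - 1) + (s w - 1) * (s v - 1))) z ∈
        LinearMap.range (s v - 1) ⊓ LinearMap.range (s w - 1) := by
      refine ⟨⟨_, rfl⟩, ?_⟩
      rw [h1]
      exact ⟨_, rfl⟩
    rw [h0] at h3
    exact h3
  have e : (s v - 1) * (s w - 1) * (s v - 1) =
      (s v - 1) * (1 + (s v - 1) + (s w - 1) * (s v - 1)) - (s v - 1) -
        (s v - 1) * (s v - 1) := by noncomm_ring
  rw [e, h2, zero_sub]

private theorem rel_comm {G : Type*} [Group G] {x y z : G} (hxy : x * y * x = y * x * y)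
    (h3 : x * y * z * x = y * z * x * y) : (y * z * y⁻¹) * x = x * (y * z * y⁻¹) := by
  have h1 : y⁻¹ * x * y = x * y * x⁻¹ := by
    calc y⁻¹ * x * y = y⁻¹ * (x * y * x) * x⁻¹ := by group
      _ = y⁻¹ * (y * x * y) * x⁻¹ := by rw [hxy]
      _ = x * y * x⁻¹ := by group
  calc (y * z * y⁻¹) * x = y * z * (y⁻¹ * x * y) * y⁻¹ := by group
    _ = y * z * (x * y * x⁻¹) * y⁻¹ := by rw [h1]
    _ = (y * z * x * y) * x⁻¹ * y⁻¹ := by group
    _ = (x * y * z * x) * x⁻¹ * y⁻¹ := by rw [h3]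
    _ = x * (y * z * y⁻¹) := by group

private theorem rel_braid {G : Type*} [Group G] {w y z : G} (hwz : w * z * w = z * w * z)
    (hwy : w * y = y * w) :
    (y * z * y⁻¹) * w * (y * z * y⁻¹) = w * (y * z * y⁻¹) * w := by
  have h2 : y⁻¹ * w = w * y⁻¹ := by
    calc y⁻¹ * w = y⁻¹ * (w * y) * y⁻¹ := by group
      _ = y⁻¹ * (y * w) * y⁻¹ := by rw [hwy]
      _ = w * y⁻¹ := by group
  calc (y * z * y⁻¹) * w * (y * z * y⁻¹) = y * z * y⁻¹ * (w * y) * z * y⁻¹ := by group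
    _ = y * z * y⁻¹ * (y * w) * z * y⁻¹ := by rw [hwy]
    _ = y * (z * w * z) * y⁻¹ := by group
    _ = y * (w * z * w) * y⁻¹ := by rw [hwz]
    _ = (y * w) * z * (w * y⁻¹) := by group
    _ = (w * y) * z * (y⁻¹ * w) := by rw [h2, hwy]
    _ = w * (y * z * y⁻¹) * w := by group

private theorem rel_braid' {G : Type*} [Group G] {w x y : G} (hxy : x * y * x = y * x * y)
    (hwy : w * y * w = y * w * y) (hwx : w * x = x * w) :
    x * (y * w * y⁻¹) * x = (y * w * y⁻¹) * x * (y * w * y⁻¹) := by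
  have h1 : y * w * y⁻¹ = w⁻¹ * y * w := by
    calc y * w * y⁻¹ = w⁻¹ * (w * y * w) * y⁻¹ := by group
      _ = w⁻¹ * (y * w * y) * y⁻¹ := by rw [hwy]
      _ = w⁻¹ * y * w := by group
  have h2 : w⁻¹ * x = x * w⁻¹ := by
    calc w⁻¹ * x = w⁻¹ * (x * w) * w⁻¹ := by group
      _ = w⁻¹ * (w * x) * w⁻¹ := by rw [hwx]
      _ = x * w⁻¹ := by group
  rw [h1]
  calc x * (w⁻¹ * y * w) * x = (x * w⁻¹) * y * (w * x) := by group
    _ = (w⁻¹ * x) * y * (x * w) := by rw [h2, hwx]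
    _ = w⁻¹ * (x * y * x) * w := by group
    _ = w⁻¹ * (y * x * y) * w := by rw [hxy]
    _ = w⁻¹ * y * (w * w⁻¹) * x * y * w := by group
    _ = w⁻¹ * y * w * (w⁻¹ * x) * y * w := by group
    _ = w⁻¹ * y * w * (x * w⁻¹) * y * w := by rw [h2]
    _ = (w⁻¹ * y * w) * x * (w⁻¹ * y * w) := by group

private theorem rel_case2 {R : Type*} [Ring R] {x y z w : Rˣ} (hxy : x * y * x = y * x * y)
    (h3 : x * y * z * x = y * z * x * y) (hwz : w * z * w = z * w * z) (hwx : w * x = x * w)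
    (hwy : w * y = y * w) (hf : ((x : R) - 1) * ((w : R) - 1) = 0) :
    ((x : R) - 1) * y * ((z : R) - 1) = 0 := by
  have h1 := rel_comm hxy h3
  have h2 := rel_braid hwz hwy
  obtain ⟨σ, hσ⟩ : ∃ σ, σ = y * z * y⁻¹ := ⟨_, rfl⟩
  rw [← hσ] at h1 h2
  have e1 : ((σ * w : Rˣ) : R) * x = x * ((σ * w : Rˣ) : R) := by
    rw [← Units.val_mul, ← Units.val_mul]
    congr 1
    rw [mul_assoc, hwx, ← mul_assoc, h1, mul_assoc]
  have e2 : ((σ * w : Rˣ) : R) * σ = w * ((σ * w : Rˣ) : R) := by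
    rw [← Units.val_mul, ← Units.val_mul]
    congr 1
    rw [h2, mul_assoc]
  have e3 : ((σ * w : Rˣ) : R) * (((x : R) - 1) * ((σ : R) - 1)) = 0 := by
    calc ((σ * w : Rˣ) : R) * (((x : R) - 1) * ((σ : R) - 1))
        = (((σ * w : Rˣ) : R) * x - ((σ * w : Rˣ) : R)) * ((σ : R) - 1) := by noncomm_ring
      _ = ((x : R) - 1) * (((σ * w : Rˣ) : R) * σ - ((σ * w : Rˣ) : R)) := by
        rw [e1]; noncomm_ring
      _ = (((x : R) - 1) * ((w : R) - 1)) * ((σ * w : Rˣ) : R) := by rw [e2]; noncomm_ring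
      _ = 0 := by rw [hf, zero_mul]
  have e4 : ((x : R) - 1) * ((σ : R) - 1) = 0 := by
    rwa [Units.mul_right_eq_zero] at e3
  have e5 : (σ : R) * y = y * z := by
    rw [← Units.val_mul, ← Units.val_mul, hσ]
    congr 1
    group
  calc ((x : R) - 1) * y * ((z : R) - 1) = ((x : R) - 1) * (y * z - y) := by noncomm_ring
    _ = ((x : R) - 1) * ((σ : R) - 1) * y := by rw [← e5]; noncomm_ring
    _ = 0 := by rw [e4, zero_mul]

private theorem rel_case1 {R : Type*} [Ring R] {x y z w : Rˣ} (hxy : x * y * x = y * x * y)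
    (h3 : x * y * z * x = y * z * x * y) (hwy : w * y * w = y * w * y) (hwx : w * x = x * w)
    (hwz : w * z = z * w) (hf : ((w : R) - 1) * ((z : R) - 1) = 0) :
    ((x : R) - 1) * y * ((z : R) - 1) = 0 := by
  have h1 := rel_comm hxy h3
  have h2 := rel_braid' hxy hwy hwx
  have h4 : (y * w * y⁻¹) * (y * z * y⁻¹) = (y * z * y⁻¹) * (y * w * y⁻¹) := by
    calc (y * w * y⁻¹) * (y * z * y⁻¹) = y * (w * z) * y⁻¹ := by group
      _ = y * (z * w) * y⁻¹ := by rw [hwz]
      _ = _ := by group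
  obtain ⟨σ, hσ⟩ : ∃ σ, σ = y * z * y⁻¹ := ⟨_, rfl⟩
  obtain ⟨τ, hτ⟩ : ∃ τ, τ = y * w * y⁻¹ := ⟨_, rfl⟩
  rw [← hσ] at h1 h4
  rw [← hτ] at h2 h4
  have e1 : ((x * τ : Rˣ) : R) * x = τ * ((x * τ : Rˣ) : R) := by
    rw [← Units.val_mul, ← Units.val_mul]
    congr 1
    rw [h2, mul_assoc]
  have e2 : ((x * τ : Rˣ) : R) * σ = σ * ((x * τ : Rˣ) : R) := by
    rw [← Units.val_mul, ← Units.val_mul]
    congr 1
    rw [mul_assoc, h4, ← mul_assoc, ← h1, mul_assoc]
  have e5 : (σ : R) * y = y * z := by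
    rw [← Units.val_mul, ← Units.val_mul, hσ]
    congr 1
    group
  have e6 : (τ : R) * y = y * w := by
    rw [← Units.val_mul, ← Units.val_mul, hτ]
    congr 1
    group
  have e7 : ((τ : R) - 1) * ((σ : R) - 1) = 0 := by
    have : ((τ : R) - 1) * ((σ : R) - 1) * y = 0 := by
      calc ((τ : R) - 1) * ((σ : R) - 1) * y = ((τ : R) - 1) * (σ * y - y) := by noncomm_ring
        _ = (τ * y - y) * ((z : R) - 1) := by rw [e5]; noncomm_ring
        _ = y * (((w : R) - 1) * ((z : R) - 1)) := by rw [e6]; noncomm_ring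
        _ = 0 := by rw [hf, mul_zero]
    rwa [Units.mul_left_eq_zero] at this
  have e3 : ((x * τ : Rˣ) : R) * (((x : R) - 1) * ((σ : R) - 1)) = 0 := by
    calc ((x * τ : Rˣ) : R) * (((x : R) - 1) * ((σ : R) - 1))
        = (((x * τ : Rˣ) : R) * x - ((x * τ : Rˣ) : R)) * ((σ : R) - 1) := by noncomm_ring
      _ = ((τ : R) - 1) * (((x * τ : Rˣ) : R) * σ - ((x * τ : Rˣ) : R)) := by
        rw [e1]; noncomm_ring
      _ = (((τ : R) - 1) * ((σ : R) - 1)) * ((x * τ : Rˣ) : R) := by rw [e2]; noncomm_ring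
      _ = 0 := by rw [e7, zero_mul]
  have e4 : ((x : R) - 1) * ((σ : R) - 1) = 0 := by
    rwa [Units.mul_right_eq_zero] at e3
  calc ((x : R) - 1) * y * ((z : R) - 1) = ((x : R) - 1) * (y * z - y) := by noncomm_ring
    _ = ((x : R) - 1) * ((σ : R) - 1) * y := by rw [← e5]; noncomm_ring
    _ = 0 := by rw [e4, zero_mul]

/-- (A4) -/
theorem rel4 {l u : Fin n → ℤ} (hs : ∀ c, l c + 2 ≤ u c) {a b : Fin n} (hab : a ≠ b)
    {s : (Fin n → ℤ) → Module.End K V} (hG : Good (Box l u) s) :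
    ∀ x ∈ Box l u, ∀ y ∈ Box l u, ∀ z ∈ Box l u, Lt x y → Lt y z → Lt x z →
      (s x - 1) * (s z - 1) = - ((s x - 1) * (s y - 1) * (s z - 1)) := by
  intro x hx y hy z hz hxy hyz hxz
  have hun : ∀ v ∈ Box l u, ∃ g : (Module.End K V)ˣ, (g : Module.End K V) = s v := by
    intro v hv
    have h1 := hG.inj v hv
    have h2 : Function.Surjective (s v) := LinearMap.injective_iff_surjective.1 h1
    exact (Module.End.isUnit_iff _).2 ⟨h1, h2⟩
  obtain ⟨X, hX⟩ := hun x hx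
  obtain ⟨Y, hY⟩ := hun y hy
  obtain ⟨Z, hZ⟩ := hun z hz
  have e : (s x - 1) * s y * (s z - 1) = 0 := by
    have hxy' : X * Y * X = Y * X * Y := by
      apply Units.ext
      simp only [Units.val_mul, hX, hY]
      exact hG.sys.braid x hx y hy (Or.inl hxy)
    have h3 : X * Y * Z * X = Y * Z * X * Y := by
      apply Units.ext
      simp only [Units.val_mul, hX, hY, hZ]
      exact hG.sys.tri x hx y hy z hz hxy hyz hxz
    rw [← hX, ← hY, ← hZ]
    rcases tri_cases hs hx hy hz hxy hyz hxz with ⟨w, hw, hwy, hwx, hwz⟩ | ⟨w, hw, hwz, hwx, hwy⟩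
    · obtain ⟨W, hW⟩ := hun w hw
      refine rel_case1 (w := W) hxy' h3 ?_ ?_ ?_ ?_
      · apply Units.ext
        simp only [Units.val_mul, hY, hW]
        exact hG.sys.braid w hw y hy hwy
      · apply Units.ext
        simp only [Units.val_mul, hX, hW]
        exact hG.sys.comm w hw x hx hwx
      · apply Units.ext
        simp only [Units.val_mul, hZ, hW]
        exact hG.sys.comm w hw z hz hwz
      · rw [hW, hZ]
        exact hG.far w hw z hz hwz
    · obtain ⟨W, hW⟩ := hun w hw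
      refine rel_case2 (w := W) hxy' h3 ?_ ?_ ?_ ?_
      · apply Units.ext
        simp only [Units.val_mul, hZ, hW]
        exact hG.sys.braid w hw z hz hwz
      · apply Units.ext
        simp only [Units.val_mul, hX, hW]
        exact hG.sys.comm w hw x hx hwx
      · apply Units.ext
        simp only [Units.val_mul, hY, hW]
        exact hG.sys.comm w hw y hy hwy
      · rw [hW, hX]
        exact hG.far x hx w hw hwx.symm
  have e' : (s x - 1) * (s z - 1) = (s x - 1) * s y * (s z - 1) -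
      (s x - 1) * (s y - 1) * (s z - 1) := by noncomm_ring
  rw [e', e, zero_sub]

end Pool.Agent.HypLow
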