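import Pool.Agent.Lib.HypLow.CombA

/-! # The vectors (2.8) -/

namespace Pool.Agent.HypLow

variable {n : ℕ} {K V : Type*} [Field K] [AddCommGroup V] [Module K V]

/-- the largest point `≤ u` which is `x` or above `x` -/
def upp (u x : Fin n → ℤ) : Fin n → ℤ := fun c => if x c < u c then x c + 1 else x c

theorem upp_mem {l u x : Fin n → ℤ} (hx : x ∈ Box l u) : upp u x ∈ Box l u := by
  intro c
  have := hx c
  simp only [upp]
  split_ifs with h
  · omega
  · omega

theorem lt_upp {l u x : Fin n → ℤ} (hx : x ∈ Box l u) (hne : x ≠ u) : Lt x (upp u x) := by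
  refine ⟨fun e => hne ?_, fun c => ?_⟩
  · funext c
    have h1 := congrFun e c
    have := hx c
    simp only [upp] at h1
    split_ifs at h1 with h
    · omega
    · omega
  · simp only [upp]
    split_ifs with h
    · omega
    · omega

theorem lt_upp_of_lt {l u x y : Fin n → ℤ} (hx : x ∈ Box l u) (hy : y ∈ Box l u) (h : Lt x y)
    (hne : y ≠ upp u x) : Lt y (upp u x) := by
  refine ⟨hne, fun c => ?_⟩
  have h1 := hx c
  have h2 := hy c
  have h3 := h.2 c
  simp only [upp]
  split_ifs with h4
  · omega
  · omega

theorem ne_of_lt {l u x y : Fin n → ℤ} (hx : x ∈ Box l u) (hy : y ∈ Box l u) (h : Lt x y) :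
    x ≠ u := by
  rintro rfl
  apply h.1
  funext c
  have h2 := hy c
  have h3 := h.2 c
  omega

theorem sum_lt_of_lt (u : Fin n → ℤ) {x y : Fin n → ℤ} (h : Lt x y) :
    ∑ c, (u c - y c) < ∑ c, (u c - x c) := by
  apply Finset.sum_lt_sum
  · intro c _
    have := h.2 c
    omega
  · by_contra hc
    apply h.1
    funext c
    by_contra h1
    apply hc
    refine ⟨c, Finset.mem_univ c, ?_⟩
    have := h.2 c
    omega

theorem sum_nonneg_of_mem {l u x : Fin n → ℤ} (hx : x ∈ Box l u) : 0 ≤ ∑ c, (u c - x c) :=
  Finset.sum_nonneg fun c _ => by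
    have := hx c
    omega

open Classical in
/-- the vectors of (2.8), as an iteration of length `k` -/
noncomputable def vecs (u : Fin n → ℤ) (A : (Fin n → ℤ) → Module.End K V) (m : V) :
    ℕ → (Fin n → ℤ) → V
  | 0, _ => m
  | k + 1, x => if x = u then m else - A x (vecs u A m k (upp u x))

theorem vecs_succ {l u : Fin n → ℤ} (A : (Fin n → ℤ) → Module.End K V) (m : V) (k : ℕ) :
    ∀ x ∈ Box l u, ∑ c, (u c - x c) ≤ k → vecs u A m (k + 1) x = vecs u A m k x := by
  induction k with
  | zero =>
    intro x hx hk
    have hxu : x = u := by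
      by_contra hne
      have h1 := sum_lt_of_lt u (lt_upp hx hne)
      have h2 := sum_nonneg_of_mem (upp_mem hx)
      push_cast at hk
      omega
    simp [vecs, hxu]
  | succ k ih =>
    intro x hx hk
    by_cases hxu : x = u
    · simp [vecs, hxu]
    · have h1 := sum_lt_of_lt u (lt_upp hx hxu)
      have h3 := ih _ (upp_mem hx) (by push_cast at hk; omega)
      rw [vecs, if_neg hxu, h3, vecs, if_neg hxu]

/-- there are vectors with `e u = m` and `e x = - A x (e (upp u x))` -/
theorem exists_vecs {l u : Fin n → ℤ} (A : (Fin n → ℤ) → Module.End K V) (m : V) :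
    ∃ e : (Fin n → ℤ) → V, e u = m ∧
      ∀ x ∈ Box l u, x ≠ u → e x = - A x (e (upp u x)) := by
  refine ⟨fun x => vecs u A m (∑ c, (u c - l c)).toNat x, ?_, ?_⟩
  · cases h : (∑ c, (u c - l c)).toNat <;> simp [vecs]
  · intro x hx hne
    have hle : ∀ y ∈ Box l u, ∑ c, (u c - y c) ≤ ∑ c, (u c - l c) := fun y hy =>
      Finset.sum_le_sum fun c _ => by
        have := hy c
        omega
    have h1 := sum_lt_of_lt u (lt_upp hx hne)
    have h2 := hle x hx
    have h3 := sum_nonneg_of_mem (upp_mem hx)
    obtain ⟨k, hk⟩ : ∃ k, (∑ c, (u c - l c)).toNat = k + 1 := ⟨(∑ c, (u c - l c)).toNat - 1, by omega⟩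
    simp only [hk]
    rw [vecs_succ (l := l) A m k (upp u x) (upp_mem hx) (by omega), vecs, if_neg hne]

/-- (2.8) -/
theorem exists_pham [IsAlgClosed K] [FiniteDimensional K V] {l u : Fin n → ℤ}
    (hs : ∀ c, l c + 2 ≤ u c) {A : (Fin n → ℤ) → Module.End K V}
    (hinj : ∀ x ∈ Box l u, Function.Injective ⇑(A x + 1 : Module.End K V))
    (hirr : ∀ W : Submodule K V, (∀ x ∈ Box l u, ∀ w ∈ W, A x w ∈ W) → W = ⊥ ∨ W = ⊤)
    (hne : ∃ x ∈ Box l u, A x ≠ 0)
    (h1 : ∀ x ∈ Box l u, ∀ y ∈ Box l u, Far x y → A x * A y = 0)
    (h2 : ∀ x ∈ Box l u, ∀ y ∈ Box l u, Adj x y → A x * A y * A x = - A x - A x * A x)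
    (h4 : ∀ x ∈ Box l u, ∀ y ∈ Box l u, ∀ z ∈ Box l u, Lt x y → Lt y z → Lt x z →
      A x * A z = - (A x * A y * A z)) :
    ∃ (q : K) (e : (Fin n → ℤ) → V), Pham (Box l u) A q e := by
  have hu : u ∈ Box l u := fun c => by
    have := hs c
    omega
  -- no `A x` is zero
  have hz : ∀ x ∈ Box l u, A x ≠ 0 := by
    have step : ∀ x ∈ Box l u, ∀ y ∈ Box l u, Adj x y → A x = 0 → A y = 0 := by
      intro x hx y hy hxy h0
      have h3 := h2 y hy x hx hxy.symm
      rw [h0, mul_zero, zero_mul] at h3
      ext v
      apply hinj y hy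
      have h4 := congrArg (fun f : Module.End K V => f v) h3
      simp only [LinearMap.zero_apply, LinearMap.sub_apply, LinearMap.neg_apply,
        Module.End.mul_apply] at h4
      simp only [LinearMap.add_apply, Module.End.one_apply, LinearMap.zero_apply, map_zero]
      have h5 : A y (A y v) + A y v = -(-(A y v) - A y (A y v)) := by abel
      rw [h5, ← h4, neg_zero]
    have hc := box_connected (l := l) (u := u) (fun x => A x = 0) (fun x hx y hy hxy =>
      propext ⟨step x hx y hy hxy, step y hy x hx hxy.symm⟩)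
    obtain ⟨x, hx, h0⟩ := hne
    intro y hy hy0
    exact h0 ((hc x hx y hy).mpr hy0)
  -- the eigenvector
  obtain ⟨a, m, m0, ma, w, hw⟩ : ∃ (a : K) (m : V), m ≠ 0 ∧ A u m = a • m ∧ ∃ w, m = A u w := by
    have hr : ∀ v ∈ LinearMap.range (A u), A u v ∈ LinearMap.range (A u) := fun v _ => ⟨v, rfl⟩
    have hnt : Nontrivial (LinearMap.range (A u)) := by
      rw [Submodule.nontrivial_iff_ne_bot]
      intro h0
      exact hz u hu (LinearMap.range_eq_bot.mp h0)
    obtain ⟨a, ha⟩ := Module.End.exists_eigenvalue ((A u).restrict hr)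
    obtain ⟨v, hv⟩ := ha.exists_hasEigenvector
    refine ⟨a, v, fun h => hv.2 (Subtype.ext h), ?_, ?_⟩
    · have := hv.apply_eq_smul
      have h5 := congrArg Subtype.val this
      simpa using h5
    · obtain ⟨w, hw⟩ := v.2
      exact ⟨w, hw.symm⟩
  obtain ⟨e, e0, e1⟩ := exists_vecs (l := l) (u := u) A m
  have him : ∀ x ∈ Box l u, ∃ w, e x = A x w := by
    intro x hx
    by_cases hxu : x = u
    · subst hxu
      exact ⟨w, e0.trans hw⟩
    · exact ⟨- e (upp u x), by rw [e1 x hx hxu, map_neg]⟩
  -- the relations
  have up : ∀ N : ℕ, ∀ x ∈ Box l u, (∑ c, (u c - x c)).toNat = N →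
      ∀ y ∈ Box l u, Lt x y → A x (e y) = - e x := by
    intro N
    induction N using Nat.strong_induction_on with
    | _ N ih =>
      intro x hx hN y hy hxy
      have hxu := ne_of_lt hx hy hxy
      have hzB := upp_mem hx
      have hxz := lt_upp hx hxu
      have hxz' : A x (e (upp u x)) = - e x := by
        rw [e1 x hx hxu, neg_neg]
      by_cases hyz : y = upp u x
      · rw [hyz]
        exact hxz'
      · have hyz' := lt_upp_of_lt hx hy hxy hyz
        have hs1 := sum_lt_of_lt u hxy
        have hs2 := sum_nonneg_of_mem hy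
        have h5 := ih _ (by omega) y hy rfl _ hzB hyz'
        obtain ⟨w', hw'⟩ := him _ hzB
        have h6 := congrArg (fun f : Module.End K V => f w') (h4 x hx y hy _ hzB hxy hyz' hxz)
        simp only [LinearMap.neg_apply, Module.End.mul_apply] at h6
        rw [← hw', h5, map_neg, neg_neg] at h6
        rw [← h6, hxz']
  have up' : ∀ x ∈ Box l u, ∀ y ∈ Box l u, Lt x y → A x (e y) = - e x := fun x hx y hy h =>
    up _ x hx rfl y hy h
  have h3 : ∀ x ∈ Box l u, ∀ y ∈ Box l u, Adj x y → A x * A x * A y = A x * A y * A y := by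
    intro x hx y hy h
    have h5 := congrArg (fun f => f * A y) (h2 x hx y hy h)
    have h6 := congrArg (fun f => A x * f) (h2 y hy x hx h.symm)
    have h7 : A x * A x * A y = - (A x * A y * A x * A y) - A x * A y := by
      rw [h5]
      noncomm_ring
    have h8 : A x * A y * A y = - (A x * (A y * A x * A y)) - A x * A y := by
      rw [h6]
      noncomm_ring
    rw [h7, h8]
    noncomm_ring
  have self : ∀ N : ℕ, ∀ x ∈ Box l u, (∑ c, (u c - x c)).toNat = N → A x (e x) = a • e x := by
    intro N
    induction N using Nat.strong_induction_on with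
    | _ N ih =>
      intro x hx hN
      by_cases hxu : x = u
      · subst hxu
        rw [e0, ma]
      · have hzB := upp_mem hx
        have hxz := lt_upp hx hxu
        have hs1 := sum_lt_of_lt u hxz
        have hs2 := sum_nonneg_of_mem hzB
        have h5 := ih _ (by omega) _ hzB rfl
        obtain ⟨w', hw'⟩ := him _ hzB
        have h6 := congrArg (fun f : Module.End K V => f w') (h3 x hx _ hzB (Or.inl hxz))
        simp only [Module.End.mul_apply] at h6
        rw [← hw', h5, up' x hx _ hzB hxz, map_neg, map_smul, up' x hx _ hzB hxz, smul_neg,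
          neg_inj] at h6
        exact h6
  have self' : ∀ x ∈ Box l u, A x (e x) = a • e x := fun x hx => self _ x hx rfl
  have down : ∀ x ∈ Box l u, ∀ y ∈ Box l u, Lt x y → A y (e x) = (1 + a) • e y := by
    intro x hx y hy h
    obtain ⟨w', hw'⟩ := him y hy
    have h6 := congrArg (fun f : Module.End K V => f w') (h2 y hy x hx (Or.inr h))
    simp only [LinearMap.neg_apply, LinearMap.sub_apply, Module.End.mul_apply] at h6
    rw [← hw', up' x hx y hy h, map_neg, self' y hy] at h6
    rw [add_smul, one_smul]
    have h7 : A y (e x) = - (- (A y (e x))) := (neg_neg _).symm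
    rw [h7, h6]
    abel
  have far : ∀ x ∈ Box l u, ∀ y ∈ Box l u, Far x y → A x (e y) = 0 := by
    intro x hx y hy h
    obtain ⟨w', hw'⟩ := him y hy
    have h6 := congrArg (fun f : Module.End K V => f w') (h1 x hx y hy h)
    simp only [LinearMap.zero_apply, Module.End.mul_apply] at h6
    rw [hw', h6]
  have cases : ∀ x y : Fin n → ℤ, x = y ∨ Lt x y ∨ Lt y x ∨ Far x y := by
    intro x y
    by_cases h : x = y
    · exact Or.inl h
    · by_cases h' : Adj x y
      · rcases h' with h' | h'
        · exact Or.inr (Or.inl h')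
        · exact Or.inr (Or.inr (Or.inl h'))
      · exact Or.inr (Or.inr (Or.inr ⟨h, h'⟩))
  have span : Submodule.span K (e '' Box l u) = ⊤ := by
    refine (hirr _ ?_).resolve_left ?_
    · intro x hx v hv
      induction hv using Submodule.span_induction with
      | mem v hv =>
        obtain ⟨y, hy, rfl⟩ := hv
        have hex : e x ∈ Submodule.span K (e '' Box l u) := Submodule.subset_span ⟨x, hx, rfl⟩
        rcases cases x y with rfl | h | h | h
        · rw [self' x hx]
          exact Submodule.smul_mem _ _ hex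
        · rw [up' x hx y hy h]
          exact Submodule.neg_mem _ hex
        · rw [down y hy x hx h]
          exact Submodule.smul_mem _ _ hex
        · rw [far x hx y hy h]
          exact Submodule.zero_mem _
      | zero =>
        rw [map_zero]
        exact Submodule.zero_mem _
      | add v v' _ _ h h' =>
        rw [map_add]
        exact Submodule.add_mem _ h h'
      | smul c v _ h =>
        rw [map_smul]
        exact Submodule.smul_mem _ _ h
    · intro h0
      have : m ∈ Submodule.span K (e '' Box l u) := Submodule.subset_span ⟨u, hu, e0⟩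
      rw [h0] at this
      exact m0 ((Submodule.mem_bot K).mp this)
  refine ⟨-(1 + a), e, ?_, ?_, span, ?_, up', ?_, far⟩
  · intro h0
    apply m0
    apply hinj u hu
    have h5 : (1 : K) + a = 0 := by
      rw [← neg_eq_zero]
      exact h0
    rw [LinearMap.add_apply, Module.End.one_apply, ma, map_zero]
    have h6 : a • m + m = (1 + a) • m := by
      rw [add_smul, one_smul]
      abel
    rw [h6, h5, zero_smul]
  · intro x hx h0
    apply hz x hx
    have : ∀ v ∈ Submodule.span K (e '' Box l u), A x v = 0 := by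
      intro v hv
      induction hv using Submodule.span_induction with
      | mem v hv =>
        obtain ⟨y, hy, rfl⟩ := hv
        rcases cases x y with rfl | h | h | h
        · rw [self' x hx, h0, smul_zero]
        · rw [up' x hx y hy h, h0, neg_zero]
        · rw [down y hy x hx h, h0, smul_zero]
        · exact far x hx y hy h
      | zero => exact map_zero _
      | add v v' _ _ h h' => rw [map_add, h, h', add_zero]
      | smul c v _ h => rw [map_smul, h, smul_zero]
    ext v
    rw [LinearMap.zero_apply]
    exact this v (by rw [span]; trivial)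
  · intro x hx
    rw [self' x hx, ← neg_smul]
    congr 1
    ring
  · intro x hx y hy h
    rw [down x hx y hy h, ← neg_smul, neg_neg]

end Pool.Agent.HypLow
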