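import Pool.Agent.Lib.HypLow.Mu
import Pool.Agent.Lib.HypLow.FarPairs
import Pool.Agent.Lib.HypLow.Rel
import Pool.Agent.Lib.HypLow.VecA

/-! # Irreducible systems (Proposition 2) -/

namespace Pool.Agent.HypLow

universe v

variable {n : ℕ} {K : Type*} {V : Type v} [Field K] [IsAlgClosed K] [AddCommGroup V] [Module K V]
  [FiniteDimensional K V]

theorem irreducible_pham {l u : Fin n → ℤ} (hs : ∀ c, l c + 2 ≤ u c) {a b : Fin n} (hab : a ≠ b)
    (ha : l a + 4 ≤ u a) (hb : l b + 4 ≤ u b) {k : ℕ}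
    (hN1 : Nab.{v} K (Function.update l a (l a + 2)) u k)
    (hN2 : Nab.{v} K l (Function.update u a (u a - 2)) k)
    (hN3 : Nab.{v} K (Function.update l b (l b + 2)) u k)
    {t : (Fin n → ℤ) → Module.End K V} (hinj : ∀ x ∈ Box l u, Function.Injective (t x))
    (hS : Sys (Box l u) t)
    (hirr : ∀ W : Submodule K V, (∀ x ∈ Box l u, ∀ w ∈ W, t x w ∈ W) → W = ⊥ ∨ W = ⊤)
    (hnf : ∃ x ∈ Box l u, ∃ y ∈ Box l u, t x ≠ t y)
    (hr : Module.finrank K V < 2 * k) :
    ∃ μ : K, μ ≠ 0 ∧ ∃ (q : K) (e : (Fin n → ℤ) → V),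
      Pham (Box l u) (fun x => μ⁻¹ • t x - 1) q e := by
  obtain ⟨μ, hμ, m1, m2⟩ := exists_mu hs hab ha hb hN1 hN2 hN3 hinj hS hnf hr
  have hcp := corner_pair hs ha hS hirr hnf m1 m2
  have hμi : μ⁻¹ ≠ 0 := inv_ne_zero hμ
  set s : (Fin n → ℤ) → Module.End K V := fun x => μ⁻¹ • t x with hs_def
  have hSs : Sys (Box l u) s := hS.smul μ⁻¹
  have hsinj : ∀ x ∈ Box l u, Function.Injective (s x) := by
    intro x hx v w h
    have h' : μ⁻¹ • t x v = μ⁻¹ • t x w := h
    exact hinj x hx (smul_right_injective V hμi h')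
  have hssurj : ∀ x ∈ Box l u, Function.Surjective (s x) := fun x hx =>
    LinearMap.injective_iff_surjective.1 (hsinj x hx)
  have hirrs : ∀ W : Submodule K V, (∀ x ∈ Box l u, ∀ w ∈ W, s x w ∈ W) → W = ⊥ ∨ W = ⊤ := by
    intro W hW
    refine hirr W fun x hx w hw => ?_
    have h := W.smul_mem μ (hW x hx w hw)
    have h' : μ • (s x w) = t x w := by
      show μ • (μ⁻¹ • t x w) = t x w
      rw [smul_smul, mul_inv_cancel₀ hμ, one_smul]
    rwa [h'] at h
  have hnfs : ∃ x ∈ Box l u, ∃ y ∈ Box l u, s x ≠ s y := by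
    obtain ⟨x, hx, y, hy, hne⟩ := hnf
    refine ⟨x, hx, y, hy, fun h => hne ?_⟩
    have h' : μ⁻¹ • t x = μ⁻¹ • t y := h
    ext w
    have h2 : μ⁻¹ • t x w = μ⁻¹ • t y w := LinearMap.congr_fun h' w
    exact smul_right_injective V hμi h2
  have key : ∀ x, s x - 1 = μ⁻¹ • (t x - algebraMap K (Module.End K V) μ) := by
    intro x
    ext w
    show μ⁻¹ • t x w - w = μ⁻¹ • (t x w - (algebraMap K (Module.End K V) μ) w)
    rw [Module.algebraMap_end_apply, smul_sub, smul_smul, inv_mul_cancel₀ hμ, one_smul]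
  have hfar1 : ∃ v ∈ Box l u, ∃ w ∈ Box l u, Far v w ∧ (s v - 1) * (s w - 1) = 0 := by
    refine ⟨Function.update l a (u a), ?_, l, ?_, ?_, ?_⟩
    · intro c
      by_cases hc : c = a
      · subst hc
        rw [Function.update_self]
        constructor <;> omega
      · rw [Function.update_of_ne hc]
        have := hs c
        constructor <;> omega
    · intro c
      have := hs c
      constructor <;> omega
    · refine (far_of_le a ?_).symm
      rw [Function.update_self]
      omega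
    · rw [key, key, smul_mul_smul_comm, hcp, smul_zero]
  have hfar := far_pairs hs hab hSs hssurj hsinj hfar1
  have hG : Good (Box l u) s := ⟨hSs, hsinj, hirrs, hnfs, hfar⟩
  refine ⟨μ, hμ, ?_⟩
  have hadd : ∀ x, (s x - 1 : Module.End K V) + 1 = s x := fun x => sub_add_cancel _ _
  refine exists_pham (A := fun x => s x - 1) hs ?_ ?_ ?_ hfar (rel2 hs hab hG) (rel4 hs hab hG)
  · intro x hx
    show Function.Injective ⇑((s x - 1 : Module.End K V) + 1)
    rw [hadd]
    exact hsinj x hx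
  · intro W hW
    refine hirrs W fun x hx w hw => ?_
    have h : s x w = (s x - 1 : Module.End K V) w + w := by
      show s x w = s x w - w + w
      rw [sub_add_cancel]
    rw [h]
    exact W.add_mem (hW x hx w hw) hw
  · obtain ⟨x, hx, y, hy, hne⟩ := hnfs
    by_contra hcon
    push Not at hcon
    exact hne (by rw [sub_eq_zero.1 (hcon x hx), sub_eq_zero.1 (hcon y hy)])

end Pool.Agent.HypLow
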