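import Pool.Agent.Lib.HypLow.Ext

/-! # Moving edges (M) and the image of the differences -/

namespace Pool.Agent.HypLow

variable {n : ℕ} {K V : Type*} [Field K] [AddCommGroup V] [Module K V]

theorem move_cancel {D g : Module.End K V} (hg : Function.Surjective g) (h : D * g = 0) : D = 0 := by
  refine LinearMap.ext fun w => ?_
  obtain ⟨y, rfl⟩ := hg w
  exact LinearMap.congr_fun h y

/-- (M) if `D` commutes with all `t x` of the box and `(t v - t w) * D = 0` for one edge then the
same is true for any two points. -/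
theorem move_edge {l u : Fin n → ℤ} (hs : ∀ c, l c + 2 ≤ u c) {t : (Fin n → ℤ) → Module.End K V}
    (hsurj : ∀ x ∈ Box l u, Function.Surjective (t x)) (hS : Sys (Box l u) t)
    {D : Module.End K V} (hD : ∀ x ∈ Box l u, t x * D = D * t x)
    (h : ∃ v ∈ Box l u, ∃ w ∈ Box l u, Adj v w ∧ (t v - t w) * D = 0) :
    ∀ x ∈ Box l u, ∀ y ∈ Box l u, (t x - t y) * D = 0 := by
  have key : ∀ v ∈ Box l u, ∀ w ∈ Box l u, Adj v w → (t v - t w) * D = 0 := by
    refine edge_induction hs (fun v w => (t v - t w) * D = 0) ?_ ?_ h
    · intro v _ w _ _ h0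
      have h1 : (t v - t w) * D = 0 := h0
      have h2 : t w - t v = -(t v - t w) := by abel
      show (t w - t v) * D = 0
      rw [h2, neg_mul, h1, neg_zero]
    · intro v hv w hw z hz hvw hwz hvz h0
      have h1 : (t v - t w) * D = 0 := h0
      show (t w - t z) * D = 0
      have b1 := hS.braid v hv w hw hvw
      have b2 := hS.braid w hw z hz hwz
      have c1 := hS.comm v hv z hz hvz
      have e1 : t w * (t v * t w * t z) = t v * t w * t z * t v := by
        calc t w * (t v * t w * t z) = (t w * t v * t w) * t z := by noncomm_ring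
          _ = (t v * t w * t v) * t z := by rw [b1]
          _ = t v * t w * (t v * t z) := by noncomm_ring
          _ = t v * t w * (t z * t v) := by rw [c1]
          _ = _ := by noncomm_ring
      have e2 : t z * (t v * t w * t z) = t v * t w * t z * t w := by
        calc t z * (t v * t w * t z) = (t z * t v) * t w * t z := by noncomm_ring
          _ = (t v * t z) * t w * t z := by rw [c1]
          _ = t v * (t z * t w * t z) := by noncomm_ring
          _ = t v * (t w * t z * t w) := by rw [b2]
          _ = _ := by noncomm_ring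
      have e3 : D * (t v * t w * t z) = t v * t w * t z * D := by
        calc D * (t v * t w * t z) = (D * t v) * t w * t z := by noncomm_ring
          _ = (t v * D) * t w * t z := by rw [hD v hv]
          _ = t v * (D * t w) * t z := by noncomm_ring
          _ = t v * (t w * D) * t z := by rw [hD w hw]
          _ = t v * t w * (D * t z) := by noncomm_ring
          _ = t v * t w * (t z * D) := by rw [hD z hz]
          _ = _ := by noncomm_ring
      refine move_cancel (g := t v * t w * t z)
        ((hsurj v hv).comp ((hsurj w hw).comp (hsurj z hz))) ?_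
      rw [mul_assoc, e3, ← mul_assoc, sub_mul, e1, e2, ← mul_sub, mul_assoc, h1, mul_zero]
  intro x hx y hy
  have h2 := box_connected (fun x => t x * D) (fun x hx y hy hxy => by
    have := key x hx y hy hxy
    rwa [sub_mul, sub_eq_zero] at this) x hx y hy
  rw [sub_mul, sub_eq_zero]
  exact h2

/-- the differences of the operators below and above the layer `g + 1` annihilate each other -/
def Sep (l u : Fin n → ℤ) (c : Fin n) (g : ℤ) (t : (Fin n → ℤ) → Module.End K V) : Prop :=
  ∀ x ∈ Box l u, ∀ y ∈ Box l u, ∀ z ∈ Box l u, ∀ w ∈ Box l u, x c ≤ g → y c ≤ g →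
    g + 2 ≤ z c → g + 2 ≤ w c → (t x - t y) * (t z - t w) = 0

theorem Sep.flip {l u : Fin n → ℤ} {c : Fin n} {g : ℤ} {t : (Fin n → ℤ) → Module.End K V}
    (h : Sep l u c g t) (hS : Sys (Box l u) t) {x y z w : Fin n → ℤ} (hx : x ∈ Box l u)
    (hy : y ∈ Box l u) (hz : z ∈ Box l u) (hw : w ∈ Box l u) (h1 : x c ≤ g) (h2 : y c ≤ g)
    (h3 : g + 2 ≤ z c) (h4 : g + 2 ≤ w c) : (t z - t w) * (t x - t y) = 0 := by
  have e := h x hx y hy z hz w hw h1 h2 h3 h4
  have c1 := hS.comm x hx z hz (far_of_le c (by omega))
  have c2 := hS.comm x hx w hw (far_of_le c (by omega))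
  have c3 := hS.comm y hy z hz (far_of_le c (by omega))
  have c4 := hS.comm y hy w hw (far_of_le c (by omega))
  rw [← e, sub_mul, mul_sub, mul_sub, sub_mul, mul_sub, mul_sub, c1, c2, c3, c4]
  abel

/-- the span of the images of the differences `t u - t v`, `u ~ v` in the box -/
def DiffSpan (B : Set (Fin n → ℤ)) (t : (Fin n → ℤ) → Module.End K V) : Submodule K V :=
  Submodule.span K {y | ∃ p ∈ B, ∃ q ∈ B, Adj p q ∧ ∃ w, y = t p w - t q w}

theorem diffSpan_mem {l u : Fin n → ℤ} {t : (Fin n → ℤ) → Module.End K V} {x y : Fin n → ℤ}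
    (hx : x ∈ Box l u) (hy : y ∈ Box l u) (w : V) : t x w - t y w ∈ DiffSpan (Box l u) t := by
  rw [← Submodule.Quotient.eq]
  exact box_connected (fun x => (Submodule.Quotient.mk (t x w) : V ⧸ DiffSpan (Box l u) t))
    (fun x hx y hy h => (Submodule.Quotient.eq _).2
      (Submodule.subset_span ⟨x, hx, y, hy, h, w, rfl⟩)) x hx y hy

/-- every linear map which kills the images of the edge differences kills the span -/
theorem diffSpan_le {B : Set (Fin n → ℤ)} {t : (Fin n → ℤ) → Module.End K V} {W : Submodule K V}
    (h : ∀ p ∈ B, ∀ q ∈ B, Adj p q → ∀ w, t p w - t q w ∈ W) : DiffSpan B t ≤ W := by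
  refine Submodule.span_le.2 ?_
  rintro y ⟨p, hp, q, hq, hpq, w, rfl⟩
  exact h p hp q hq hpq w

/-- (N1) the span is stable under the system of the box -/
theorem diffSpan_stable {l u : Fin n → ℤ} (a : Fin n) (ha : l a + 4 ≤ u a)
    {t : (Fin n → ℤ) → Module.End K V} (hS : Sys (Box l u) t) {x : Fin n → ℤ} (hx : x ∈ Box l u)
    {y : V} (hy : y ∈ DiffSpan (Box l u) t) : t x y ∈ DiffSpan (Box l u) t := by
  have h : DiffSpan (Box l u) t ≤ (DiffSpan (Box l u) t).comap (t x) := by
    refine diffSpan_le fun p hp q hq hpq w => ?_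
    rw [Submodule.mem_comap]
    obtain ⟨z, hz, h1, h2⟩ := far_vertex a ha hp hq hpq
    have e1 : t z (t p w - t q w) = t p (t z w) - t q (t z w) := by
      have c1 := LinearMap.congr_fun (hS.comm p hp z hz h1) w
      have c2 := LinearMap.congr_fun (hS.comm q hq z hz h2) w
      simp only [Module.End.mul_apply] at c1 c2
      rw [map_sub, ← c1, ← c2]
    have e2 : t x (t p w - t q w) = (t x (t p w - t q w) - t z (t p w - t q w)) +
        (t p (t z w) - t q (t z w)) := by
      rw [← e1]
      abel
    rw [e2]
    exact Submodule.add_mem _ (diffSpan_mem hx hz _) (diffSpan_mem hp hq _)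
  exact h hy

end Pool.Agent.HypLow
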