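import Pool.Agent.Lib.HypLow.Split
import Pool.Agent.Lib.HypLow.Edge

/-! # The common eigenvalue (2.2) -/

namespace Pool.Agent.HypLow

universe v

variable {n : ℕ}

theorem adj_update (x : Fin n → ℤ) (a : Fin n) : Adj x (Function.update x a (x a + 1)) := by
  left
  refine ⟨fun h => ?_, fun c => ?_⟩
  · have h1 := congrFun h a
    rw [Function.update_self] at h1
    omega
  · by_cases hc : c = a
    · subst hc
      rw [Function.update_self]
      omega
    · rw [Function.update_of_ne hc]
      omega

/-- the property `t x` is flat on the image of `T - μ` -/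
def FlatOn {K V : Type*} [Field K] [AddCommGroup V] [Module K V] (B : Set (Fin n → ℤ))
    (t : (Fin n → ℤ) → Module.End K V) (T : Module.End K V) (μ : K) : Prop :=
  ∀ x ∈ B, ∀ y ∈ B, ∀ w, t x (T w - μ • w) = t y (T w - μ • w)

variable {K : Type*} {V : Type v} [Field K] [IsAlgClosed K] [AddCommGroup V] [Module K V]
  [FiniteDimensional K V]

omit [IsAlgClosed K] in
theorem FlatOn.conj {B : Set (Fin n → ℤ)} {t : (Fin n → ℤ) → Module.End K V}
    {T T' : Module.End K V} {μ : K} (h : FlatOn B t T μ) (hbr : T * T' * T = T' * T * T')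
    (h1 : ∀ x ∈ B, T * t x = t x * T) (h2 : ∀ x ∈ B, T' * t x = t x * T')
    (i1 : Function.Injective T) (i2 : Function.Injective T') : FlatOn B t T' μ := by
  intro x hx y hy w
  have hs : Function.Surjective (T * T' : Module.End K V) :=
    LinearMap.injective_iff_surjective.1 (i1.comp i2)
  obtain ⟨w, rfl⟩ := hs w
  have hg : ∀ z ∈ B, t z * (T * T') = (T * T') * t z := by
    intro z hz
    rw [← mul_assoc, ← h1 z hz, mul_assoc, ← h2 z hz, ← mul_assoc]
  have e1 : T' ((T * T') w) = (T * T') (T w) := by
    have := LinearMap.congr_fun hbr w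
    exact this.symm
  have e2 : T' ((T * T') w) - μ • (T * T') w = (T * T') (T w - μ • w) := by
    rw [e1, map_sub, map_smul]
  rw [e2]
  have e3 : ∀ z ∈ B, t z ((T * T') (T w - μ • w)) = (T * T') (t z (T w - μ • w)) := by
    intro z hz
    exact LinearMap.congr_fun (hg z hz) _
  rw [e3 x hx, e3 y hy, h x hx y hy w]

/-- (2.2) `v0 = l` and `w1 = l + (u a - l a) e_a`: one `μ ≠ 0` such that `t x`, `x a ≥ l a + 2`, is
flat on the image of `t v0 - μ` and `t x`, `x a ≤ u a - 2`, is flat on the image of `t w1 - μ`.
Proof: `split` for `(t v0, La)`, `(t w1, La')` and `(t v, Lb)` for all `v` of the segment from `v0`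
to `w1`; conjugation by `t v * t v'` and `split_unique` for `Lb`; then `split_unique` for
`La ∩ Lb`, `La' ∩ Lb` which contain edges (`edge_ne`). -/
theorem exists_mu {l u : Fin n → ℤ} (hs : ∀ c, l c + 2 ≤ u c) {a b : Fin n} (hab : a ≠ b)
    (ha : l a + 4 ≤ u a) (hb : l b + 4 ≤ u b) {k : ℕ}
    (hN1 : Nab.{v} K (Function.update l a (l a + 2)) u k)
    (hN2 : Nab.{v} K l (Function.update u a (u a - 2)) k)
    (hN3 : Nab.{v} K (Function.update l b (l b + 2)) u k)
    {t : (Fin n → ℤ) → Module.End K V} (hinj : ∀ x ∈ Box l u, Function.Injective (t x))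
    (hS : Sys (Box l u) t) (hnf : ∃ x ∈ Box l u, ∃ y ∈ Box l u, t x ≠ t y)
    (hr : Module.finrank K V < 2 * k) :
    ∃ μ : K, μ ≠ 0 ∧
      (∀ x ∈ Box l u, ∀ y ∈ Box l u, l a + 2 ≤ x a → l a + 2 ≤ y a →
        ∀ w, t x (t l w - μ • w) = t y (t l w - μ • w)) ∧
      (∀ x ∈ Box l u, ∀ y ∈ Box l u, x a ≤ u a - 2 → y a ≤ u a - 2 →
        ∀ w, t x (t (Function.update l a (u a)) w - μ • w) =
          t y (t (Function.update l a (u a)) w - μ • w)) := by
  have hE := edge_ne hs hinj hS hnf
  have hl : l ∈ Box l u := fun c => ⟨le_refl _, by have := hs c; omega⟩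
  -- membership in the three boxes
  have m1 : ∀ x, x ∈ Box (Function.update l a (l a + 2)) u ↔ x ∈ Box l u ∧ l a + 2 ≤ x a := by
    intro x
    constructor
    · intro h
      have h2 := h a
      rw [Function.update_self] at h2
      refine ⟨fun c => ?_, h2.1⟩
      by_cases hc : c = a
      · subst hc; constructor <;> omega
      · have h1 := h c
        rw [Function.update_of_ne hc] at h1
        exact h1
    · rintro ⟨h1, h2⟩ c
      by_cases hc : c = a
      · subst hc
        rw [Function.update_self]
        exact ⟨h2, (h1 c).2⟩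
      · rw [Function.update_of_ne hc]
        exact h1 c
  have m3 : ∀ x, x ∈ Box (Function.update l b (l b + 2)) u ↔ x ∈ Box l u ∧ l b + 2 ≤ x b := by
    intro x
    constructor
    · intro h
      have h2 := h b
      rw [Function.update_self] at h2
      refine ⟨fun c => ?_, h2.1⟩
      by_cases hc : c = b
      · subst hc; constructor <;> omega
      · have h1 := h c
        rw [Function.update_of_ne hc] at h1
        exact h1
    · rintro ⟨h1, h2⟩ c
      by_cases hc : c = b
      · subst hc
        rw [Function.update_self]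
        exact ⟨h2, (h1 c).2⟩
      · rw [Function.update_of_ne hc]
        exact h1 c
  have m2 : ∀ x, x ∈ Box l (Function.update u a (u a - 2)) ↔ x ∈ Box l u ∧ x a ≤ u a - 2 := by
    intro x
    constructor
    · intro h
      have h2 := h a
      rw [Function.update_self] at h2
      refine ⟨fun c => ?_, h2.2⟩
      by_cases hc : c = a
      · subst hc; constructor <;> omega
      · have h1 := h c
        rw [Function.update_of_ne hc] at h1
        exact h1
    · rintro ⟨h1, h2⟩ c
      by_cases hc : c = a
      · subst hc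
        rw [Function.update_self]
        exact ⟨(h1 c).1, h2⟩
      · rw [Function.update_of_ne hc]
        exact h1 c
  -- an edge in both directions in a corner
  let p : Fin n → ℤ := Function.update (Function.update l a (l a + 2)) b (l b + 2)
  have pa : p a = l a + 2 := by
    show Function.update (Function.update l a (l a + 2)) b (l b + 2) a = l a + 2
    rw [Function.update_of_ne hab, Function.update_self]
  have pb : p b = l b + 2 := by
    show Function.update (Function.update l a (l a + 2)) b (l b + 2) b = l b + 2
    rw [Function.update_self]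
  have pc : ∀ c, c ≠ a → c ≠ b → p c = l c := by
    intro c h1 h2
    show Function.update (Function.update l a (l a + 2)) b (l b + 2) c = l c
    rw [Function.update_of_ne h2, Function.update_of_ne h1]
  let p' : Fin n → ℤ := Function.update p b (p b + 1)
  have pa' : p' a = l a + 2 := by
    show Function.update p b (p b + 1) a = l a + 2
    rw [Function.update_of_ne hab, pa]
  have pb' : p' b = l b + 3 := by
    show Function.update p b (p b + 1) b = l b + 3
    rw [Function.update_self, pb]
    ring
  have pc' : ∀ c, c ≠ a → c ≠ b → p' c = l c := by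
    intro c h1 h2
    show Function.update p b (p b + 1) c = l c
    rw [Function.update_of_ne h2, pc c h1 h2]
  have hp : p ∈ Box l u := by
    intro c
    by_cases h1 : c = a
    · subst h1; rw [pa]; constructor <;> omega
    · by_cases h2 : c = b
      · subst h2; rw [pb]; constructor <;> omega
      · rw [pc c h1 h2]; exact hl c
  have hp' : p' ∈ Box l u := by
    intro c
    by_cases h1 : c = a
    · subst h1; rw [pa']; constructor <;> omega
    · by_cases h2 : c = b
      · subst h2; rw [pb']; constructor <;> omega
      · rw [pc' c h1 h2]; exact hl c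
  have hpp : t p ≠ t p' := hE p hp p' hp' (adj_update p b)
  -- splitting
  obtain ⟨μ0, h0⟩ := split b (by rw [Function.update_of_ne hab.symm]; exact hb) hN1
    (fun x hx => hinj x ((m1 x).1 hx).1) (hS.mono fun x hx => ((m1 x).1 hx).1) hr (t l)
    (fun x hx => hS.comm l hl x ((m1 x).1 hx).1 (far_of_le a ((m1 x).1 hx).2))
    ⟨p, (m1 p).2 ⟨hp, by omega⟩, p', (m1 p').2 ⟨hp', by omega⟩, hpp⟩
  have hw1 : Function.update l a (u a) ∈ Box l u := by
    intro c
    by_cases h1 : c = a
    · subst h1; rw [Function.update_self]; constructor <;> omega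
    · rw [Function.update_of_ne h1]; exact hl c
  obtain ⟨μ1, h1⟩ := split b (by rw [Function.update_of_ne hab.symm]; exact hb) hN2
    (fun x hx => hinj x ((m2 x).1 hx).1) (hS.mono fun x hx => ((m2 x).1 hx).1) hr
    (t (Function.update l a (u a)))
    (fun x hx => hS.comm _ hw1 x ((m2 x).1 hx).1 (far_of_le a (by
      rw [Function.update_self]
      have := ((m2 x).1 hx).2
      omega)).symm)
    ⟨p, (m2 p).2 ⟨hp, by omega⟩, p', (m2 p').2 ⟨hp', by omega⟩, hpp⟩
  obtain ⟨μ, h2⟩ := split a (by rw [Function.update_of_ne hab]; exact ha) hN3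
    (fun x hx => hinj x ((m3 x).1 hx).1) (hS.mono fun x hx => ((m3 x).1 hx).1) hr (t l)
    (fun x hx => hS.comm l hl x ((m3 x).1 hx).1 (far_of_le b ((m3 x).1 hx).2))
    ⟨p, (m3 p).2 ⟨hp, by omega⟩, p', (m3 p').2 ⟨hp', by omega⟩, hpp⟩
  -- the segment
  have hseg : ∀ j : ℕ, l a + j ≤ u a →
      FlatOn (Box (Function.update l b (l b + 2)) u) t (t (Function.update l a (l a + j))) μ := by
    intro j
    induction j with
    | zero =>
      intro _
      have e : Function.update l a (l a + (0 : ℕ)) = l := by
        funext c
        by_cases hc : c = a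
        · subst hc; rw [Function.update_self]; simp
        · rw [Function.update_of_ne hc]
      rw [e]
      exact h2
    | succ j ih =>
      intro hj
      have hj' : l a + (j : ℤ) ≤ u a := by push_cast at hj; omega
      have hv : Function.update l a (l a + (j : ℤ)) ∈ Box l u := by
        intro c
        by_cases h1 : c = a
        · subst h1; rw [Function.update_self]; constructor <;> omega
        · rw [Function.update_of_ne h1]; exact hl c
      have hv' : Function.update l a (l a + ((j + 1 : ℕ) : ℤ)) ∈ Box l u := by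
        intro c
        by_cases h1 : c = a
        · subst h1; rw [Function.update_self]; push_cast at hj ⊢; constructor <;> omega
        · rw [Function.update_of_ne h1]; exact hl c
      have hadj : Adj (Function.update l a (l a + (j : ℤ)))
          (Function.update l a (l a + ((j + 1 : ℕ) : ℤ))) := by
        have h3 := adj_update (Function.update l a (l a + (j : ℤ))) a
        rw [Function.update_self, Function.update_idem] at h3
        have h4 : l a + ((j + 1 : ℕ) : ℤ) = l a + (j : ℤ) + 1 := by push_cast; ring
        rw [h4]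
        exact h3
      have hfar : ∀ (j : ℤ), Function.update l a (l a + j) ∈ Box l u →
          ∀ x ∈ Box (Function.update l b (l b + 2)) u,
          t (Function.update l a (l a + j)) * t x = t x * t (Function.update l a (l a + j)) := by
        intro j hj x hx
        refine hS.comm _ hj x ((m3 x).1 hx).1 (far_of_le b ?_)
        rw [Function.update_of_ne hab.symm]
        exact ((m3 x).1 hx).2
      exact (ih hj').conj (hS.braid _ hv _ hv' hadj) (hfar _ hv) (hfar _ hv') (hinj _ hv)
        (hinj _ hv')
  have hend : FlatOn (Box (Function.update l b (l b + 2)) u) t (t (Function.update l a (u a))) μ := by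
    have h3 := hseg (u a - l a).toNat (by omega)
    have h4 : l a + ((u a - l a).toNat : ℤ) = u a := by omega
    rw [h4] at h3
    exact h3
  have e0 : μ0 = μ := by
    by_contra hne
    refine hpp (split_unique (B := {p, p'}) (t l) hne ?_ ?_ p (Or.inl rfl) p' (Or.inr rfl))
    · have hB : ∀ x ∈ ({p, p'} : Set (Fin n → ℤ)), x ∈ Box (Function.update l a (l a + 2)) u := by
        rintro x (rfl | rfl)
        · exact (m1 _).2 ⟨hp, by omega⟩
        · exact (m1 _).2 ⟨hp', by omega⟩
      exact fun x hx y hy => h0 x (hB x hx) y (hB y hy)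
    · have hB : ∀ x ∈ ({p, p'} : Set (Fin n → ℤ)), x ∈ Box (Function.update l b (l b + 2)) u := by
        rintro x (rfl | rfl)
        · exact (m3 _).2 ⟨hp, by omega⟩
        · exact (m3 _).2 ⟨hp', by omega⟩
      exact fun x hx y hy => h2 x (hB x hx) y (hB y hy)
  have e1 : μ1 = μ := by
    by_contra hne
    refine hpp (split_unique (B := {p, p'}) (t (Function.update l a (u a))) hne ?_ ?_ p
      (Or.inl rfl) p' (Or.inr rfl))
    · have hB : ∀ x ∈ ({p, p'} : Set (Fin n → ℤ)), x ∈ Box l (Function.update u a (u a - 2)) := by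
        rintro x (rfl | rfl)
        · exact (m2 _).2 ⟨hp, by omega⟩
        · exact (m2 _).2 ⟨hp', by omega⟩
      exact fun x hx y hy => h1 x (hB x hx) y (hB y hy)
    · have hB : ∀ x ∈ ({p, p'} : Set (Fin n → ℤ)), x ∈ Box (Function.update l b (l b + 2)) u := by
        rintro x (rfl | rfl)
        · exact (m3 _).2 ⟨hp, by omega⟩
        · exact (m3 _).2 ⟨hp', by omega⟩
      exact fun x hx y hy => hend x (hB x hx) y (hB y hy)
  subst e0
  rw [e1] at h1
  refine ⟨μ0, ?_, ?_, ?_⟩
  · rintro rfl
    apply hpp
    refine LinearMap.ext fun w => ?_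
    obtain ⟨w, rfl⟩ := LinearMap.injective_iff_surjective.1 (hinj l hl) w
    have h3 := h0 p ((m1 _).2 ⟨hp, by omega⟩) p' ((m1 _).2 ⟨hp', by omega⟩) w
    rwa [zero_smul, sub_zero] at h3
  · intro x hx y hy h3 h4 w
    exact h0 x ((m1 _).2 ⟨hx, h3⟩) y ((m1 _).2 ⟨hy, h4⟩) w
  · intro x hx y hy h3 h4 w
    exact h1 x ((m2 _).2 ⟨hx, h3⟩) y ((m2 _).2 ⟨hy, h4⟩) w

end Pool.Agent.HypLow
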