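import Pool.Agent.Lib.HypLow.Defs

/-! # The rank (2.9) -/

namespace Pool.Agent.HypLow

variable {n : ℕ} {K V : Type*} [Field K] [AddCommGroup V] [Module K V]

/-- (2.9) the vectors `e y` with `y c > l c` for all `c` are linearly independent -/
theorem Pham.rank [FiniteDimensional K V] {l u : Fin n → ℤ} (hlu : ∀ c, l c ≤ u c)
    {A : (Fin n → ℤ) → Module.End K V} {q : K} {e : (Fin n → ℤ) → V}
    (h : Pham (Box l u) A q e) : ∏ c, (u c - l c).toNat ≤ Module.finrank K V := by
  classical
  have hmemBox : ∀ y : ↥(Fintype.piFinset (fun c => Finset.Ioc (l c) (u c))),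
      ∀ c, l c < (y : Fin n → ℤ) c ∧ (y : Fin n → ℤ) c ≤ u c := by
    intro y c
    have := (Fintype.mem_piFinset.1 y.2) c
    exact Finset.mem_Ioc.1 this
  have hli : LinearIndependent K
      (fun y : ↥(Fintype.piFinset (fun c => Finset.Ioc (l c) (u c))) => e (y : Fin n → ℤ)) := by
    rw [linearIndependent_iff']
    intro s g hg
    by_contra hcon
    push Not at hcon
    obtain ⟨i, his, hgi⟩ := hcon
    have hne : (s.filter (fun y => g y ≠ 0)).Nonempty := ⟨i, by simp [his, hgi]⟩
    obtain ⟨y0, hy0, hmin⟩ := Finset.exists_min_image (s.filter (fun y => g y ≠ 0))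
      (fun y => ∑ c, (y : Fin n → ℤ) c) hne
    rw [Finset.mem_filter] at hy0
    obtain ⟨hy0s, hgy0⟩ := hy0
    have hb0 := hmemBox y0
    have hy0B : (y0 : Fin n → ℤ) ∈ Box l u := fun c => ⟨(hb0 c).1.le, (hb0 c).2⟩
    rcases Nat.eq_zero_or_pos n with hn | hn
    · subst hn
      have hall : ∀ y : ↥(Fintype.piFinset (fun c => Finset.Ioc (l c) (u c))), y = y0 := by
        intro y
        apply Subtype.ext
        funext c
        exact c.elim0
      have hs : s = {y0} := by
        ext y
        rw [hall y]
        simp [hy0s]
      rw [hs, Finset.sum_singleton] at hg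
      rcases smul_eq_zero.1 hg with h1 | h1
      · exact hgy0 h1
      · exact h.ne _ hy0B h1
    · set x : Fin n → ℤ := fun c => (y0 : Fin n → ℤ) c - 1 with hx
      have hxB : x ∈ Box l u := by
        intro c
        have := hb0 c
        simp only [hx]
        omega
      have hxy0 : Lt x (y0 : Fin n → ℤ) := by
        refine ⟨fun hh => ?_, fun c => ?_⟩
        · have := congrFun hh ⟨0, hn⟩
          simp only [hx] at this
          omega
        · simp only [hx]
          omega
      have hsum : ∑ y ∈ s, g y • A x (e (y : Fin n → ℤ)) = 0 := by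
        have := congrArg (A x) hg
        rw [map_sum, map_zero] at this
        rw [← this]
        exact Finset.sum_congr rfl fun y _ => (map_smul _ _ _).symm
      rw [Finset.sum_eq_single y0] at hsum
      · rw [h.up x hxB _ hy0B hxy0] at hsum
        rcases smul_eq_zero.1 hsum with h1 | h1
        · exact hgy0 h1
        · exact h.ne _ hxB (neg_eq_zero.1 h1)
      · intro y hys hyne
        by_cases hgy : g y = 0
        · rw [hgy, zero_smul]
        have hy := hmin y (Finset.mem_filter.2 ⟨hys, hgy⟩)
        have hby := hmemBox y
        have hyB : (y : Fin n → ℤ) ∈ Box l u := fun c => ⟨(hby c).1.le, (hby c).2⟩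
        have hne' : (y : Fin n → ℤ) ≠ (y0 : Fin n → ℤ) := fun hh => hyne (Subtype.ext hh)
        have hnle : ¬ ∀ c, (y : Fin n → ℤ) c ≤ (y0 : Fin n → ℤ) c := by
          intro hle
          obtain ⟨c, hc⟩ := Function.ne_iff.1 hne'
          have hlt : ∑ c, (y : Fin n → ℤ) c < ∑ c, (y0 : Fin n → ℤ) c :=
            Finset.sum_lt_sum (fun c _ => hle c) ⟨c, Finset.mem_univ _, lt_of_le_of_ne (hle c) hc⟩
          exact absurd hy (not_le.2 hlt)
        have hfar : Far x (y : Fin n → ℤ) := by
          refine ⟨fun hh => hnle fun c => ?_, fun hadj => hnle fun c => ?_⟩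
          · have := congrFun hh c
            simp only [hx] at this
            omega
          · rcases hadj with hadj | hadj
            · have := hadj.2 c
              simp only [hx] at this
              omega
            · have := hadj.2 c
              simp only [hx] at this
              omega
        rw [h.far x hxB _ hyB hfar, smul_zero]
      · intro hns
        exact absurd hy0s hns
  have hcard := hli.fintype_card_le_finrank
  rw [Fintype.card_coe, Fintype.card_piFinset] at hcard
  simpa [Int.card_Ioc] using hcard

end Pool.Agent.HypLow
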