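import Pool.Agent.Lib.HypLow.Main
import Pool.Agent.Lib.HypLow.VecB
import Pool.Agent.Lib.HypLow.Ext

/-! # The recursion (section 3) -/

namespace Pool.Agent.HypLow

universe v

variable {n : ℕ} {K : Type*} [Field K]

/-- `Nab` for all boxes with `u c = l c + D c` -/
def NabS (K : Type*) [Field K] (D : Fin n → ℕ) (k : ℕ) : Prop :=
  ∀ l u : Fin n → ℤ, (∀ c, u c = l c + D c) → Nab.{v} K l u k

/-- quotient system -/
theorem Sys.quot {V : Type v} [AddCommGroup V] [Module K V] [FiniteDimensional K V]
    {B : Set (Fin n → ℤ)} {t : (Fin n → ℤ) → Module.End K V}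
    (hS : Sys B t) (hinj : ∀ x ∈ B, Function.Injective (t x)) (W : Submodule K V)
    (hW : ∀ x ∈ B, ∀ w ∈ W, t x w ∈ W) :
    ∃ t' : (Fin n → ℤ) → Module.End K (V ⧸ W), Sys B t' ∧
      (∀ x ∈ B, Function.Injective (t' x)) ∧ ∀ x ∈ B, ∀ w, t' x (W.mkQ w) = W.mkQ (t x w) := by
  classical
  obtain ⟨t', key'⟩ : ∃ t' : (Fin n → ℤ) → Module.End K (V ⧸ W),
      ∀ x ∈ B, ∀ w : V, t' x (W.mkQ w) = W.mkQ (t x w) := by
    refine ⟨fun x => if h : x ∈ B then W.mapQ W (t x) (fun w hw => hW x h w hw) else 0, ?_⟩
    intro x hx w
    dsimp only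
    rw [dif_pos hx]
    exact Submodule.mapQ_apply W W (t x) w
  refine ⟨t', ?_, ?_, key'⟩
  · refine ⟨?_, ?_, ?_⟩
    · intro x hx y hy hxy
      refine LinearMap.ext fun z => ?_
      obtain ⟨w, rfl⟩ := Submodule.mkQ_surjective W z
      have h := LinearMap.congr_fun (hS.comm x hx y hy hxy) w
      simp only [Module.End.mul_apply] at h ⊢
      rw [key' y hy, key' x hx, key' x hx, key' y hy, h]
    · intro x hx y hy hxy
      refine LinearMap.ext fun z => ?_
      obtain ⟨w, rfl⟩ := Submodule.mkQ_surjective W z
      have h := LinearMap.congr_fun (hS.braid x hx y hy hxy) w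
      simp only [Module.End.mul_apply] at h ⊢
      rw [key' x hx, key' y hy, key' x hx, key' y hy, key' x hx, key' y hy, h]
    · intro x hx y hy z hz hxy hyz hxz
      refine LinearMap.ext fun w' => ?_
      obtain ⟨w, rfl⟩ := Submodule.mkQ_surjective W w'
      have h := LinearMap.congr_fun (hS.tri x hx y hy z hz hxy hyz hxz) w
      simp only [Module.End.mul_apply] at h ⊢
      rw [key' x hx, key' z hz, key' y hy, key' x hx, key' y hy, key' x hx, key' z hz, key' y hy, h]
  · intro x hx z z' hzz
    obtain ⟨w, rfl⟩ := Submodule.mkQ_surjective W z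
    obtain ⟨w', rfl⟩ := Submodule.mkQ_surjective W z'
    have h1 := (key' x hx w).symm.trans (hzz.trans (key' x hx w'))
    have h2 : t x (w - w') ∈ W := by
      rw [map_sub]
      exact (Submodule.Quotient.eq W).1 h1
    have h3 : Function.Injective ((t x).restrict (hW x hx)) := by
      intro a b hab
      apply Subtype.ext
      apply hinj x hx
      exact congrArg Subtype.val hab
    obtain ⟨a, ha⟩ := LinearMap.surjective_of_injective h3 ⟨_, h2⟩
    have h4 : t x (a : V) = t x (w - w') := congrArg Subtype.val ha
    have h5 : (a : V) = w - w' := hinj x hx h4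
    refine (Submodule.Quotient.eq W).2 ?_
    rw [← h5]
    exact a.2

theorem nabS_two (D : Fin n → ℕ) : NabS.{v} K D 2 := by
  intro l u hlu V _ _ _ t hinj hS hr
  refine box_connected (fun x => t x) fun x hx y hy hxy => ?_
  obtain ⟨v, hv⟩ := finrank_le_one_iff.1 (Nat.lt_succ_iff.1 hr)
  obtain ⟨a, ha⟩ := hv (t x v)
  obtain ⟨b, hb⟩ := hv (t y v)
  have hcomm : ∀ z, t x (t y z) = t y (t x z) := by
    intro z
    obtain ⟨c, hc⟩ := hv z
    rw [← hc, map_smul, map_smul, map_smul, map_smul, ← ha, ← hb, map_smul, map_smul, ← ha, ← hb,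
      smul_comm b a v]
  refine LinearMap.ext fun z => ?_
  have h := LinearMap.congr_fun (hS.braid x hx y hy hxy) z
  simp only [Module.End.mul_apply] at h
  rw [← hcomm (t y z)] at h
  exact hinj y hy (hinj x hx h)

theorem nabS_step [IsAlgClosed K] (D : Fin n → ℕ) (hD : ∀ c, 2 ≤ D c) {a b : Fin n} (hab : a ≠ b)
    (ha : 4 ≤ D a) (hb : 4 ≤ D b) {k : ℕ} (h1 : NabS.{v} K (Function.update D a (D a - 2)) k)
    (h2 : NabS.{v} K (Function.update D b (D b - 2)) k) :
    NabS.{v} K D (min (2 * k) (∏ c, D c)) := by
  classical
  intro l u hlu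
  have key : ∀ m : ℕ, ∀ (V : Type v) [AddCommGroup V] [Module K V] [FiniteDimensional K V]
      (t : (Fin n → ℤ) → Module.End K V), (∀ x ∈ Box l u, Function.Injective (t x)) →
      Sys (Box l u) t → Module.finrank K V = m → m < min (2 * k) (∏ c, D c) →
      ∀ x ∈ Box l u, ∀ y ∈ Box l u, t x = t y := by
    intro m
    induction m using Nat.strong_induction_on with
    | _ m ih =>
      intro V _ _ _ t hinj hS hm hlt
      by_contra hnf
      push Not at hnf
      by_cases hirr : ∀ W : Submodule K V, (∀ x ∈ Box l u, ∀ w ∈ W, t x w ∈ W) → W = ⊥ ∨ W = ⊤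
      · obtain ⟨μ, hμ, q, e, hP⟩ := irreducible_pham (l := l) (u := u) (k := k)
          (fun c => by have := hD c; rw [hlu c]; omega) hab
          (by rw [hlu a]; omega) (by rw [hlu b]; omega)
          (h1 _ _ fun c => by
            by_cases hc : c = a
            · subst hc
              rw [Function.update_self, Function.update_self, hlu c]
              omega
            · rw [Function.update_of_ne hc, Function.update_of_ne hc, hlu c])
          (h1 _ _ fun c => by
            by_cases hc : c = a
            · subst hc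
              rw [Function.update_self, Function.update_self, hlu c]
              omega
            · rw [Function.update_of_ne hc, Function.update_of_ne hc, hlu c])
          (h2 _ _ fun c => by
            by_cases hc : c = b
            · subst hc
              rw [Function.update_self, Function.update_self, hlu c]
              omega
            · rw [Function.update_of_ne hc, Function.update_of_ne hc, hlu c])
          hinj hS hirr hnf (by rw [hm]; exact lt_of_lt_of_le hlt (min_le_left _ _))
        have h3 := hP.rank (fun c => by rw [hlu c]; omega)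
        have h4 : ∏ c, (u c - l c).toNat = ∏ c, D c :=
          Finset.prod_congr rfl fun c _ => by rw [hlu c]; omega
        rw [h4, hm] at h3
        exact absurd (lt_of_lt_of_le hlt (min_le_right _ _)) (not_lt.2 h3)
      · push Not at hirr
        obtain ⟨W, hW, hb', ht'⟩ := hirr
        have hr1 : Module.finrank K W < m := by
          rw [← hm]
          exact Submodule.finrank_lt ht'
        have hr2 : Module.finrank K (V ⧸ W) < m := by
          have h5 := Submodule.finrank_quotient_add_finrank W
          have h6 : 0 < Module.finrank K W := by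
            rw [Module.finrank_pos_iff]
            exact Submodule.nontrivial_iff_ne_bot.2 hb'
          omega
        obtain ⟨t₁, hS₁, ht₁⟩ := hS.restrict W hW
        obtain ⟨t₂, hS₂, hi₂, ht₂⟩ := hS.quot hinj W hW
        have hf₁ := ih _ hr1 W t₁ (fun x hx w w' h => by
          apply Subtype.ext
          apply hinj x hx
          rw [← ht₁ x hx, ← ht₁ x hx, h]) hS₁ rfl (hr1.trans hlt)
        have hf₂ := ih _ hr2 (V ⧸ W) t₂ hi₂ hS₂ rfl (hr2.trans hlt)
        obtain ⟨x, hx, y, hy, hne⟩ := hnf
        refine hne (ext_flat a (by rw [hlu a]; omega)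
          (fun x hx => LinearMap.injective_iff_surjective.1 (hinj x hx)) hS W ?_ ?_ x hx y hy)
        · intro x hx y hy w hw
          have h7 := ht₁ x hx ⟨w, hw⟩
          have h8 := ht₁ y hy ⟨w, hw⟩
          rw [hf₁ x hx y hy] at h7
          exact h7.symm.trans h8
        · intro x hx y hy w
          have h7 := ht₂ x hx w
          have h8 := ht₂ y hy w
          rw [hf₂ x hx y hy] at h7
          exact (Submodule.Quotient.eq W).1 (h7.symm.trans h8)
  intro V _ _ _ t hinj hS hr
  exact key _ V t hinj hS rfl hr

end Pool.Agent.HypLow
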