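import Pool.Agent.Lib.HypLow.RecA

/-! # The recursion, numerics -/

namespace Pool.Agent.HypLow

universe v

variable {n : ℕ} {K : Type*} [Field K]

theorem nabS_mono {D : Fin n → ℕ} {k k' : ℕ} (hk : k' ≤ k) (h : NabS.{v} K D k) :
    NabS.{v} K D k' := by
  intro l u hlu V _ _ _ t hinj hS hr
  exact h l u hlu V t hinj hS (lt_of_lt_of_le hr hk)

/-- the product drops at most by a factor 2 -/
theorem prod_update_le (D : Fin n → ℕ) (a : Fin n) (ha : 4 ≤ D a) :
    ∏ c, D c ≤ 2 * ∏ c, Function.update D a (D a - 2) c := by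
  classical
  rw [← Finset.mul_prod_erase Finset.univ D (Finset.mem_univ a),
    ← Finset.mul_prod_erase Finset.univ (Function.update D a (D a - 2)) (Finset.mem_univ a),
    Function.update_self]
  have h1 : ∏ c ∈ Finset.univ.erase a, Function.update D a (D a - 2) c =
      ∏ c ∈ Finset.univ.erase a, D c := by
    refine Finset.prod_congr rfl fun c hc => ?_
    rw [Function.update_of_ne (Finset.ne_of_mem_erase hc)]
  rw [h1, ← mul_assoc]
  exact Nat.mul_le_mul_right _ (by omega)

/-- the hypotheses after one step -/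
theorem hyp_update (D : Fin n → ℕ) (hD : ∀ c, 2 ≤ D c) {s : ℕ}
    (hs : ∀ c, s + 1 ≤ ∑ c' ∈ Finset.univ.erase c, (D c' / 2 - 1)) (a : Fin n) (ha : 4 ≤ D a) :
    (∀ c, 2 ≤ Function.update D a (D a - 2) c) ∧
      ∀ c, s ≤ ∑ c' ∈ Finset.univ.erase c, (Function.update D a (D a - 2) c' / 2 - 1) := by
  classical
  constructor
  · intro c
    by_cases hc : c = a
    · subst hc
      rw [Function.update_self]
      omega
    · rw [Function.update_of_ne hc]
      exact hD c
  · intro c
    by_cases hc : c = a
    · subst hc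
      have h1 : ∑ c' ∈ Finset.univ.erase c, (Function.update D c (D c - 2) c' / 2 - 1) =
          ∑ c' ∈ Finset.univ.erase c, (D c' / 2 - 1) := by
        refine Finset.sum_congr rfl fun c' hc' => ?_
        rw [Function.update_of_ne (Finset.ne_of_mem_erase hc')]
      rw [h1]
      have := hs c
      omega
    · have ha' : a ∈ Finset.univ.erase c :=
        Finset.mem_erase.2 ⟨fun h => hc h.symm, Finset.mem_univ a⟩
      have h2 := hs c
      rw [← Finset.add_sum_erase _ _ ha'] at h2
      rw [← Finset.add_sum_erase _ _ ha', Function.update_self]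
      have h1 : ∑ c' ∈ (Finset.univ.erase c).erase a,
          (Function.update D a (D a - 2) c' / 2 - 1) =
          ∑ c' ∈ (Finset.univ.erase c).erase a, (D c' / 2 - 1) := by
        refine Finset.sum_congr rfl fun c' hc' => ?_
        rw [Function.update_of_ne (Finset.ne_of_mem_erase hc')]
      rw [h1]
      omega

theorem nabS_pow [IsAlgClosed K] (s : ℕ) : ∀ D : Fin n → ℕ, (∀ c, 2 ≤ D c) →
    (∀ c, s ≤ ∑ c' ∈ Finset.univ.erase c, (D c' / 2 - 1)) →
    NabS.{v} K D (min (2 ^ (s + 1)) (∏ c, D c)) := by
  induction s with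
  | zero =>
    intro D _ _
    exact nabS_mono (min_le_left _ _) (nabS_two D)
  | succ s ih =>
    intro D hD hs
    by_cases hn : Nonempty (Fin n)
    · obtain ⟨c₀⟩ := hn
      have key : ∀ c, ∃ a, a ≠ c ∧ 4 ≤ D a := by
        intro c
        by_contra hc
        have h0 : ∑ c' ∈ Finset.univ.erase c, (D c' / 2 - 1) = 0 := by
          refine Finset.sum_eq_zero fun c' hc' => ?_
          have h1 : ¬ 4 ≤ D c' := fun h => hc ⟨c', Finset.ne_of_mem_erase hc', h⟩
          omega
        have := hs c
        omega
      obtain ⟨a, -, ha⟩ := key c₀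
      obtain ⟨b, hba, hb⟩ := key a
      obtain ⟨p1, p2⟩ := hyp_update D hD hs a ha
      obtain ⟨q1, q2⟩ := hyp_update D hD hs b hb
      have i1 := ih _ p1 p2
      have i2 := ih _ q1 q2
      have g1 := prod_update_le D a ha
      have g2 := prod_update_le D b hb
      refine nabS_mono ?_ (nabS_step D hD (Ne.symm hba) ha hb
        (k := min (2 ^ (s + 1)) (min (∏ c, Function.update D a (D a - 2) c)
          (∏ c, Function.update D b (D b - 2) c)))
        (nabS_mono ?_ i1) (nabS_mono ?_ i2))
      · have e1 : 2 ^ (s + 1 + 1) = 2 * 2 ^ (s + 1) := by ring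
        omega
      · omega
      · omega
    · have hp : ∏ c, D c = 1 := by
        have : IsEmpty (Fin n) := not_nonempty_iff.1 hn
        exact Finset.prod_of_isEmpty _
      rw [hp]
      exact nabS_mono (le_trans (min_le_right _ _) (by omega)) (nabS_two D)

end Pool.Agent.HypLow
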